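import Pool.Agent.Lib.Z9f173d.Final1

/-!
# Poincaré duality groups of dimension three
-/

namespace Z9f173d

noncomputable section

open scoped Matrix

variable {G : Type*} [Group G]

/-- powers as elements of the cyclic group -/
def zp (k : G) (i : ℤ) : Subgroup.zpowers k := ⟨k ^ i, i, rfl⟩

theorem zp_add (k : G) (i j : ℤ) : zp k i * zp k j = zp k (i + j) :=
  Subtype.ext (zpow_add k i j).symm

theorem zp_injective {k : G} (hk : ¬ IsOfFinOrder k) : Function.Injective (zp k) := by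
  intro i j h
  exact (injective_zpow_iff_not_isOfFinOrder.2 hk) (congrArg Subtype.val h)

theorem zp_surjective (k : G) (x : Subgroup.zpowers k) : ∃ i, zp k i = x := by
  obtain ⟨i, hi⟩ := x.2
  exact ⟨i, Subtype.ext hi⟩

theorem foelner_zpowers {k : G} (hk : ¬ IsOfFinOrder k) :
    FoelnerAmenable (Subgroup.zpowers k) := by
  classical
  intro S ε hε
  choose m hm using zp_surjective k
  obtain ⟨N, hN⟩ := exists_nat_gt ((∑ s ∈ S, |(m s : ℝ)|) / ε)
  have hB0 : 0 ≤ ∑ s ∈ S, |(m s : ℝ)| := Finset.sum_nonneg fun _ _ => abs_nonneg _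
  have hNpos : 0 < N := by
    have : (0 : ℝ) < N := lt_of_le_of_lt (by positivity) hN
    exact_mod_cast this
  let K : Finset (Subgroup.zpowers k) := (Finset.range N).image (fun i : ℕ => zp k (i : ℤ))
  have hinj : Function.Injective (fun i : ℕ => zp k (i : ℤ)) :=
    (zp_injective hk).comp Nat.cast_injective
  have hKcard : K.card = N := by
    rw [Finset.card_image_of_injective _ hinj, Finset.card_range]
  refine ⟨K, ⟨zp k ((0 : ℕ) : ℤ), Finset.mem_image.2 ⟨0, Finset.mem_range.2 hNpos, rfl⟩⟩,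
    fun s hs => ?_⟩
  have hmem : ∀ i : ℤ, zp k i ∈ K ↔ 0 ≤ i ∧ i < N := by
    intro i
    rw [Finset.mem_image]
    constructor
    · rintro ⟨j, hj, hji⟩
      have := zp_injective hk hji
      rw [← this]
      exact ⟨by positivity, by exact_mod_cast Finset.mem_range.1 hj⟩
    · rintro ⟨h0, h1⟩
      refine ⟨i.toNat, Finset.mem_range.2 (by omega), ?_⟩
      show zp k ((i.toNat : ℕ) : ℤ) = _
      rw [Int.toNat_of_nonneg h0]
  -- the bad set
  have hbad : (Nat.card {x : Subgroup.zpowers k // x ∈ K ∧ s * x ∉ K} : ℤ) ≤ |m s| := by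
    have hsub : ∀ x : {x : Subgroup.zpowers k // x ∈ K ∧ s * x ∉ K},
        ∃ i : ℤ, zp k i = x.1 ∧ (0 ≤ i ∧ i < N) ∧ ¬ (0 ≤ m s + i ∧ m s + i < N) := by
      rintro ⟨x, hx, hsx⟩
      obtain ⟨i, rfl⟩ := zp_surjective k x
      refine ⟨i, rfl, (hmem i).1 hx, ?_⟩
      rw [← hmem, ← zp_add, hm]
      exact hsx
    choose φ hφ using hsub
    have hφinj : Function.Injective φ := by
      intro x y h
      apply Subtype.ext
      rw [← (hφ x).1, ← (hφ y).1, h]
    rcases le_total 0 (m s) with hms | hms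
    · have hf : ∀ x, φ x ∈ Finset.Ico ((N : ℤ) - m s) N := by
        intro x
        have := (hφ x).2
        rw [Finset.mem_Ico]
        omega
      have h3 := Nat.card_le_card_of_injective
        (fun x => (⟨φ x, hf x⟩ : Finset.Ico ((N : ℤ) - m s) N))
        (fun x y h => hφinj (congrArg Subtype.val h))
      rw [Nat.card_eq_finsetCard, Int.card_Ico] at h3
      rw [abs_of_nonneg hms]
      omega
    · have hf : ∀ x, φ x ∈ Finset.Ico (0 : ℤ) (- m s) := by
        intro x
        have := (hφ x).2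
        rw [Finset.mem_Ico]
        omega
      have h3 := Nat.card_le_card_of_injective
        (fun x => (⟨φ x, hf x⟩ : Finset.Ico (0 : ℤ) (- m s)))
        (fun x y h => hφinj (congrArg Subtype.val h))
      rw [Nat.card_eq_finsetCard, Int.card_Ico] at h3
      rw [abs_of_nonpos hms]
      omega
  rw [Nat.card_eq_finsetCard, hKcard]
  have h1 : (Nat.card {x : Subgroup.zpowers k // x ∈ K ∧ s * x ∉ K} : ℝ) ≤ |(m s : ℝ)| := by
    have h2 : ((Nat.card {x : Subgroup.zpowers k // x ∈ K ∧ s * x ∉ K} : ℤ) : ℝ)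
      ≤ ((|m s| : ℤ) : ℝ) := by exact_mod_cast hbad
    rw [Int.cast_abs] at h2
    exact_mod_cast h2
  refine h1.trans ((Finset.single_le_sum (f := fun s => |(m s : ℝ)|)
    (fun _ _ => abs_nonneg _) hs).trans ?_)
  rw [div_lt_iff₀ hε] at hN
  linarith

/-! ### The projection `ℤ[G] → ℤ[G/⟨k⟩]` -/

section
variable (Λ : Subgroup G)

/-- the projection -/
def pr : MonoidAlgebra ℤ G →+ MonoidAlgebra ℤ (G ⧸ Λ) where
  toFun f := MonoidAlgebra.mapDomain (fun x : G => (x : G ⧸ Λ)) f
  map_zero' := MonoidAlgebra.mapDomain_zero _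
  map_add' f g := MonoidAlgebra.mapDomain_add _ _ _

theorem pr_single (x : G) (z : ℤ) :
    pr Λ (MonoidAlgebra.single x z) = MonoidAlgebra.single (x : G ⧸ Λ) z :=
  MonoidAlgebra.mapDomain_single

/-- a section -/
def se : MonoidAlgebra ℤ (G ⧸ Λ) →+ MonoidAlgebra ℤ G where
  toFun f := MonoidAlgebra.mapDomain (fun x : G ⧸ Λ => Quotient.out x) f
  map_zero' := MonoidAlgebra.mapDomain_zero _
  map_add' f g := MonoidAlgebra.mapDomain_add _ _ _

theorem se_single (x : G ⧸ Λ) (z : ℤ) :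
    se Λ (MonoidAlgebra.single x z) = MonoidAlgebra.single (Quotient.out x) z :=
  MonoidAlgebra.mapDomain_single

theorem pr_se (f : MonoidAlgebra ℤ (G ⧸ Λ)) : pr Λ (se Λ f) = f := by
  induction f using MonoidAlgebra.induction_linear with
  | zero => simp
  | add a b ha hb => rw [map_add, map_add, ha, hb]
  | single x z => rw [se_single, pr_single, QuotientGroup.out_eq']

theorem pr_mul (a f : MonoidAlgebra ℤ G) :
    pr Λ (a * f) = (Representation.ofMulAction ℤ G (G ⧸ Λ)).asAlgebraHom a (pr Λ f) := by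
  induction a using MonoidAlgebra.induction_linear with
  | zero => simp
  | add a b ha hb => rw [add_mul, map_add, ha, hb, map_add, LinearMap.add_apply]
  | single g z =>
    induction f using MonoidAlgebra.induction_linear with
    | zero => simp
    | add a b ha hb => rw [mul_add, map_add, ha, hb, map_add, map_add]
    | single x w =>
      rw [MonoidAlgebra.single_mul_single, pr_single, pr_single,
        Representation.asAlgebraHom_single, LinearMap.smul_apply,
        Representation.ofMulAction_single, MonoidAlgebra.smul_single]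
      rfl

end

variable (k : G)

/-- `k - 1` -/
def km : MonoidAlgebra ℤ G := MonoidAlgebra.single k 1 - 1

theorem zpow_mem (i : ℤ) :
    ∃ a : MonoidAlgebra ℤ G, MonoidAlgebra.single (k ^ i) (1 : ℤ) - 1 = a * km k := by
  induction i using Int.induction_on with
  | zero => exact ⟨0, by simp [MonoidAlgebra.one_def]⟩
  | succ i ih =>
    obtain ⟨a, ha⟩ := ih
    refine ⟨a + MonoidAlgebra.single (k ^ (i : ℤ)) 1, ?_⟩
    rw [add_mul, ← ha, km, mul_sub, MonoidAlgebra.single_mul_single, mul_one, mul_one,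
      zpow_add_one]
    abel
  | pred i ih =>
    obtain ⟨a, ha⟩ := ih
    refine ⟨a - MonoidAlgebra.single (k ^ (-(i : ℤ) - 1)) 1, ?_⟩
    rw [sub_mul, ← ha, km, mul_sub, MonoidAlgebra.single_mul_single, mul_one, mul_one,
      zpow_sub_one, inv_mul_cancel_right]
    abel

theorem pr_ker (f : MonoidAlgebra ℤ G) (hf : pr (Subgroup.zpowers k) f = 0) :
    ∃ a, f = a * km k := by
  have h : ∀ f : MonoidAlgebra ℤ G, ∃ a, f - se (Subgroup.zpowers k) (pr (Subgroup.zpowers k) f)
      = a * km k := by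
    intro f
    induction f using MonoidAlgebra.induction_linear with
    | zero => exact ⟨0, by simp⟩
    | add a b ha hb =>
      obtain ⟨a', ha'⟩ := ha
      obtain ⟨b', hb'⟩ := hb
      refine ⟨a' + b', ?_⟩
      rw [add_mul, ← ha', ← hb', map_add, map_add]
      abel
    | single x z =>
      rw [pr_single, se_single]
      obtain ⟨i, hi⟩ := zp_surjective k (tau (Subgroup.zpowers k) x)
      obtain ⟨a, ha⟩ := zpow_mem k i
      refine ⟨MonoidAlgebra.single (Quotient.out (x : G ⧸ Subgroup.zpowers k)) z * a, ?_⟩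
      rw [mul_assoc, ← ha, mul_sub, MonoidAlgebra.single_mul_single, mul_one, mul_one]
      have h3 : Quotient.out (x : G ⧸ Subgroup.zpowers k) * k ^ i = x := by
        have h4 := out_mul_tau (Subgroup.zpowers k) x
        rw [← hi] at h4
        exact h4
      rw [h3]
  obtain ⟨a, ha⟩ := h f
  refine ⟨a, ?_⟩
  rw [hf, map_zero, sub_zero] at ha
  exact ha

theorem km_inj {k : G} (hk : ¬ IsOfFinOrder k) (f : MonoidAlgebra ℤ G) (hf : f * km k = 0) :
    f = 0 := by
  by_contra hne
  have h1 : f * MonoidAlgebra.single k 1 = f := by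
    rw [km, mul_sub, mul_one, sub_eq_zero] at hf
    exact hf
  have h2 : ∀ x, f.coeff (x * k) = f.coeff x := by
    intro x
    have := congrArg (fun w : MonoidAlgebra ℤ G => w.coeff (x * k)) h1
    simp only [MonoidAlgebra.coeff_mul_single_apply, mul_one, mul_inv_cancel_right] at this
    exact this.symm
  have h3 : ∀ (n : ℕ) x, f.coeff (x * k ^ n) = f.coeff x := by
    intro n
    induction n with
    | zero => intro x; simp
    | succ n ih => intro x; rw [pow_succ, ← mul_assoc, h2, ih]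
  obtain ⟨x, hx⟩ : ∃ x, f.coeff x ≠ 0 := by
    by_contra hcon
    simp only [not_exists, not_not] at hcon
    apply hne
    ext x
    simpa using hcon x
  have hinf : (f.coeff.support : Set G).Infinite := by
    refine Set.infinite_of_injective_forall_mem (f := fun n : ℕ => x * k ^ n) ?_ ?_
    · intro a b hab
      exact (injective_pow_iff_not_isOfFinOrder.2 hk) (mul_left_cancel hab)
    · intro n
      simp [h3, hx]
  exact hinf f.coeff.support.finite_toSet

/-- right multiplication of vectors -/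
def rm {n : ℕ} (b : MonoidAlgebra ℤ G) :
    (Fin n → MonoidAlgebra ℤ G) →+ (Fin n → MonoidAlgebra ℤ G) where
  toFun f := fun i => f i * b
  map_zero' := by ext1 i; simp
  map_add' f g := by ext1 i; simp [add_mul]

theorem rm_apply {n : ℕ} (b : MonoidAlgebra ℤ G) (f : Fin n → MonoidAlgebra ℤ G) (i : Fin n) :
    rm b f i = f i * b := rfl

theorem rm_rm {n : ℕ} (b c : MonoidAlgebra ℤ G) (f : Fin n → MonoidAlgebra ℤ G) :
    rm c (rm b f) = rm (b * c) f := by
  ext1 i; simp [rm_apply, mul_assoc]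

theorem cobd_self (C : FinRes G) (i : ℕ) (f : Fin (C.rank i) → MonoidAlgebra ℤ G) :
    C.cobd G i f = C.d i *ᵥ f := by
  ext1 a
  show ∑ b : Fin (C.rank i), _ = ∑ b : Fin (C.rank i), _
  refine Finset.sum_congr rfl fun b _ => ?_
  rw [Representation.asAlgebraHom_ofMulAction_smul_eq_mul]

theorem rm_mulVec {m n : ℕ} (D : Matrix (Fin m) (Fin n) (MonoidAlgebra ℤ G))
    (b : MonoidAlgebra ℤ G) (f : Fin n → MonoidAlgebra ℤ G) :
    D *ᵥ (rm b f) = rm b (D *ᵥ f) := by
  ext1 i
  simp only [Matrix.mulVec, dotProduct, rm_apply, Finset.sum_mul, mul_assoc]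

theorem pr_mulVec (Λ : Subgroup G) (C : FinRes G) (i : ℕ)
    (f : Fin (C.rank i) → MonoidAlgebra ℤ G) :
    (fun a => pr Λ ((C.d i *ᵥ f) a)) = C.cobd (G ⧸ Λ) i (fun b => pr Λ (f b)) := by
  ext1 a
  show pr Λ (∑ b : Fin (C.rank i), _) = ∑ b : Fin (C.rank i), _
  rw [map_sum]
  refine Finset.sum_congr rfl fun b _ => ?_
  rw [pr_mul]

/-- a class in `H^3(G; ℤ[G])` fixed by an element of infinite order is trivial. -/
theorem fixed_trivial (C : FinRes G)
    (h0 : ¬ Nontrivial (C.homology 0)) (h1 : ¬ Nontrivial (C.homology 1))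
    (h2 : ¬ Nontrivial (C.homology 2)) {k : G} (hk : ¬ IsOfFinOrder k)
    (z : Fin (C.rank 3) → MonoidAlgebra ℤ G) (b : Fin (C.rank 2) → MonoidAlgebra ℤ G)
    (hb : C.d 2 *ᵥ b = rm (km k) z) : ∃ b', C.d 2 *ᵥ b' = z := by
  have hkm : pr (Subgroup.zpowers k) (km k) = 0 := by
    rw [km, map_sub, MonoidAlgebra.one_def, pr_single, pr_single, sub_eq_zero]
    congr 1
    rw [QuotientGroup.eq]
    simp
  have hcoc : C.cobd (G ⧸ Subgroup.zpowers k) 2 (fun i => pr (Subgroup.zpowers k) (b i)) = 0 := by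
    rw [← pr_mulVec, hb]
    ext1 i
    rw [rm_apply, pr_mul, hkm]
    simp
  obtain ⟨c', hc'⟩ := cohomology_trivial (Subgroup.zpowers k) (foelner_zpowers hk) C h0 h1 h2 2
    le_rfl hcoc
  have hc'' : C.cobd (G ⧸ Subgroup.zpowers k) 1 c'
    = fun i => pr (Subgroup.zpowers k) (b i) := hc'
  let c : Fin (C.rank 1) → MonoidAlgebra ℤ G := fun i => se (Subgroup.zpowers k) (c' i)
  have hpc : (fun i => pr (Subgroup.zpowers k) (c i)) = c' := by
    ext1 i; exact pr_se _ _
  have hker : ∀ i, pr (Subgroup.zpowers k) ((b - C.d 1 *ᵥ c) i) = 0 := by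
    intro i
    have h3 := congrFun (pr_mulVec (Subgroup.zpowers k) C 1 c) i
    rw [hpc, hc''] at h3
    rw [Pi.sub_apply, map_sub]
    exact sub_eq_zero.2 h3.symm
  choose b' hb' using fun i => pr_ker k _ (hker i)
  refine ⟨b', ?_⟩
  have h4 : b - C.d 1 *ᵥ c = rm (km k) b' := by
    ext1 i; exact hb' i
  have h5 : rm (km k) (C.d 2 *ᵥ b') = rm (km k) z := by
    rw [← rm_mulVec, ← h4, Matrix.mulVec_sub, hb, Matrix.mulVec_mulVec, C.d_mul_d]
    simp
  ext1 i
  have h6 := congrFun h5 i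
  rw [rm_apply, rm_apply] at h6
  rw [← sub_eq_zero]
  apply km_inj hk
  rw [sub_mul, h6, sub_self]

theorem not_isOfFinOrder_sq {g : G} (hg : ¬ IsOfFinOrder g) : ¬ IsOfFinOrder (g * g) := by
  rw [← pow_two]
  intro h
  exact hg ((isOfFinOrder_pow).1 h |>.resolve_right two_ne_zero)

/-- groups with `H^3(G; ℤ[G]) ≅ ℤ` -/
theorem pd_three (C : FinRes G)
    (h0 : ¬ Nontrivial (C.homology 0)) (h1 : ¬ Nontrivial (C.homology 1))
    (h2 : ¬ Nontrivial (C.homology 2)) {g : G} (hg : ¬ IsOfFinOrder g)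
    (e : C.cohomology G 3 ≃+ ℤ) : False := by
  -- notation
  set K3 := (C.cobd G 3).ker with hK3
  set B3 : AddSubgroup (Fin (C.rank 3) → MonoidAlgebra ℤ G) := (C.cobd G 2).range with hB3
  have hB3' : C.coboundaries G 3 = B3 := rfl
  let cl : K3 →+ ℤ := e.toAddMonoidHom.comp (QuotientAddGroup.mk' _)
  have hcl : ∀ y : K3, cl y = 0 ↔ (y : Fin (C.rank 3) → MonoidAlgebra ℤ G) ∈ B3 := by
    intro y
    show e (QuotientAddGroup.mk y) = 0 ↔ _
    rw [map_eq_zero_iff e e.injective, QuotientAddGroup.eq_zero_iff]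
    rfl
  have hB3rm : ∀ (a : MonoidAlgebra ℤ G) (y), y ∈ B3 → rm a y ∈ B3 := by
    rintro a _ ⟨x, rfl⟩
    exact ⟨rm a x, by rw [cobd_self, cobd_self, rm_mulVec]⟩
  have hK3rm : ∀ (a : MonoidAlgebra ℤ G) (y), y ∈ K3 → rm a y ∈ K3 := by
    intro a y hy
    rw [hK3, AddMonoidHom.mem_ker, cobd_self] at hy ⊢
    rw [rm_mulVec, hy, map_zero]
  -- a generator
  obtain ⟨z, hz⟩ : ∃ z : K3, cl z = 1 := by
    obtain ⟨z, hz⟩ := QuotientAddGroup.mk_surjective (e.symm 1)
    exact ⟨z, by show e (QuotientAddGroup.mk z) = 1; rw [hz, e.apply_symm_apply]⟩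
  let R : MonoidAlgebra ℤ G → K3 → K3 := fun a y => ⟨rm a y, hK3rm a y y.2⟩
  -- comparison
  have hcomp : ∀ (a : MonoidAlgebra ℤ G) (y : K3), cl (R a y) = cl y * cl (R a z) := by
    intro a y
    have h3 : (y - cl y • z : K3).1 ∈ B3 := by
      rw [← hcl, map_sub, map_zsmul, hz]; simp
    have h4 := hB3rm a _ h3
    have h5 : rm a (y - cl y • z : K3).1 = (R a y - cl y • R a z : K3).1 := by
      show rm a (y.1 - cl y • z.1) = rm a y.1 - cl y • rm a z.1
      rw [map_sub, map_zsmul]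
    rw [h5, ← hcl, map_sub, map_zsmul, sub_eq_zero] at h4
    rw [h4, smul_eq_mul]
  set n := cl (R (MonoidAlgebra.single g 1) z) with hn
  set m := cl (R (MonoidAlgebra.single g⁻¹ 1) z) with hm
  have hmn : m * n = 1 := by
    have h3 := hcomp (MonoidAlgebra.single g 1) (R (MonoidAlgebra.single g⁻¹ 1) z)
    have h4 : R (MonoidAlgebra.single g 1) (R (MonoidAlgebra.single g⁻¹ 1) z) = z := by
      apply Subtype.ext
      show rm _ (rm _ z.1) = z.1
      rw [rm_rm, MonoidAlgebra.single_mul_single, inv_mul_cancel, mul_one]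
      ext1 i
      rw [rm_apply, ← MonoidAlgebra.one_def, mul_one]
    rw [h4, hz] at h3
    exact h3.symm
  have hn2 : n * n = 1 := by
    rcases Int.eq_one_or_neg_one_of_mul_eq_one' hmn with h | h <;> rw [h.2] <;> norm_num
  have hsq : cl (R (MonoidAlgebra.single (g * g) 1) z) = 1 := by
    have h3 := hcomp (MonoidAlgebra.single g 1) (R (MonoidAlgebra.single g 1) z)
    have h4 : R (MonoidAlgebra.single g 1) (R (MonoidAlgebra.single g 1) z)
        = R (MonoidAlgebra.single (g * g) 1) z := by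
      apply Subtype.ext
      show rm _ (rm _ z.1) = rm _ z.1
      rw [rm_rm, MonoidAlgebra.single_mul_single, mul_one]
    rw [← h4, h3, ← hn, hn2]
  have hB : rm (km (g * g)) z.1 ∈ B3 := by
    have h3 : (R (MonoidAlgebra.single (g * g) 1) z - z : K3).1 ∈ B3 := by
      rw [← hcl, map_sub, hsq, hz, sub_self]
    have h4 : (R (MonoidAlgebra.single (g * g) 1) z - z : K3).1 = rm (km (g * g)) z.1 := by
      ext1 i
      show z.1 i * _ - z.1 i = z.1 i * _
      rw [km, mul_sub, mul_one]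
    rwa [h4] at h3
  obtain ⟨b, hb⟩ := hB
  rw [cobd_self] at hb
  obtain ⟨b', hb'⟩ := fixed_trivial C h0 h1 h2 (not_isOfFinOrder_sq hg) z.1 b hb
  have h6 : cl z = 0 := by
    rw [hcl]
    exact ⟨b', by rw [cobd_self, hb']⟩
  rw [hz] at h6
  exact one_ne_zero h6

/-- The final statement. -/
theorem final (C : FinRes G)
    (h : (∀ i, 2 < i → C.rank i = 0) ∨
      (∃ Λ : Subgroup G, FoelnerAmenable Λ ∧ ∃ j ≤ 2, Nontrivial (C.cohomology (G ⧸ Λ) j)) ∨
      ((∃ g : G, ¬ IsOfFinOrder g) ∧ Nonempty (C.cohomology G 3 ≃+ ℤ))) :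
    ∃ i ≤ 2, Nontrivial (C.homology i) := by
  by_contra hcon
  simp only [not_exists, not_and] at hcon
  have h0 := hcon 0 (by norm_num)
  have h1 := hcon 1 (by norm_num)
  have h2 := hcon 2 le_rfl
  rcases h with h | ⟨Λ, hΛ, j, hj, hnt⟩ | ⟨⟨g, hg⟩, ⟨e⟩⟩
  · exact dim_two C (h 3 (by norm_num)) h0 h1 h2
  · obtain ⟨x, hx, hx'⟩ := exists_of_nontrivial_add _ _ hnt
    exact hx' (cohomology_trivial Λ hΛ C h0 h1 h2 j hj hx)
  · exact pd_three C h0 h1 h2 hg e

end

end Z9f173d
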