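import Mathlib

/-!
# Zero in the spectrum: definitions

* `L2 G` : the Hilbert space `ℓ²(G)`, `Ops G` : the bounded operators on it;
* `scLam c g` : the operator `c • λ(g)`, `(c • λ(g) ξ)(x) = c ξ(g⁻¹ x)`;
* `redAlg G`, `CRed G` : the reduced `C*`-algebra, the norm closure of `ℂ[G]` in `B(ℓ²(G))`;
* `toCRed G` : the ring homomorphism `ℤ[G] → C_r^*(G)`;
* `FinRes G` : a resolution of `ℤ` by finitely generated free `ℤ[G]`-modules (for instance the
  cellular chain complex of the universal cover of a finite aspherical complex with fundamental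
  group `G`; then `rank i` is the number of `i`-cells, which is `0` for large `i`);
* `FinRes.homology C i` : the `i`-th homology of `C_r^*(G) ⊗_{ℤ[G]} C_*`;
* `FinRes.cohomology C X j` : the group cohomology `H^j(G; ℤ[X])` of the permutation module `ℤ[X]`,
  computed from the resolution;
* `FoelnerAmenable H` : the Følner condition.
-/

namespace Z9f173d

noncomputable section

open scoped Matrix

/-- The Hilbert space `ℓ²(G)`. -/
abbrev L2 (G : Type*) : Type _ := lp (fun _ : G => ℂ) 2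

/-- The bounded operators on `ℓ²(G)`. -/
def Ops (G : Type*) : Type _ := L2 G →L[ℂ] L2 G

/-- The ring of bounded operators, multiplication being composition. -/
instance instRingOps (G : Type*) : Ring (Ops G) :=
  (ContinuousLinearMap.ring : Ring (L2 G →L[ℂ] L2 G))

/-- The operator norm topology. -/
instance instTopOps (G : Type*) : TopologicalSpace (Ops G) :=
  (ContinuousLinearMap.topologicalSpace : TopologicalSpace (L2 G →L[ℂ] L2 G))

instance instTopRingOps (G : Type*) : IsTopologicalRing (Ops G) :=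
  (inferInstance : IsTopologicalRing (L2 G →L[ℂ] L2 G))

section
variable {G : Type*} [Group G]

theorem memlp_translate (g : G) (ξ : L2 G) :
    Memℓp (E := fun _ : G => ℂ) (fun x => ξ (g⁻¹ * x)) 2 := by
  have h := ξ.2.summable (by norm_num)
  refine memℓp_gen ?_
  exact (Equiv.mulLeft g⁻¹).summable_iff.mpr h

/-- left translation of a square summable function: `(lamFun g ξ) x = ξ (g⁻¹ x)` -/
def lamFun (g : G) (ξ : L2 G) : L2 G := ⟨fun x => ξ (g⁻¹ * x), memlp_translate g ξ⟩

theorem lamFun_apply (g : G) (ξ : L2 G) (x : G) : lamFun g ξ x = ξ (g⁻¹ * x) := rfl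

theorem norm_lamFun (g : G) (ξ : L2 G) : ‖lamFun g ξ‖ = ‖ξ‖ := by
  have h2 : (0 : ℝ) < (2 : ENNReal).toReal := by norm_num
  rw [lp.norm_eq_tsum_rpow h2, lp.norm_eq_tsum_rpow h2]
  congr 1
  exact (Equiv.mulLeft g⁻¹).tsum_eq (fun x => ‖ξ x‖ ^ (2 : ENNReal).toReal)

/-- left translation by `g` followed by multiplication by the complex number `c` -/
def scFun (c : ℂ) (g : G) (ξ : L2 G) : L2 G := c • lamFun g ξ

theorem scFun_add (c : ℂ) (g : G) (ξ η : L2 G) :
    scFun c g (ξ + η) = scFun c g ξ + scFun c g η :=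
  smul_add c (lamFun g ξ) (lamFun g η)

theorem scFun_smul (c : ℂ) (g : G) (a : ℂ) (ξ : L2 G) :
    scFun c g (a • ξ) = a • scFun c g ξ :=
  smul_comm c a (lamFun g ξ)

theorem norm_scFun (c : ℂ) (g : G) (ξ : L2 G) : ‖scFun c g ξ‖ ≤ ‖c‖ * ‖ξ‖ := by
  unfold scFun
  rw [norm_smul, norm_lamFun]

/-- The operator `c • λ(g)` on `ℓ²(G)`, for a complex number `c`; here `λ` is the left regular
representation. -/
def scLam (c : ℂ) (g : G) : Ops G :=
  LinearMap.mkContinuous
    { toFun := scFun c g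
      map_add' := scFun_add c g
      map_smul' := scFun_smul c g } ‖c‖ (norm_scFun c g)

theorem scLam_one_one : scLam 1 (1 : G) = 1 := by
  refine ContinuousLinearMap.ext fun ξ => ?_
  ext x
  show (1 : ℂ) • (ξ ((1 : G)⁻¹ * x)) = ξ x
  rw [inv_one, one_mul, one_smul]

theorem scLam_mul (g h : G) : scLam 1 (g * h) = scLam 1 g * scLam 1 h := by
  refine ContinuousLinearMap.ext fun ξ => ?_
  ext x
  show (1 : ℂ) • (ξ ((g * h)⁻¹ * x)) = (1 : ℂ) • ((1 : ℂ) • (ξ (h⁻¹ * (g⁻¹ * x))))
  rw [one_smul, one_smul, one_smul, mul_inv_rev, mul_assoc]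

end

/-- The reduced `C*`-algebra `C_r^*(G)`: the closure, in the operator norm topology, of the ring of
operators generated by the `c • λ(g)`, that is of `ℂ[G]` acting on `ℓ²(G)` by left translations. -/
def redAlg (G : Type*) [Group G] : Subring (Ops G) :=
  (Subring.closure {T : Ops G | ∃ (c : ℂ) (g : G), T = scLam c g}).topologicalClosure

/-- The reduced `C*`-algebra `C_r^*(G)`, as a type. -/
def CRed (G : Type*) [Group G] : Type _ := redAlg G

instance instRingCRed (G : Type*) [Group G] : Ring (CRed G) := (redAlg G).toRing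

theorem scLam_mem {G : Type*} [Group G] (c : ℂ) (g : G) : scLam c g ∈ redAlg G :=
  Subring.le_topologicalClosure _ (Subring.subset_closure ⟨c, g, rfl⟩)

/-- The group homomorphism `λ : G → C_r^*(G)`. -/
def lamC (G : Type*) [Group G] : G →* CRed G where
  toFun g := ⟨scLam 1 g, scLam_mem 1 g⟩
  map_one' := Subtype.ext scLam_one_one
  map_mul' g h := Subtype.ext (scLam_mul g h)

/-- The ring homomorphism `ℤ[G] → C_r^*(G)` extending `λ`. -/
def toCRed (G : Type*) [Group G] : MonoidAlgebra ℤ G →+* CRed G :=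
  (MonoidAlgebra.lift ℤ (CRed G) G (lamC G)).toRingHom

/-- The augmentation `ℤ[G] → ℤ`. -/
def eps (G : Type*) [Group G] : MonoidAlgebra ℤ G →+* ℤ :=
  (MonoidAlgebra.lift ℤ ℤ G (1 : G →* ℤ)).toRingHom

/-- A resolution `⋯ → C_2 → C_1 → C_0 → ℤ → 0` of the trivial module `ℤ` by finitely generated
free left `ℤ[G]`-modules `C_i = ℤ[G]^{rank i}` (row vectors; the boundary maps are right
multiplication by matrices; the augmentation sends the `j`-th basis vector of `C_0` to `aug j`). -/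
structure FinRes (G : Type*) [Group G] where
  /-- the rank of `C_i` -/
  rank : ℕ → ℕ
  /-- the boundary maps `C_{i+1} → C_i` -/
  d : ∀ i, Matrix (Fin (rank (i + 1))) (Fin (rank i)) (MonoidAlgebra ℤ G)
  /-- the augmentation `C_0 → ℤ` on basis vectors -/
  aug : Fin (rank 0) → ℤ
  /-- the augmentation is onto -/
  aug_surj : ∃ v : Fin (rank 0) → MonoidAlgebra ℤ G, ∑ j, eps G (v j) * aug j = 1
  /-- exactness at `C_0` -/
  exact_zero : ∀ v : Fin (rank 0) → MonoidAlgebra ℤ G,
    ∑ j, eps G (v j) * aug j = 0 ↔ ∃ w, w ᵥ* d 0 = v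
  /-- exactness at `C_{i+1}` -/
  exact_succ : ∀ (i : ℕ) (v : Fin (rank (i + 1)) → MonoidAlgebra ℤ G),
    v ᵥ* d i = 0 ↔ ∃ w, w ᵥ* d (i + 1) = v

variable {G : Type*} [Group G]

namespace FinRes

variable (C : FinRes G)

section
variable (A : Type*) [Ring A] (θ : MonoidAlgebra ℤ G →+* A)

/-- The boundary map `A^{rank (i+1)} → A^{rank i}` of the complex `A ⊗_{ℤ[G]} C_*` of left
`A`-modules, for a ring homomorphism `θ : ℤ[G] → A`. -/
def bd (i : ℕ) : (Fin (C.rank (i + 1)) → A) →ₗ[A] (Fin (C.rank i) → A) :=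
  ((C.d i).map θ).vecMulLinear

/-- The cycles of `A ⊗_{ℤ[G]} C_*` in degree `i`. -/
def cycles : (i : ℕ) → Submodule A (Fin (C.rank i) → A)
  | 0 => ⊤
  | (i + 1) => LinearMap.ker (C.bd A θ i)

/-- `H_i(A ⊗_{ℤ[G]} C_*)` : kernel modulo image. -/
abbrev homologyWith (i : ℕ) : Type _ :=
  C.cycles A θ i ⧸ (LinearMap.range (C.bd A θ i)).submoduleOf (C.cycles A θ i)

end

/-- `H_i(C_r^*(G) ⊗_{ℤ[G]} C_*)` : the `L²`-homology with coefficients in `C_r^*(G)`. -/
abbrev homology (i : ℕ) : Type _ := C.homologyWith (CRed G) (toCRed G) i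

/-- The coboundary map `Hom_G(C_i, ℤ[X]) → Hom_G(C_{i+1}, ℤ[X])` for a `G`-set `X`, in terms of the
bases: `Hom_G(C_i, ℤ[X]) = ℤ[X]^{rank i}`. -/
def cobd (X : Type*) [MulAction G X] (i : ℕ) :
    (Fin (C.rank i) → MonoidAlgebra ℤ X) →+ (Fin (C.rank (i + 1)) → MonoidAlgebra ℤ X) where
  toFun f := fun a => ∑ b, (Representation.ofMulAction ℤ G X).asAlgebraHom (C.d i a b) (f b)
  map_zero' := by ext; simp
  map_add' f g := by ext; simp [Finset.sum_add_distrib]

/-- The coboundaries in `Hom_G(C_i, ℤ[X])`. -/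
def coboundaries (X : Type*) [MulAction G X] :
    (i : ℕ) → AddSubgroup (Fin (C.rank i) → MonoidAlgebra ℤ X)
  | 0 => ⊥
  | (i + 1) => (C.cobd X i).range

/-- The cohomology group `H^i(G; ℤ[X]) = H^i(Hom_G(C_*, ℤ[X]))` for a `G`-set `X`. -/
abbrev cohomology (X : Type*) [MulAction G X] (i : ℕ) : Type _ :=
  (C.cobd X i).ker ⧸ (C.coboundaries X i).addSubgroupOf (C.cobd X i).ker

end FinRes

/-- Følner's condition: a (discrete) group `H` is amenable. -/
def FoelnerAmenable (H : Type*) [Group H] : Prop :=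
  ∀ (S : Finset H) (ε : ℝ), 0 < ε → ∃ K : Finset H, K.Nonempty ∧
    ∀ s ∈ S, (Nat.card {k : H // k ∈ K ∧ s * k ∉ K} : ℝ) ≤ ε * (Nat.card K : ℝ)

end

end Z9f173d
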