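import Pool.Agent.Lib.Z9f173d.Alg

/-!
# Acyclicity gives contracting matrices
-/

namespace Z9f173d

noncomputable section

open scoped Matrix

namespace FinRes

variable {G : Type*} [Group G] (C : FinRes G) (A : Type*) [Ring A] (θ : MonoidAlgebra ℤ G →+* A)

/-- the boundary matrices over `A` -/
def dA (i : ℕ) : Matrix (Fin (C.rank (i + 1))) (Fin (C.rank i)) A := (C.d i).map θ

theorem bd_apply (i : ℕ) (v : Fin (C.rank (i + 1)) → A) : C.bd A θ i v = v ᵥ* C.dA A θ i := rfl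

theorem not_nontrivial_iff {A : Type*} [Ring A] {M : Type*} [AddCommGroup M] [Module A M]
    (K L : Submodule A M) :
    ¬ Nontrivial (K ⧸ L.submoduleOf K) ↔ K ≤ L := by
  rw [not_nontrivial_iff_subsingleton, Submodule.Quotient.subsingleton_iff]
  constructor
  · intro h x hx
    have : (⟨x, hx⟩ : K) ∈ L.submoduleOf K := by rw [h]; trivial
    exact this
  · intro h
    rw [eq_top_iff]
    rintro ⟨x, hx⟩ _
    exact h hx

theorem exact_zero_of (h : ¬ Nontrivial (C.homologyWith A θ 0)) (v : Fin (C.rank 0) → A) :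
    ∃ w, w ᵥ* C.dA A θ 0 = v := by
  rw [not_nontrivial_iff] at h
  exact h (x := v) trivial

theorem exact_succ_of (i : ℕ) (h : ¬ Nontrivial (C.homologyWith A θ (i + 1)))
    (v : Fin (C.rank (i + 1)) → A) (hv : v ᵥ* C.dA A θ i = 0) :
    ∃ w, w ᵥ* C.dA A θ (i + 1) = v := by
  rw [not_nontrivial_iff] at h
  exact h (x := v) hv

theorem exists_right (m : ℕ) (i : ℕ) (X : Matrix (Fin m) (Fin (C.rank i)) A)
    (h : ∀ a, ∃ w, w ᵥ* C.dA A θ i = X a) :
    ∃ S : Matrix (Fin m) (Fin (C.rank (i + 1))) A, S * C.dA A θ i = X := by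
  choose S hS using h
  refine ⟨fun a => S a, ?_⟩
  ext a b
  have := congrFun (hS a) b
  rw [← this]
  rfl

theorem dA_mul_dA (i : ℕ) : C.dA A θ (i + 1) * C.dA A θ i = 0 := by
  rw [dA, dA, ← Matrix.map_mul, C.d_mul_d]
  ext a b
  simp

/-- contracting matrices in degrees `0, 1, 2`. -/
theorem exists_contraction (h0 : ¬ Nontrivial (C.homologyWith A θ 0))
    (h1 : ¬ Nontrivial (C.homologyWith A θ 1)) (h2 : ¬ Nontrivial (C.homologyWith A θ 2)) :
    ∃ (S0 : Matrix (Fin (C.rank 0)) (Fin (C.rank 1)) A)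
      (S1 : Matrix (Fin (C.rank 1)) (Fin (C.rank 2)) A)
      (S2 : Matrix (Fin (C.rank 2)) (Fin (C.rank 3)) A),
      S0 * C.dA A θ 0 = 1 ∧ C.dA A θ 0 * S0 + S1 * C.dA A θ 1 = 1 ∧
      C.dA A θ 1 * S1 + S2 * C.dA A θ 2 = 1 := by
  obtain ⟨S0, hS0⟩ := C.exists_right A θ (C.rank 0) 0 1 (fun a => C.exact_zero_of A θ h0 _)
  obtain ⟨S1, hS1⟩ := C.exists_right A θ _ 1 (1 - C.dA A θ 0 * S0) (fun a => by
    refine C.exact_succ_of A θ 0 h1 _ ?_
    have : (1 - C.dA A θ 0 * S0) * C.dA A θ 0 = 0 := by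
      rw [Matrix.sub_mul, Matrix.one_mul, Matrix.mul_assoc, hS0, Matrix.mul_one, sub_self]
    exact congrFun this a)
  obtain ⟨S2, hS2⟩ := C.exists_right A θ _ 2 (1 - C.dA A θ 1 * S1) (fun a => by
    refine C.exact_succ_of A θ 1 h2 _ ?_
    have : (1 - C.dA A θ 1 * S1) * C.dA A θ 1 = 0 := by
      rw [Matrix.sub_mul, Matrix.one_mul, Matrix.mul_assoc, hS1, Matrix.mul_sub, Matrix.mul_one,
        ← Matrix.mul_assoc, C.dA_mul_dA, Matrix.zero_mul, sub_zero, sub_self]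
    exact congrFun this a)
  exact ⟨S0, S1, S2, hS0, by rw [hS1]; abel, by rw [hS2]; abel⟩

end FinRes

end

end Z9f173d
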