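import Pool.Agent.Lib.Z9f173d.Core2

/-!
# Conclusions for the cohomology groups
-/

namespace Z9f173d

noncomputable section

open scoped Matrix

variable {G : Type*} [Group G]

section
variable (Λ : Subgroup G)

/-- coefficient function of an element of `ℤ[G/Λ]` as a function on `G` -/
def P : MonoidAlgebra ℤ (G ⧸ Λ) →+ (G → ℤ) where
  toFun f := fun x => f.coeff (x : G ⧸ Λ)
  map_zero' := by ext; simp
  map_add' f g := by ext; simp

theorem P_apply (f : MonoidAlgebra ℤ (G ⧸ Λ)) (x : G) : P Λ f x = f.coeff (x : G ⧸ Λ) := rfl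

theorem P_injective : Function.Injective (P Λ) := by
  intro f g h
  ext c
  have := congrFun h (Quotient.out c)
  rwa [P_apply, P_apply, QuotientGroup.out_eq'] at this

theorem P_act (a : MonoidAlgebra ℤ G) (f : MonoidAlgebra ℤ (G ⧸ Λ)) :
    P Λ ((Representation.ofMulAction ℤ G (G ⧸ Λ)).asAlgebraHom a f) = tr ℤ a (P Λ f) := by
  induction a using MonoidAlgebra.induction_linear with
  | zero => simp
  | add a b ha hb =>
    rw [map_add, LinearMap.add_apply, map_add, ha, hb, map_add, end_add_apply]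
  | single g z =>
    ext x
    rw [Representation.asAlgebraHom_single, tr_single, LinearMap.smul_apply, map_zsmul,
      Pi.smul_apply, P_apply, Representation.coeff_ofMulAction]
    rfl

theorem P_IL (f : MonoidAlgebra ℤ (G ⧸ Λ)) : IL Λ (P Λ f) := by
  refine ⟨fun x k => ?_, ?_⟩
  · have h1 : ((x * (k : G) : G) : G ⧸ Λ) = (x : G ⧸ Λ) := by
      rw [QuotientGroup.eq]; simp
    rw [P_apply, P_apply, h1]
  · refine f.coeff.support.finite_toSet.subset fun c hc => ?_
    simp only [Set.mem_setOf_eq, P_apply, QuotientGroup.out_eq'] at hc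
    simpa using hc

theorem IL_P {n : G → ℤ} (hn : IL Λ n) : ∃ f, P Λ f = n := by
  refine ⟨.ofCoeff (Finsupp.ofSupportFinite (fun c : G ⧸ Λ => n (Quotient.out c)) ?_), ?_⟩
  · exact hn.2
  · ext x
    rw [P_apply]
    show n (Quotient.out (x : G ⧸ Λ)) = n x
    have h3 := hn.1 (Quotient.out (x : G ⧸ Λ)) (tau Λ x)
    rw [out_mul_tau] at h3
    rw [h3]

theorem P_cobd (C : FinRes G) (i : ℕ) (f : Fin (C.rank i) → MonoidAlgebra ℤ (G ⧸ Λ)) :
    (fun a => P Λ (C.cobd (G ⧸ Λ) i f a)) = mact (tr ℤ) (C.d i) (fun b => P Λ (f b)) := by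
  ext1 a
  show P Λ (∑ b, _) = _
  rw [map_sum, mact_apply]
  refine Finset.sum_congr rfl fun b _ => ?_
  rw [P_act]

end

theorem not_nontrivial_add {A : Type*} [AddCommGroup A] (K L : AddSubgroup A) (h : K ≤ L) :
    ¬ Nontrivial (K ⧸ L.addSubgroupOf K) := by
  rw [not_nontrivial_iff_subsingleton, AddSubgroup.addSubgroupOf_eq_top.2 h]
  exact QuotientAddGroup.subsingleton_quotient_top

theorem exists_of_nontrivial_add {A : Type*} [AddCommGroup A] (K L : AddSubgroup A)
    (h : Nontrivial (K ⧸ L.addSubgroupOf K)) : ∃ x ∈ K, x ∉ L := by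
  by_contra hcon
  simp only [not_exists, not_and, not_not] at hcon
  exact not_nontrivial_add K L hcon h

/-- **Main theorem** : if the `L²`-homology vanishes in degrees `0,1,2` then `H^j(G; ℤ[G/Λ]) = 0`
for `j ≤ 2` and every amenable subgroup `Λ`. -/
theorem cohomology_trivial (Λ : Subgroup G) (hΛ : FoelnerAmenable Λ) (C : FinRes G)
    (h0 : ¬ Nontrivial (C.homology 0)) (h1 : ¬ Nontrivial (C.homology 1))
    (h2 : ¬ Nontrivial (C.homology 2)) (j : ℕ) (hj : j ≤ 2) :
    (C.cobd (G ⧸ Λ) j).ker ≤ C.coboundaries (G ⧸ Λ) j := by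
  intro f hf
  rw [AddMonoidHom.mem_ker] at hf
  have hf' : mact (tr ℤ) (C.d j) (fun b => P Λ (f b)) = 0 := by
    rw [← P_cobd, hf]
    ext1 a
    simp
  interval_cases j
  · have := deg0 Λ hΛ C h0 h1 h2 (fun b => P Λ (f b)) (fun b => P_IL Λ _) hf'
    show f ∈ (⊥ : AddSubgroup _)
    rw [AddSubgroup.mem_bot]
    ext1 b
    apply P_injective
    have h3 := congrFun this b
    rw [h3]
    simp
  · obtain ⟨c, hc, hcf⟩ := deg1 Λ hΛ C h0 h1 h2 (fun b => P Λ (f b)) (fun b => P_IL Λ _) hf'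
    choose c' hc' using fun b => IL_P Λ (hc b)
    refine ⟨c', ?_⟩
    ext1 a
    apply P_injective
    have h3 := congrFun (P_cobd Λ C 0 c') a
    simp only [hc'] at h3
    rw [h3]
    exact congrFun hcf a
  · obtain ⟨c, hc, hcf⟩ := deg2 Λ hΛ C h0 h1 h2 (fun b => P Λ (f b)) (fun b => P_IL Λ _) hf'
    choose c' hc' using fun b => IL_P Λ (hc b)
    refine ⟨c', ?_⟩
    ext1 a
    apply P_injective
    have h3 := congrFun (P_cobd Λ C 1 c') a
    simp only [hc'] at h3
    rw [h3]
    exact congrFun hcf a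

/-! ### Trivial subgroup -/

theorem foelner_bot : FoelnerAmenable (⊥ : Subgroup G) := by
  intro S ε hε
  refine ⟨{1}, Finset.singleton_nonempty _, fun s _ => ?_⟩
  have : IsEmpty {k : (⊥ : Subgroup G) // k ∈ ({1} : Finset (⊥ : Subgroup G)) ∧
      s * k ∉ ({1} : Finset (⊥ : Subgroup G))} := by
    constructor
    rintro ⟨k, hk, hk'⟩
    apply hk'
    rw [Finset.mem_singleton]
    exact Subsingleton.elim _ _
  rw [Nat.card_of_isEmpty]
  simp only [Nat.cast_zero]
  positivity

/-- coefficient function -/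
def P0 : MonoidAlgebra ℤ G →+ (G → ℤ) where
  toFun f := fun x => f.coeff x
  map_zero' := by ext; simp
  map_add' f g := by ext; simp

theorem P0_injective : Function.Injective (P0 (G := G)) := by
  intro f g h
  ext c
  exact congrFun h c

theorem P0_mul (a f : MonoidAlgebra ℤ G) : P0 (a * f) = tr ℤ a (P0 f) := by
  induction a using MonoidAlgebra.induction_linear with
  | zero => simp
  | add a b ha hb =>
    rw [add_mul, map_add, ha, hb, map_add, end_add_apply]
  | single g z =>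
    ext x
    rw [tr_single]
    show (MonoidAlgebra.single g z * f).coeff x = _
    rw [MonoidAlgebra.coeff_single_mul_apply]
    rfl

theorem P0_IL (f : MonoidAlgebra ℤ G) : IL (⊥ : Subgroup G) (P0 f) := by
  refine ⟨fun x k => ?_, ?_⟩
  · have : (k : G) = 1 := (Subgroup.mem_bot).1 k.2
    rw [this, mul_one]
  · have hinj : Function.Injective (fun c : G ⧸ (⊥ : Subgroup G) => (Quotient.out c : G)) :=
      Quotient.out_injective
    exact (f.coeff.support.finite_toSet.preimage hinj.injOn).subset (fun c hc => by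
      have hc' : f.coeff (Quotient.out c) ≠ 0 := hc
      simpa using hc')

theorem IL_P0 {n : G → ℤ} (hn : IL (⊥ : Subgroup G) n) : ∃ f, P0 f = n := by
  refine ⟨.ofCoeff (Finsupp.ofSupportFinite n ?_), ?_⟩
  · refine (hn.2.image (fun c : G ⧸ (⊥ : Subgroup G) => (Quotient.out c : G))).subset ?_
    intro x hx
    have h1 : Quotient.out (x : G ⧸ (⊥ : Subgroup G)) = x := by
      have := out_mul_tau (⊥ : Subgroup G) x
      have h2 : ((tau (⊥ : Subgroup G) x : (⊥ : Subgroup G)) : G) = 1 :=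
        (Subgroup.mem_bot).1 (tau (⊥ : Subgroup G) x).2
      rwa [h2, mul_one] at this
    refine ⟨(x : G ⧸ (⊥ : Subgroup G)), ?_, h1⟩
    simp only [Set.mem_setOf_eq, h1]
    exact hx
  · ext x; rfl

theorem P0_mulVec (C : FinRes G) (i : ℕ) (f : Fin (C.rank i) → MonoidAlgebra ℤ G) :
    (fun a => P0 ((C.d i *ᵥ f) a)) = mact (tr ℤ) (C.d i) (fun b => P0 (f b)) := by
  ext1 a
  rw [mact_apply, Matrix.mulVec, dotProduct, map_sum]
  simp only [P0_mul]

/-- **Dimension at most two** : the `L²`-homology cannot vanish. -/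
theorem dim_two (C : FinRes G) (hC : C.rank 3 = 0)
    (h0 : ¬ Nontrivial (C.homology 0)) (h1 : ¬ Nontrivial (C.homology 1))
    (h2 : ¬ Nontrivial (C.homology 2)) : False := by
  -- exactness of the integral cochain complex
  have e2 : ∀ f : Fin (C.rank 2) → MonoidAlgebra ℤ G, ∃ c, C.d 1 *ᵥ c = f := by
    intro f
    obtain ⟨c, hc, hcf⟩ := deg2 ⊥ foelner_bot C h0 h1 h2 (fun b => P0 (f b)) (fun b => P0_IL _)
      (by
        ext1 a
        exact (Fin.elim0 (Fin.cast hC a)))
    choose c' hc' using fun b => IL_P0 (hc b)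
    refine ⟨c', ?_⟩
    ext1 a
    apply P0_injective
    have h3 := congrFun (P0_mulVec C 1 c') a
    simp only [hc'] at h3
    rw [h3]
    exact congrFun hcf a
  have e1 : ∀ f : Fin (C.rank 1) → MonoidAlgebra ℤ G, C.d 1 *ᵥ f = 0 →
      ∃ c, C.d 0 *ᵥ c = f := by
    intro f hf
    obtain ⟨c, hc, hcf⟩ := deg1 ⊥ foelner_bot C h0 h1 h2 (fun b => P0 (f b)) (fun b => P0_IL _)
      (by rw [← P0_mulVec, hf]; ext1 a; simp)
    choose c' hc' using fun b => IL_P0 (hc b)
    refine ⟨c', ?_⟩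
    ext1 a
    apply P0_injective
    have h3 := congrFun (P0_mulVec C 0 c') a
    simp only [hc'] at h3
    rw [h3]
    exact congrFun hcf a
  have e0 : ∀ f : Fin (C.rank 0) → MonoidAlgebra ℤ G, C.d 0 *ᵥ f = 0 → f = 0 := by
    intro f hf
    have := deg0 ⊥ foelner_bot C h0 h1 h2 (fun b => P0 (f b)) (fun b => P0_IL _)
      (by rw [← P0_mulVec, hf]; ext1 a; simp)
    ext1 b
    apply P0_injective
    have h3 := congrFun this b
    rw [h3]
    simp
  -- a contraction of the cochain complex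
  have m2 : ∃ T2 : Matrix (Fin (C.rank 1)) (Fin (C.rank 2)) (MonoidAlgebra ℤ G),
      C.d 1 * T2 = 1 := by
    choose t ht using fun b : Fin (C.rank 2) =>
      e2 (fun a => (1 : Matrix (Fin (C.rank 2)) (Fin (C.rank 2)) (MonoidAlgebra ℤ G)) a b)
    refine ⟨Matrix.of fun a b => t b a, ?_⟩
    ext1 a b
    exact congrFun (ht b) a
  obtain ⟨T2, hT2⟩ := m2
  have m1 : ∃ T1 : Matrix (Fin (C.rank 0)) (Fin (C.rank 1)) (MonoidAlgebra ℤ G),
      C.d 0 * T1 = 1 - T2 * C.d 1 := by
    choose t ht using fun b : Fin (C.rank 1) =>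
      e1 (fun a => (1 - T2 * C.d 1 : Matrix (Fin (C.rank 1)) (Fin (C.rank 1))
        (MonoidAlgebra ℤ G)) a b) (by
        have h3 : C.d 1 * (1 - T2 * C.d 1) = 0 := by
          rw [Matrix.mul_sub, Matrix.mul_one, ← Matrix.mul_assoc, hT2, Matrix.one_mul, sub_self]
        ext1 a
        exact congrFun (congrFun h3 a) b)
    refine ⟨Matrix.of fun a b => t b a, ?_⟩
    ext1 a b
    exact congrFun (ht b) a
  obtain ⟨T1, hT1⟩ := m1
  have m0 : T1 * C.d 0 = 1 := by
    have h3 : C.d 0 * (1 - T1 * C.d 0) = 0 := by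
      rw [Matrix.mul_sub, Matrix.mul_one, ← Matrix.mul_assoc, hT1, Matrix.sub_mul, Matrix.one_mul,
        Matrix.mul_assoc, C.d_mul_d, Matrix.mul_zero, sub_zero, sub_self]
    have h4 : 1 - T1 * C.d 0 = 0 := by
      ext1 a b
      have := e0 (fun a => (1 - T1 * C.d 0 : Matrix (Fin (C.rank 0)) (Fin (C.rank 0))
        (MonoidAlgebra ℤ G)) a b) (by
        ext1 a
        exact congrFun (congrFun h3 a) b)
      exact congrFun this a
    exact (sub_eq_zero.1 h4).symm
  obtain ⟨x, hx⟩ := C.exists_x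
  have h5 : C.augMap x = 0 := by
    rw [C.augMap_eq_zero_iff]
    refine ⟨x ᵥ* T1, ?_⟩
    rw [Matrix.vecMul_vecMul, m0, Matrix.vecMul_one]
  rw [hx] at h5
  exact one_ne_zero h5

end

end Z9f173d
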