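import Pool.Agent.Lib.Z9f173d.Defs

/-!
# Matrices over `ℤ[G]` acting on coefficient modules
-/

namespace Z9f173d

noncomputable section

open scoped Matrix

@[simp] theorem end_sum_apply {W ι : Type*} [AddCommGroup W] (s : Finset ι) (f : ι → AddMonoid.End W)
    (w : W) : (∑ i ∈ s, f i) w = ∑ i ∈ s, f i w :=
  AddMonoidHom.finsetSum_apply f s w

@[simp] theorem end_add_apply {W : Type*} [AddCommGroup W] (f g : AddMonoid.End W) (w : W) :
    (f + g) w = f w + g w := rfl

theorem end_mul_apply {W : Type*} [AddCommGroup W] (f g : AddMonoid.End W) (w : W) :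
    (f * g) w = f (g w) := rfl

@[simp] theorem end_sub_apply {W : Type*} [AddCommGroup W] (f g : AddMonoid.End W) (w : W) :
    (f - g) w = f w - g w := rfl

@[simp] theorem end_zero_apply {W : Type*} [AddCommGroup W] (w : W) :
    (0 : AddMonoid.End W) w = 0 := rfl

@[simp] theorem end_one_apply {W : Type*} [AddCommGroup W] (w : W) :
    (1 : AddMonoid.End W) w = w := rfl

@[simp] theorem end_zsmul_apply {W : Type*} [AddCommGroup W] (z : ℤ) (f : AddMonoid.End W)
    (w : W) : (z • f) w = z • f w := rfl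

section Mact
variable {R W W' : Type*} [Ring R] [AddCommGroup W] [AddCommGroup W'] {l m n : ℕ}

/-- The action of a matrix over `R` on column vectors with entries in `W`, where `R` acts on `W`
through `θ`. -/
def mact (θ : R →+* AddMonoid.End W) (M : Matrix (Fin m) (Fin n) R) :
    (Fin n → W) →+ (Fin m → W) where
  toFun f := fun i => ∑ j, θ (M i j) (f j)
  map_zero' := by ext i; simp
  map_add' f g := by ext i; simp [Finset.sum_add_distrib]

theorem mact_apply (θ : R →+* AddMonoid.End W) (M : Matrix (Fin m) (Fin n) R) (f : Fin n → W)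
    (i : Fin m) : mact θ M f i = ∑ j, θ (M i j) (f j) := rfl

theorem mact_mul (θ : R →+* AddMonoid.End W) (M : Matrix (Fin l) (Fin m) R)
    (N : Matrix (Fin m) (Fin n) R) (f : Fin n → W) :
    mact θ (M * N) f = mact θ M (mact θ N f) := by
  ext i
  simp only [mact_apply, Matrix.mul_apply, map_sum, map_mul]
  simp only [end_sum_apply, end_mul_apply]
  rw [Finset.sum_comm]

theorem mact_add (θ : R →+* AddMonoid.End W) (M N : Matrix (Fin m) (Fin n) R) (f : Fin n → W) :
    mact θ (M + N) f = mact θ M f + mact θ N f := by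
  ext i
  simp [mact_apply, Finset.sum_add_distrib]

theorem mact_sub (θ : R →+* AddMonoid.End W) (M N : Matrix (Fin m) (Fin n) R) (f : Fin n → W) :
    mact θ (M - N) f = mact θ M f - mact θ N f := by
  ext i
  simp [mact_apply, Finset.sum_sub_distrib]

theorem mact_zero (θ : R →+* AddMonoid.End W) (f : Fin n → W) :
    mact θ (0 : Matrix (Fin m) (Fin n) R) f = 0 := by
  ext i
  simp [mact_apply]

theorem mact_one (θ : R →+* AddMonoid.End W) (f : Fin n → W) :
    mact θ (1 : Matrix (Fin n) (Fin n) R) f = f := by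
  ext i
  rw [mact_apply, Finset.sum_eq_single i]
  · simp
  · intro b _ hb
    simp [Matrix.one_apply_ne (Ne.symm hb)]
  · simp

theorem mact_nat (θ : R →+* AddMonoid.End W) (θ' : R →+* AddMonoid.End W') (ψ : W →+ W')
    (h : ∀ r w, ψ (θ r w) = θ' r (ψ w)) (M : Matrix (Fin m) (Fin n) R) (f : Fin n → W) :
    mact θ' M (fun j => ψ (f j)) = fun i => ψ (mact θ M f i) := by
  ext i
  simp [mact_apply, h]

end Mact

section Th
variable {G : Type*} [Group G] {W W' : Type*} [AddCommGroup W] [AddCommGroup W']

/-- The ring homomorphism `ℤ[G] → End(W)` associated with an action. -/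
def th (ρ : G →* AddMonoid.End W) : MonoidAlgebra ℤ G →+* AddMonoid.End W :=
  (MonoidAlgebra.lift ℤ (AddMonoid.End W) G ρ).toRingHom

theorem th_single (ρ : G →* AddMonoid.End W) (g : G) (z : ℤ) (w : W) :
    th ρ (MonoidAlgebra.single g z) w = z • ρ g w := by
  simp [th]

theorem th_one_single (ρ : G →* AddMonoid.End W) (g : G) (w : W) :
    th ρ (MonoidAlgebra.single g 1) w = ρ g w := by
  simp [th]

theorem th_nat (ρ : G →* AddMonoid.End W) (ρ' : G →* AddMonoid.End W') (ψ : W →+ W')
    (h : ∀ g w, ψ (ρ g w) = ρ' g (ψ w)) (a : MonoidAlgebra ℤ G) (w : W) :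
    ψ (th ρ a w) = th ρ' a (ψ w) := by
  induction a using MonoidAlgebra.induction_linear with
  | zero => simp
  | add a b ha hb => simp [ha, hb]
  | single g z => simp only [th_single, map_zsmul, h]

/-- A ring homomorphism from `ℤ[G]` is determined by the action. -/
theorem th_unique (θ : MonoidAlgebra ℤ G →+* AddMonoid.End W) (ρ : G →* AddMonoid.End W)
    (h : ∀ g w, θ (MonoidAlgebra.single g 1) w = ρ g w) : θ = th ρ := by
  refine RingHom.ext fun a => ?_
  refine AddMonoidHom.ext fun w => ?_
  induction a using MonoidAlgebra.induction_linear with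
  | zero => simp
  | add a b ha hb =>
    rw [map_add, map_add]
    exact congrArg₂ (· + ·) ha hb
  | single g z =>
    have : (MonoidAlgebra.single g z : MonoidAlgebra ℤ G) = z • MonoidAlgebra.single g 1 := by
      ext x; simp
    rw [this, map_zsmul, map_zsmul]
    exact congrArg (z • ·) ((h g w).trans (th_one_single ρ g w).symm)

end Th

section Tr
variable {G : Type*} [Group G] (M : Type*) [AddCommGroup M]

/-- The left translation action on functions `G → M`. -/
def trHom : G →* AddMonoid.End (G → M) where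
  toFun g :=
    { toFun := fun f x => f (g⁻¹ * x)
      map_zero' := rfl
      map_add' := fun _ _ => rfl }
  map_one' := by
    ext f x
    show f (1⁻¹ * x) = f x
    simp
  map_mul' g h := by
    ext f x
    show f ((g * h)⁻¹ * x) = f (h⁻¹ * (g⁻¹ * x))
    simp [mul_assoc]

@[simp] theorem trHom_apply (g : G) (f : G → M) (x : G) : trHom M g f x = f (g⁻¹ * x) := rfl

/-- The action of `ℤ[G]` on functions `G → M`. -/
def tr : MonoidAlgebra ℤ G →+* AddMonoid.End (G → M) := th (trHom M)

variable {M} {M' : Type*} [AddCommGroup M']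

theorem tr_single (g : G) (z : ℤ) (f : G → M) (x : G) :
    tr M (MonoidAlgebra.single g z) f x = z • f (g⁻¹ * x) := by
  rw [tr, th_single]; rfl

/-- Composition with an additive map. -/
def compHom (ψ : M →+ M') : (G → M) →+ (G → M') where
  toFun f := fun x => ψ (f x)
  map_zero' := by ext; simp
  map_add' _ _ := by ext; simp

@[simp] theorem compHom_apply (ψ : M →+ M') (f : G → M) (x : G) : compHom ψ f x = ψ (f x) := rfl

theorem tr_nat (ψ : M →+ M') (a : MonoidAlgebra ℤ G) (f : G → M) :
    compHom ψ (tr M a f) = tr M' a (compHom ψ f) :=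
  th_nat _ _ _ (fun _ _ => rfl) a f

/-- constants -/
theorem tr_const (a : MonoidAlgebra ℤ G) (c : M) :
    tr M a (fun _ => c) = fun _ => eps G a • c := by
  induction a using MonoidAlgebra.induction_linear with
  | zero => ext; simp
  | add a b ha hb => ext; simp [ha, hb, add_smul]
  | single g z => ext x; rw [tr_single]; simp [eps]

end Tr

section Pairing
variable {G : Type*} [Group G] {M : Type*} [AddCommGroup M] {m n : ℕ}

/-- The additive functional on `ℤ[G]^n` given by an `n`-tuple of functions `G → M`. -/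
def pair (f : Fin n → G → M) : (Fin n → MonoidAlgebra ℤ G) →+ M where
  toFun v := ∑ j, tr M (v j) (f j) 1
  map_zero' := by simp
  map_add' v w := by simp [Finset.sum_add_distrib]

theorem pair_apply (f : Fin n → G → M) (v : Fin n → MonoidAlgebra ℤ G) :
    pair f v = ∑ j, tr M (v j) (f j) 1 := rfl

theorem pair_vecMul (f : Fin n → G → M) (D : Matrix (Fin m) (Fin n) (MonoidAlgebra ℤ G))
    (v : Fin m → MonoidAlgebra ℤ G) : pair f (v ᵥ* D) = pair (mact (tr M) D f) v := by
  simp only [pair_apply, Matrix.vecMul, dotProduct, mact_apply, map_sum, map_mul]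
  simp only [end_sum_apply, end_mul_apply, Finset.sum_apply]
  rw [Finset.sum_comm]

theorem tr_mul_apply (a b : MonoidAlgebra ℤ G) (f : G → M) :
    tr M (a * b) f = tr M a (tr M b f) := by
  rw [map_mul]; rfl

/-- the vector `h⁻¹ e_j` -/
def sv (j : Fin n) (a : MonoidAlgebra ℤ G) : Fin n → MonoidAlgebra ℤ G := Pi.single j a

theorem pair_sv (f : Fin n → G → M) (j : Fin n) (a : MonoidAlgebra ℤ G) :
    pair f (sv j a) = tr M a (f j) 1 := by
  rw [pair_apply, Finset.sum_eq_single j]
  · simp [sv]
  · intro b _ hb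
    simp [sv, hb]
  · simp

theorem pair_sv_single (f : Fin n → G → M) (j : Fin n) (h : G) :
    pair f (sv j (MonoidAlgebra.single h⁻¹ 1)) = f j h := by
  rw [pair_sv, tr_single]; simp

end Pairing

namespace FinRes

variable {G : Type*} [Group G] (C : FinRes G)

/-- the augmentation on `C_0` -/
def augMap : (Fin (C.rank 0) → MonoidAlgebra ℤ G) →+ ℤ where
  toFun v := ∑ j, eps G (v j) * C.aug j
  map_zero' := by simp
  map_add' v w := by simp [add_mul, Finset.sum_add_distrib]

theorem augMap_apply (v) : C.augMap v = ∑ j, eps G (v j) * C.aug j := rfl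

theorem augMap_eq_zero_iff (v) : C.augMap v = 0 ↔ ∃ w, w ᵥ* C.d 0 = v := C.exact_zero v

theorem augMap_smul (a : MonoidAlgebra ℤ G) (v : Fin (C.rank 0) → MonoidAlgebra ℤ G) :
    C.augMap (fun j => a * v j) = eps G a * C.augMap v := by
  simp [augMap_apply, Finset.mul_sum, mul_assoc]

theorem augMap_vecMul (w) : C.augMap (w ᵥ* C.d 0) = 0 := (C.exact_zero _).2 ⟨w, rfl⟩

theorem exists_x : ∃ x, C.augMap x = 1 := C.aug_surj

theorem augMap_sv (j : Fin (C.rank 0)) (a : MonoidAlgebra ℤ G) :
    C.augMap (sv j a) = eps G a * C.aug j := by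
  rw [augMap_apply, Finset.sum_eq_single j]
  · simp [sv]
  · intro b _ hb
    simp [sv, hb]
  · simp

theorem d_mul_d (i : ℕ) : C.d (i + 1) * C.d i = 0 := by
  ext1 a b
  have h : (C.d (i + 1)) a ᵥ* C.d i = 0 := by
    rw [C.exact_succ]
    refine ⟨Pi.single a 1, ?_⟩
    rw [Matrix.single_one_vecMul]
    rfl
  exact congrFun h b

theorem sum_row_zero (a : Fin (C.rank 1)) : ∑ j, eps G (C.d 0 a j) * C.aug j = 0 := by
  have h := C.augMap_vecMul (Pi.single a 1)
  rw [Matrix.single_one_vecMul] at h
  exact h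

/-- L0: functions killed by the first coboundary are constants. -/
theorem const_of_cocycle {M : Type*} [AddCommGroup M] (f : Fin (C.rank 0) → G → M)
    (hf : mact (tr M) (C.d 0) f = 0) : ∃ κ : M, ∀ j h, f j h = C.aug j • κ := by
  obtain ⟨x, hx⟩ := C.exists_x
  refine ⟨pair f x, fun j h => ?_⟩
  have h0 : C.augMap (sv j (MonoidAlgebra.single h⁻¹ 1) - C.aug j • x) = 0 := by
    rw [map_sub, map_zsmul, hx, augMap_sv]
    simp [eps]
  obtain ⟨w, hw⟩ := (C.augMap_eq_zero_iff _).1 h0
  have h1 : pair f (sv j (MonoidAlgebra.single h⁻¹ 1) - C.aug j • x) = 0 := by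
    rw [← hw, pair_vecMul, hf]
    simp [pair_apply]
  rw [map_sub, map_zsmul, pair_sv_single, sub_eq_zero] at h1
  exact h1

/-- L1: circle valued cocycles are coboundaries of circle valued functions. -/
theorem exists_primitive {M : Type*} [AddCommGroup M] [DivisibleBy M ℤ]
    (b : Fin (C.rank 1) → G → M) (hb : mact (tr M) (C.d 1) b = 0) :
    ∃ w : Fin (C.rank 0) → G → M, mact (tr M) (C.d 0) w = b := by
  classical
  -- the map `v ↦ v ᵥ* d 0` and its range
  let D0 : (Fin (C.rank 1) → MonoidAlgebra ℤ G) →+ (Fin (C.rank 0) → MonoidAlgebra ℤ G) :=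
    { toFun := fun v => v ᵥ* C.d 0
      map_zero' := Matrix.zero_vecMul _
      map_add' := fun v w => Matrix.add_vecMul _ _ _ }
  have hD0 : ∀ v, D0 v = v ᵥ* C.d 0 := fun v => rfl
  have hker : D0.ker ≤ (pair b).ker := by
    intro v hv
    rw [AddMonoidHom.mem_ker] at hv ⊢
    rw [hD0, C.exact_succ] at hv
    obtain ⟨w, rfl⟩ := hv
    rw [pair_vecMul, hb]
    simp [pair_apply]
  let φ : D0.range →+ M :=
    (QuotientAddGroup.lift D0.ker (pair b) hker).comp
      (QuotientAddGroup.quotientKerEquivRange D0).symm.toAddMonoidHom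
  have hφ : ∀ v, φ ⟨D0 v, v, rfl⟩ = pair b v := by
    intro v
    have : (QuotientAddGroup.quotientKerEquivRange D0).symm ⟨D0 v, v, rfl⟩
        = (QuotientAddGroup.mk v : _ ⧸ D0.ker) := by
      rw [AddEquiv.symm_apply_eq]
      rfl
    show QuotientAddGroup.lift D0.ker (pair b) hker _ = _
    erw [this]
    rfl
  obtain ⟨ψ, hψ⟩ := (Module.Baer.of_divisible M).extension_property_addMonoidHom
    D0.range.subtype D0.range.subtype_injective φ
  refine ⟨fun j h => ψ (sv j (MonoidAlgebra.single h⁻¹ 1)), ?_⟩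
  have hψ' : ∀ v, ψ (v ᵥ* C.d 0) = pair b v := by
    intro v
    rw [← hφ v, ← hψ]
    rfl
  have key : ∀ (j : Fin (C.rank 0)) (a : MonoidAlgebra ℤ G) (h : G),
      tr M a (fun h => ψ (sv j (MonoidAlgebra.single h⁻¹ 1))) h
        = ψ (sv j (MonoidAlgebra.single h⁻¹ 1 * a)) := by
    intro j a h
    have hadd : ∀ a b : MonoidAlgebra ℤ G, sv j (a + b) = sv j a + sv j b := by
      intro a b
      simp [sv, Pi.single_add]
    induction a using MonoidAlgebra.induction_linear with
    | zero => simp [sv]
    | add a b ha hb => rw [map_add, end_add_apply, Pi.add_apply, ha, hb, mul_add, hadd,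
        map_add]
    | single g z =>
      rw [tr_single, MonoidAlgebra.single_mul_single, one_mul]
      have : sv j (MonoidAlgebra.single (h⁻¹ * g) z : MonoidAlgebra ℤ G)
          = z • sv (n := C.rank 0) j (MonoidAlgebra.single ((g⁻¹ * h)⁻¹) 1 : MonoidAlgebra ℤ G) := by
        rw [mul_inv_rev, inv_inv]
        ext i x
        by_cases hij : i = j
        · subst hij; simp [sv]
        · simp [sv, hij]
      rw [this, map_zsmul]
  ext a h
  rw [mact_apply, Finset.sum_apply]
  simp only [key]
  rw [← map_sum]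
  have h2 : ∑ j, sv j (MonoidAlgebra.single h⁻¹ 1 * C.d 0 a j)
      = (sv a (MonoidAlgebra.single h⁻¹ 1)) ᵥ* C.d 0 := by
    ext1 j
    rw [Finset.sum_apply]
    simp only [sv, Matrix.vecMul, dotProduct]
    rw [Finset.sum_eq_single j, Finset.sum_eq_single a]
    · simp
    · intro b _ hb; simp [hb]
    · simp
    · intro b _ hb; simp [Ne.symm hb]
    · simp
  rw [h2, hψ', pair_sv_single]

end FinRes

end

end Z9f173d
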