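import Pool.Agent.Lib.P9f173dW.Compr

/-!
# Z9f173d.Ce: the conditional expectation of reduced group algebras

For a subgroup `K` of `G`: `condExp K : C_r^*(G) → C_r^*(K)`, additive, maps `1` to `1` and is
`ℤ[K]`-linear on both sides. Consequence (`contr_map`): a contraction over `C_r^*(G)` of a complex of
finitely generated free `ℤ[K]`-modules gives one over `C_r^*(K)`.
-/

set_option autoImplicit false

namespace Z9f173d

open scoped Matrix

open Pool.Agent.Lib.P9f173dW

variable {G : Type*} [Group G] (K : Subgroup G)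

/-- the inclusion `ℤ[K] → ℤ[G]` -/
noncomputable def incl : MonoidAlgebra ℤ K →+* MonoidAlgebra ℤ G :=
  MonoidAlgebra.mapDomainRingHom ℤ K.subtype

theorem incl_single (k : K) (z : ℤ) :
    incl K (MonoidAlgebra.single k z) = MonoidAlgebra.single (k : G) z := by
  simp [incl]

namespace CeAux

/-- an element of `Ops` as a continuous linear map -/
def op {H : Type*} (T : Ops H) : L2 H →L[ℂ] L2 H := T

/-- the compression of an operator to `ℓ²(K)` -/
noncomputable def cE (T : Ops G) : Ops K :=
  ((ComprAux.Q K 1).comp ((op T).comp (ComprAux.E K 1)) : L2 K →L[ℂ] L2 K)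

theorem cE_apply (T : Ops G) (v : L2 K) (c : K) :
    op (cE K T) v c = op T (extC K 1 v) (1 * c) := rfl

theorem cE_add (S T : Ops G) : cE K (S + T) = cE K S + cE K T := by
  refine ContinuousLinearMap.ext fun v => ?_
  ext c
  rfl

theorem cE_zero : cE K (0 : Ops G) = 0 := by
  refine ContinuousLinearMap.ext fun v => ?_
  ext c
  rfl

theorem continuous_cE : Continuous (cE K : Ops G → Ops K) := by
  have : Continuous fun T : L2 G →L[ℂ] L2 G =>
      (ComprAux.Q K 1).comp (T.comp (ComprAux.E K 1)) :=
    continuous_const.clm_comp (continuous_id.clm_comp continuous_const)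
  exact this

theorem extC_one_mem (v : L2 K) (y : G) (h : y ∈ K) : extC K 1 v y = v ⟨y, h⟩ := by
  have := extC_apply K 1 v ⟨y, h⟩
  rwa [one_mul] at this

theorem extC_one_notMem (v : L2 K) (y : G) (h : y ∉ K) : extC K 1 v y = 0 :=
  extC_apply_of_notMem K 1 v y (by rwa [inv_one, one_mul])

theorem cE_scLam_mem (c : ℂ) (g : G) (h : g ∈ K) : cE K (scLam c g) = scLam c (⟨g, h⟩ : K) := by
  refine ContinuousLinearMap.ext fun v => ?_
  ext x
  show c • extC K 1 v (g⁻¹ * (1 * (x : G))) = c • v ((⟨g, h⟩ : K)⁻¹ * x)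
  rw [one_mul, extC_one_mem K v (g⁻¹ * (x : G)) (K.mul_mem (K.inv_mem h) x.2)]
  rfl

theorem cE_scLam_notMem (c : ℂ) (g : G) (h : g ∉ K) : cE K (scLam c g) = 0 := by
  refine ContinuousLinearMap.ext fun v => ?_
  ext x
  show c • extC K 1 v (g⁻¹ * (1 * (x : G))) = 0
  rw [one_mul, extC_one_notMem K v (g⁻¹ * (x : G)), smul_zero]
  intro h2
  apply h
  have h3 : g⁻¹ ∈ K := by
    have := K.mul_mem h2 (K.inv_mem x.2)
    rwa [mul_inv_cancel_right] at this
  exact (K.inv_mem_iff).1 h3

theorem lam_ext (k : K) (v : L2 K) : extC K 1 (op (scLam 1 k) v) =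
    op (scLam 1 (k : G)) (extC K 1 v) := by
  ext y
  show _ = (1 : ℂ) • extC K 1 v ((k : G)⁻¹ * y)
  rw [one_smul]
  by_cases h : y ∈ K
  · rw [extC_one_mem K _ y h, extC_one_mem K v ((k : G)⁻¹ * y) (K.mul_mem (K.inv_mem k.2) h)]
    show (1 : ℂ) • v (k⁻¹ * ⟨y, h⟩) = _
    rw [one_smul]
    rfl
  · rw [extC_one_notMem K _ y h, extC_one_notMem K v]
    intro h2
    apply h
    have := K.mul_mem k.2 h2
    rwa [mul_inv_cancel_left] at this

theorem cE_left (k : K) (T : Ops G) : cE K (scLam 1 (k : G) * T) = scLam 1 k * cE K T := by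
  refine ContinuousLinearMap.ext fun v => ?_
  ext x
  show (1 : ℂ) • op T (extC K 1 v) ((k : G)⁻¹ * (1 * (x : G))) =
    (1 : ℂ) • op T (extC K 1 v) (1 * ((k⁻¹ * x : K) : G))
  rw [one_mul, one_mul]
  rfl

theorem cE_right (k : K) (T : Ops G) : cE K (T * scLam 1 (k : G)) = cE K T * scLam 1 k := by
  refine ContinuousLinearMap.ext fun v => ?_
  ext x
  show op T (op (scLam 1 (k : G)) (extC K 1 v)) (1 * (x : G)) =
    op T (extC K 1 (op (scLam 1 k) v)) (1 * (x : G))
  rw [lam_ext]

theorem scLam_mul' {H : Type*} [Group H] (c c' : ℂ) (g h : H) :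
    scLam c g * scLam c' h = scLam (c * c') (g * h) := by
  refine ContinuousLinearMap.ext fun ξ => ?_
  ext x
  show c • (c' • ξ (h⁻¹ * (g⁻¹ * x))) = (c * c') • ξ ((g * h)⁻¹ * x)
  rw [mul_inv_rev, mul_assoc, smul_smul]

theorem cE_mem (T : Ops G) (hT : T ∈ redAlg G) : cE K T ∈ redAlg K := by
  have hcl : IsClosed {T : Ops G | cE K T ∈ redAlg K} := by
    have h1 : IsClosed ((redAlg K : Subring (Ops K)) : Set (Ops K)) :=
      Subring.isClosed_topologicalClosure _
    exact h1.preimage (continuous_cE K)
  have hT' : T ∈ closure ((Subring.closure {T : Ops G | ∃ (c : ℂ) (g : G), T = scLam c g} :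
      Subring (Ops G)) : Set (Ops G)) := hT
  refine closure_minimal ?_ hcl hT'
  intro S hS
  rw [SetLike.mem_coe, Subring.mem_closure_iff] at hS
  show cE K S ∈ redAlg K
  induction hS using AddSubgroup.closure_induction with
  | mem x hx =>
    have hx2 : ∃ (c : ℂ) (g : G), x = scLam c g := by
      induction hx using Submonoid.closure_induction with
      | mem y hy => exact hy
      | one => exact ⟨1, 1, scLam_one_one.symm⟩
      | mul a b _ _ ha hb =>
        obtain ⟨c, g, rfl⟩ := ha
        obtain ⟨c', h, rfl⟩ := hb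
        exact ⟨c * c', g * h, scLam_mul' c c' g h⟩
    obtain ⟨c, g, rfl⟩ := hx2
    by_cases h : g ∈ K
    · rw [cE_scLam_mem K c g h]
      exact scLam_mem _ _
    · rw [cE_scLam_notMem K c g h]
      exact Subring.zero_mem _
  | zero => rw [cE_zero]; exact Subring.zero_mem _
  | add x y _ _ hx hy => rw [cE_add]; exact Subring.add_mem _ hx hy
  | neg x _ hx =>
    have h1 : cE K (-x) = - cE K x := by
      rw [eq_neg_iff_add_eq_zero, ← cE_add, neg_add_cancel, cE_zero]
    rw [h1]
    exact Subring.neg_mem _ hx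

end CeAux

open CeAux

/-- the conditional expectation `C_r^*(G) → C_r^*(K)` -/
noncomputable def condExp : CRed G →+ CRed K where
  toFun T := ⟨cE K T.1, cE_mem K T.1 T.2⟩
  map_zero' := Subtype.ext (cE_zero K)
  map_add' S T := Subtype.ext (cE_add K S.1 T.1)

theorem condExp_left_lam (k : K) (T : CRed G) :
    condExp K (lamC G k * T) = lamC K k * condExp K T :=
  Subtype.ext (cE_left K k T.1)

theorem condExp_right_lam (k : K) (T : CRed G) :
    condExp K (T * lamC G k) = condExp K T * lamC K k :=
  Subtype.ext (cE_right K k T.1)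

theorem toCRed_single {H : Type*} [Group H] (g : H) (z : ℤ) :
    toCRed H (MonoidAlgebra.single g z) = z • lamC H g := by
  show (MonoidAlgebra.lift ℤ (CRed H) H (lamC H)) (MonoidAlgebra.single g z) = _
  rw [MonoidAlgebra.lift_single]

theorem condExp_left (a : MonoidAlgebra ℤ K) (T : CRed G) :
    condExp K (toCRed G (incl K a) * T) = toCRed K a * condExp K T := by
  induction a using MonoidAlgebra.induction_linear with
  | zero => rw [map_zero, map_zero, map_zero, zero_mul, zero_mul, map_zero]
  | add x y hx hy => rw [map_add, map_add, add_mul, map_add, hx, hy, map_add, add_mul]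
  | single k z =>
    rw [incl_single, toCRed_single, toCRed_single, smul_mul_assoc, smul_mul_assoc, map_zsmul,
      condExp_left_lam]

theorem condExp_right (a : MonoidAlgebra ℤ K) (T : CRed G) :
    condExp K (T * toCRed G (incl K a)) = condExp K T * toCRed K a := by
  induction a using MonoidAlgebra.induction_linear with
  | zero => rw [map_zero, map_zero, map_zero, mul_zero, mul_zero, map_zero]
  | add x y hx hy => rw [map_add, map_add, mul_add, map_add, hx, hy, map_add, mul_add]
  | single k z =>
    rw [incl_single, toCRed_single, toCRed_single, mul_smul_comm, mul_smul_comm, map_zsmul,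
      condExp_right_lam]

theorem condExp_one : condExp K (1 : CRed G) = 1 := by
  have h1 : condExp K (lamC G ((1 : K) : G)) = lamC K 1 :=
    Subtype.ext (by
      show cE K (scLam 1 ((1 : K) : G)) = scLam 1 (1 : K)
      exact cE_scLam_mem K 1 _ (1 : K).2)
  have h2 : lamC G ((1 : K) : G) = 1 := (lamC G).map_one
  rw [h2, (lamC K).map_one] at h1
  exact h1

theorem condExp_map_mul {l m n : ℕ} (A : Matrix (Fin l) (Fin m) (MonoidAlgebra ℤ K))
    (S : Matrix (Fin m) (Fin n) (CRed G)) :
    (A.map ((toCRed G).comp (incl K)) * S).map (condExp K) =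
      A.map (toCRed K) * S.map (condExp K) := by
  ext i j
  rw [Matrix.map_apply, Matrix.mul_apply, map_sum, Matrix.mul_apply]
  refine Finset.sum_congr rfl fun k _ => ?_
  exact condExp_left K (A i k) (S k j)

theorem condExp_mul_map {l m n : ℕ} (S : Matrix (Fin l) (Fin m) (CRed G))
    (A : Matrix (Fin m) (Fin n) (MonoidAlgebra ℤ K)) :
    (S * A.map ((toCRed G).comp (incl K))).map (condExp K) =
      S.map (condExp K) * A.map (toCRed K) := by
  ext i j
  rw [Matrix.map_apply, Matrix.mul_apply, map_sum, Matrix.mul_apply]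
  refine Finset.sum_congr rfl fun k _ => ?_
  exact condExp_right K (A k j) (S i k)

theorem condExp_map_one {n : ℕ} :
    (1 : Matrix (Fin n) (Fin n) (CRed G)).map (condExp K) = 1 :=
  Matrix.map_one (condExp K) (map_zero _) (condExp_one K)

/-- A contraction over `C_r^*(G)` gives a contraction over `C_r^*(K)`. -/
theorem contr_map {l m n : ℕ} (A : Matrix (Fin m) (Fin l) (MonoidAlgebra ℤ K))
    (B : Matrix (Fin n) (Fin m) (MonoidAlgebra ℤ K))
    (S : Matrix (Fin l) (Fin m) (CRed G)) (S' : Matrix (Fin m) (Fin n) (CRed G))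
    (h : A.map ((toCRed G).comp (incl K)) * S + S' * B.map ((toCRed G).comp (incl K)) = 1) :
    A.map (toCRed K) * S.map (condExp K) + S'.map (condExp K) * B.map (toCRed K) = 1 := by
  rw [← condExp_map_mul, ← condExp_mul_map, ← condExp_map_one, ← h]
  ext i j
  rw [Matrix.add_apply, Matrix.map_apply, Matrix.map_apply, Matrix.map_apply, Matrix.add_apply,
    map_add]

end Z9f173d
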