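import Pool.Agent.Lib.Z9f173d.Weak

/-!
# Square summable functions modulo an amenable subgroup
-/

namespace Z9f173d

noncomputable section

open scoped Matrix ComplexConjugate

variable {G : Type*} [Group G]

section fpair
variable {M : Type*} [AddCommGroup M] {m n : ℕ}

/-- `∑ v_j ⋆ f_j` -/
def fpair (f : Fin n → G → M) (v : Fin n → MonoidAlgebra ℤ G) : G → M := ∑ j, tr M (v j) (f j)

theorem fpair_vecMul (f : Fin n → G → M) (D : Matrix (Fin m) (Fin n) (MonoidAlgebra ℤ G))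
    (v : Fin m → MonoidAlgebra ℤ G) : fpair f (v ᵥ* D) = fpair (mact (tr M) D f) v := by
  simp only [fpair, Matrix.vecMul, dotProduct, mact_apply, map_sum, map_mul]
  simp only [end_sum_apply, end_mul_apply]
  rw [Finset.sum_comm]

theorem fpair_mul (f : Fin n → G → M) (a : MonoidAlgebra ℤ G) (v : Fin n → MonoidAlgebra ℤ G) :
    fpair f (fun j => a * v j) = tr M a (fpair f v) := by
  simp only [fpair, map_sum, tr_mul_apply]

theorem fpair_sub (f : Fin n → G → M) (v w : Fin n → MonoidAlgebra ℤ G) :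
    fpair f (v - w) = fpair f v - fpair f w := by
  simp [fpair, Finset.sum_sub_distrib]

theorem fpair_zsmul (f : Fin n → G → M) (z : ℤ) (v : Fin n → MonoidAlgebra ℤ G) :
    fpair f (z • v) = z • fpair f v := by
  simp [fpair, Finset.smul_sum]

theorem fpair_sv (f : Fin n → G → M) (j : Fin n) : fpair f (sv j 1) = f j := by
  rw [fpair, Finset.sum_eq_single j]
  · simp [sv]
  · intro b _ hb
    simp [sv, hb]
  · simp

end fpair

variable (Λ : Subgroup G) (χ : Λ →* Circle)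

variable {Λ} in
/-- `Ufun` as an additive map -/
def UHom : L2 (G ⧸ Λ) →+ (G → ℂ) where
  toFun v := Ufun χ v
  map_zero' := by ext x; simp [Ufun]
  map_add' v w := by ext x; simp [Ufun, mul_add]

variable {Λ} in
theorem UHom_apply (v : L2 (G ⧸ Λ)) (x : G) : UHom χ v x = (χ (tau Λ x) : ℂ) * v (x : G ⧸ Λ) := rfl

variable {Λ} in
theorem UHom_injective : Function.Injective (UHom χ) := fun v w h =>
  Ufun_injective χ (fun x => congrFun h x)

variable {Λ} in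
theorem UHom_vth (a : MonoidAlgebra ℤ G) (v : L2 (G ⧸ Λ)) :
    UHom χ (vth (qreg χ) a v) = tr ℂ a (UHom χ v) := by
  refine th_nat _ _ (UHom χ) (fun g w => ?_) a v
  ext x
  exact Ufun_qreg χ g w x

variable {Λ} in
theorem UHom_mact {m n : ℕ} (D : Matrix (Fin m) (Fin n) (MonoidAlgebra ℤ G))
    (f : Fin n → L2 (G ⧸ Λ)) :
    mact (tr ℂ) D (fun j => UHom χ (f j)) = fun i => UHom χ (mact (vth (qreg χ)) D f i) :=
  mact_nat _ _ (UHom χ) (fun a v => UHom_vth χ a v) D f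

/-- inclusion `ℝ → ℂ` -/
def reC : ℝ →+ ℂ := (algebraMap ℝ ℂ : ℝ →+* ℂ).toAddMonoidHom

@[simp] theorem reC_apply (x : ℝ) : reC x = (x : ℂ) := rfl

/-- inclusion `ℤ → ℝ` -/
def iR : ℤ →+ ℝ := (Int.castRingHom ℝ).toAddMonoidHom

@[simp] theorem iR_apply (x : ℤ) : iR x = (x : ℝ) := rfl

/-- the projection `ℝ → ℝ/ℤ` -/
def pT : ℝ →+ UnitAddCircle := QuotientAddGroup.mk' _

theorem pT_apply (x : ℝ) : pT x = (x : UnitAddCircle) := rfl

/-- the real part `ℂ → ℝ` -/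
def reR : ℂ →+ ℝ := Complex.reAddGroupHom

@[simp] theorem reR_apply (x : ℂ) : reR x = x.re := rfl

/-- Real functions on `G`, right `Λ`-invariant and square summable modulo `Λ`. -/
def RL : AddSubgroup (G → ℝ) := ((UHom (1 : Λ →* Circle)).range).comap (compHom reC)

theorem mem_RL (b : G → ℝ) : b ∈ RL Λ ↔ ∃ v : L2 (G ⧸ Λ), ∀ x : G, v (x : G ⧸ Λ) = (b x : ℂ) := by
  constructor
  · rintro ⟨v, hv⟩
    refine ⟨v, fun x => ?_⟩
    have := congrFun hv x
    rw [UHom_apply] at this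
    simpa using this
  · rintro ⟨v, hv⟩
    refine ⟨v, ?_⟩
    ext x
    rw [UHom_apply]
    simpa using hv x

theorem RL_inv {b : G → ℝ} (hb : b ∈ RL Λ) (x : G) (k : Λ) : b (x * k) = b x := by
  obtain ⟨v, hv⟩ := (mem_RL Λ b).1 hb
  have h1 : ((x * (k : G) : G) : G ⧸ Λ) = (x : G ⧸ Λ) := by
    rw [QuotientGroup.eq]; simp
  have := hv (x * k)
  rw [h1, hv x] at this
  exact (Complex.ofReal_injective this).symm

theorem RL_tr {b : G → ℝ} (hb : b ∈ RL Λ) (a : MonoidAlgebra ℤ G) : tr ℝ a b ∈ RL Λ := by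
  obtain ⟨v, hv⟩ := hb
  refine ⟨vth (qreg 1) a v, ?_⟩
  rw [UHom_vth, hv, tr_nat]

theorem RL_fpair {n : ℕ} {b : Fin n → G → ℝ} (hb : ∀ i, b i ∈ RL Λ)
    (v : Fin n → MonoidAlgebra ℤ G) : fpair b v ∈ RL Λ :=
  AddSubgroup.sum_mem _ fun j _ => RL_tr Λ (hb j) _

theorem RL_mact {m n : ℕ} {b : Fin n → G → ℝ} (hb : ∀ i, b i ∈ RL Λ)
    (D : Matrix (Fin m) (Fin n) (MonoidAlgebra ℤ G)) (i : Fin m) : mact (tr ℝ) D b i ∈ RL Λ := by
  rw [mact_apply]
  exact AddSubgroup.sum_mem _ fun j _ => RL_tr Λ (hb j) _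

/-- domination -/
theorem mem_range_of_bound (F : G → ℂ) (hF : ∀ (x : G) (k : Λ), F (x * k) = (χ k : ℂ) * F x)
    {b : G → ℝ} (hb : b ∈ RL Λ) (c : ℝ) (h : ∀ x, ‖F x‖ ≤ c * |b x|) : F ∈ (UHom χ).range := by
  obtain ⟨v, hv⟩ := (mem_RL Λ b).1 hb
  have hmem : Memℓp (E := fun _ : G ⧸ Λ => ℂ) (fun y : G ⧸ Λ => F (Quotient.out y)) 2 := by
    have h1 : Memℓp (E := fun _ : G ⧸ Λ => ℂ) (fun y => (c : ℂ) * v y) 2 := v.2.const_mul (c : ℂ)
    refine h1.mono' fun y => ?_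
    have h2 := hv (Quotient.out y)
    rw [QuotientGroup.out_eq'] at h2
    rw [norm_mul, h2, Complex.norm_real, Complex.norm_real]
    refine (h _).trans ?_
    rw [← Real.norm_eq_abs]
    exact mul_le_mul_of_nonneg_right (Real.le_norm_self c) (norm_nonneg _)
  exact ⟨⟨_, hmem⟩, Ufun_surj χ F hF⟩

theorem mem_RL_of_bound (r : G → ℝ) (hr : ∀ (x : G) (k : Λ), r (x * k) = r x)
    {v : L2 (G ⧸ Λ)} (c : ℝ) (h : ∀ x : G, |r x| ≤ c * ‖v (x : G ⧸ Λ)‖) : r ∈ RL Λ := by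
  have hmem : Memℓp (E := fun _ : G ⧸ Λ => ℂ) (fun y : G ⧸ Λ => ((r (Quotient.out y) : ℝ) : ℂ)) 2 := by
    have h1 : Memℓp (E := fun _ : G ⧸ Λ => ℂ) (fun y => (c : ℂ) * v y) 2 := v.2.const_mul (c : ℂ)
    refine h1.mono' fun y => ?_
    have h2 := h (Quotient.out y)
    rw [QuotientGroup.out_eq'] at h2
    rw [norm_mul, Complex.norm_real, Complex.norm_real, Real.norm_eq_abs]
    refine h2.trans ?_
    exact mul_le_mul_of_nonneg_right (Real.le_norm_self c) (norm_nonneg _)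
  rw [mem_RL]
  refine ⟨⟨_, hmem⟩, fun x => ?_⟩
  show ((r (Quotient.out (x : G ⧸ Λ)) : ℝ) : ℂ) = _
  have h3 := hr (Quotient.out (x : G ⧸ Λ)) (tau Λ x)
  rw [out_mul_tau] at h3
  rw [h3]

theorem exists_small [Infinite (G ⧸ Λ)] (v : L2 (G ⧸ Λ)) {ε : ℝ} (hε : 0 < ε) :
    ∃ x : G, ‖v (x : G ⧸ Λ)‖ < ε := by
  have h := v.2.summable (by norm_num)
  have h1 := h.tendsto_cofinite_zero
  have h2 : ∀ᶠ c in Filter.cofinite, ‖v c‖ ^ (2 : ENNReal).toReal < ε ^ (2 : ENNReal).toReal :=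
    h1.eventually (gt_mem_nhds (by positivity))
  obtain ⟨c, hc⟩ := h2.exists
  refine ⟨Quotient.out c, ?_⟩
  rw [QuotientGroup.out_eq']
  exact (Real.rpow_lt_rpow_iff (norm_nonneg _) hε.le (by norm_num)).1 hc

/-- integer valued functions on `G`, right `Λ`-invariant and finitely supported modulo `Λ`. -/
def IL (n : G → ℤ) : Prop :=
  (∀ (x : G) (k : Λ), n (x * k) = n x) ∧ {c : G ⧸ Λ | n (Quotient.out c) ≠ 0}.Finite

theorem IL_exists {n : G → ℤ} (hn : IL Λ n) :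
    ∃ v : L2 (G ⧸ Λ), ∀ x : G, v (x : G ⧸ Λ) = (n x : ℂ) := by
  have hmem : Memℓp (E := fun _ : G ⧸ Λ => ℂ) (fun y : G ⧸ Λ => (n (Quotient.out y) : ℂ)) 2 := by
    refine memℓp_gen (summable_of_finite_support (hn.2.subset ?_))
    intro c hc h0
    apply hc
    simp [h0]
  refine ⟨⟨_, hmem⟩, fun x => ?_⟩
  show (n (Quotient.out (x : G ⧸ Λ)) : ℂ) = _
  have h3 := hn.1 (Quotient.out (x : G ⧸ Λ)) (tau Λ x)
  rw [out_mul_tau] at h3
  rw [h3]

theorem IL_of_RL {b : G → ℝ} (hb : b ∈ RL Λ) {n : G → ℤ} (hn : ∀ x, (n x : ℝ) = b x) :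
    IL Λ n := by
  refine ⟨fun x k => ?_, ?_⟩
  · have := RL_inv Λ hb x k
    rw [← hn, ← hn] at this
    exact_mod_cast this
  · obtain ⟨v, hv⟩ := (mem_RL Λ b).1 hb
    have h := v.2.summable (by norm_num)
    have h1 := h.tendsto_cofinite_zero
    have h2 : ∀ᶠ c in Filter.cofinite, ‖v c‖ ^ (2 : ENNReal).toReal < 1 :=
      h1.eventually (gt_mem_nhds one_pos)
    refine (Filter.eventually_cofinite.1 h2).subset ?_
    intro c hc hlt
    apply hc
    have h3 := hv (Quotient.out (c : G ⧸ Λ))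
    rw [QuotientGroup.out_eq', ← hn] at h3
    rw [h3] at hlt
    by_contra hne
    have h4 : (1 : ℝ) ≤ ‖(((n (Quotient.out c) : ℤ) : ℝ) : ℂ)‖ := by
      rw [Complex.norm_real, Real.norm_eq_abs, ← Int.cast_abs]
      exact_mod_cast Int.one_le_abs hne
    have h5 : (1 : ℝ) ≤ ‖(((n (Quotient.out c) : ℤ) : ℝ) : ℂ)‖ ^ (2 : ENNReal).toReal :=
      Real.one_le_rpow h4 (by norm_num)
    exact absurd hlt (not_lt.2 h5)

/-! ### The circle -/

theorem circ_le (r : ℝ) :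
    ‖(AddCircle.toCircle (r : UnitAddCircle) : ℂ) - 1‖ ≤ 2 * Real.pi * |r| := by
  rw [AddCircle.toCircle_apply_mk, Circle.coe_exp]
  have h := Real.norm_exp_I_mul_ofReal_sub_one_le (x := 2 * Real.pi / 1 * r)
  rw [mul_comm Complex.I] at h
  refine h.trans ?_
  rw [div_one, norm_mul, norm_mul, Real.norm_eq_abs r]
  simp [abs_of_pos Real.pi_pos]

theorem circ_ge (r : ℝ) (hr : |r| ≤ 1 / 2) :
    4 * |r| ≤ ‖(AddCircle.toCircle (r : UnitAddCircle) : ℂ) - 1‖ := by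
  rw [AddCircle.toCircle_apply_mk, Circle.coe_exp]
  have h := Complex.norm_exp_I_mul_ofReal_sub_one (2 * Real.pi / 1 * r)
  rw [mul_comm Complex.I] at h
  rw [h, div_one, norm_mul]
  have h1 : |2 * Real.pi * r / 2| ≤ Real.pi / 2 := by
    rw [show 2 * Real.pi * r / 2 = Real.pi * r by ring, abs_mul, abs_of_pos Real.pi_pos]
    nlinarith [Real.pi_pos]
  have h2 := Real.mul_abs_le_abs_sin h1
  rw [show 2 * Real.pi * r / 2 = Real.pi * r by ring, abs_mul, abs_of_pos Real.pi_pos] at h2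
  rw [show 2 * Real.pi * r / 2 = Real.pi * r by ring]
  have h3 : 2 / Real.pi * (Real.pi * |r|) = 2 * |r| := by
    field_simp
  rw [h3] at h2
  rw [Real.norm_eq_abs, Real.norm_eq_abs, abs_of_pos (by norm_num : (0 : ℝ) < 2)]
  linarith

theorem exists_rep (t : UnitAddCircle) : ∃ r : ℝ, (r : UnitAddCircle) = t ∧ |r| ≤ 1 / 2 := by
  obtain ⟨x, rfl⟩ := QuotientAddGroup.mk_surjective t
  refine ⟨x - round x, ?_, abs_sub_round x⟩
  have : ((round x : ℝ) : UnitAddCircle) = 0 := by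
    rw [AddCircle.coe_eq_zero_iff]
    exact ⟨round x, by simp⟩
  rw [AddCircle.coe_sub, this, sub_zero]

/-- the representative in `[-1/2, 1/2]` -/
def rep (t : UnitAddCircle) : ℝ := (exists_rep t).choose

theorem rep_coe (t : UnitAddCircle) : (rep t : UnitAddCircle) = t := (exists_rep t).choose_spec.1

theorem rep_abs (t : UnitAddCircle) : |rep t| ≤ 1 / 2 := (exists_rep t).choose_spec.2

theorem rep_le (t : UnitAddCircle) : |rep t| ≤ 1 / 4 * ‖(AddCircle.toCircle t : ℂ) - 1‖ := by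
  have h := circ_ge (rep t) (rep_abs t)
  rw [rep_coe] at h
  linarith

end

end Z9f173d
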