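import Pool.Agent.Lib.Z9f173d.Core1

/-!
# The main argument
-/

namespace Z9f173d

noncomputable section

open scoped Matrix ComplexConjugate

variable {G : Type*} [Group G] (Λ : Subgroup G) (hΛ : FoelnerAmenable Λ) (C : FinRes G)
  (h0 : ¬ Nontrivial (C.homology 0)) (h1 : ¬ Nontrivial (C.homology 1))
  (h2 : ¬ Nontrivial (C.homology 2))

include hΛ h0 h1 h2

omit hΛ h0 h1 h2 in
theorem compHom_mact {M M' : Type*} [AddCommGroup M] [AddCommGroup M'] (ψ : M →+ M') {m n : ℕ}
    (D : Matrix (Fin m) (Fin n) (MonoidAlgebra ℤ G)) (f : Fin n → G → M) :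
    mact (tr M') D (fun j => compHom ψ (f j)) = fun i => compHom ψ (mact (tr M) D f i) :=
  mact_nat _ _ (compHom ψ) (fun a v => tr_nat ψ a v) D f

omit hΛ h0 h1 h2 in
theorem exists_aug_ne : ∃ j, C.aug j ≠ 0 := by
  by_contra hcon
  simp only [not_exists, not_not] at hcon
  obtain ⟨v, hv⟩ := C.aug_surj
  simp [hcon] at hv

omit hΛ h0 h1 h2 in
theorem mact_const {M : Type*} [AddCommGroup M] (c : M) :
    mact (tr M) (C.d 0) (fun j => fun _ : G => C.aug j • c) = 0 := by
  ext a x
  rw [mact_apply]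
  simp only [tr_const, Finset.sum_apply, smul_smul]
  rw [← Finset.sum_smul, C.sum_row_zero a]
  simp

/-- `G/Λ` is infinite. -/
theorem infinite_quot : Infinite (G ⧸ Λ) := by
  by_contra hfin
  rw [not_infinite_iff_finite] at hfin
  let one : L2 (G ⧸ Λ) := ⟨fun _ => 1, Memℓp.all _⟩
  have hE := (exact_all C h0 h1 h2 (qreg (1 : Λ →* Circle)) (weakCont_qreg _ hΛ)).1
    (fun j => C.aug j • one) (by
      have h3 := UHom_mact (1 : Λ →* Circle) (C.d 0) (fun j => C.aug j • one)
      ext1 i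
      apply UHom_injective (1 : Λ →* Circle)
      rw [← congrFun h3 i, Pi.zero_apply, map_zero]
      have h4 : (fun j => UHom (1 : Λ →* Circle) (C.aug j • one))
          = fun j => fun _ : G => C.aug j • (1 : ℂ) := by
        ext j x
        rw [map_zsmul, Pi.smul_apply, UHom_apply]
        simp [one]
      rw [h4, mact_const]
      rfl)
  obtain ⟨j, hj⟩ := exists_aug_ne C
  have h5 := congrFun hE j
  have h6 := congrArg (fun w : L2 (G ⧸ Λ) => w ((1 : G) : G ⧸ Λ)) h5
  have h7 : C.aug j • (1 : ℂ) = 0 := h6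
  rw [zsmul_eq_mul, mul_one, Int.cast_eq_zero] at h7
  exact hj h7

theorem deg0 (a : Fin (C.rank 0) → G → ℤ) (ha : ∀ i, IL Λ (a i))
    (hd : mact (tr ℤ) (C.d 0) a = 0) : a = 0 := by
  choose v hv using fun i => IL_exists Λ (ha i)
  have hU : ∀ i, UHom (1 : Λ →* Circle) (v i) = compHom (reC.comp iR) (a i) := by
    intro i
    ext x
    rw [UHom_apply, hv]
    simp
  have hE := (exact_all C h0 h1 h2 (qreg (1 : Λ →* Circle)) (weakCont_qreg _ hΛ)).1 v (by
      have h3 := UHom_mact (1 : Λ →* Circle) (C.d 0) v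
      ext1 i
      apply UHom_injective (1 : Λ →* Circle)
      rw [← congrFun h3 i, Pi.zero_apply, map_zero]
      simp only [hU]
      rw [compHom_mact, hd]
      simp)
  ext i x
  have h5 := hv i x
  rw [congrFun hE i] at h5
  have h6 : (0 : ℂ) = (a i x : ℂ) := h5
  exact_mod_cast h6.symm

omit hΛ h0 h1 h2 in
/-- real solutions -/
theorem real_part {m n : ℕ} (D : Matrix (Fin m) (Fin n) (MonoidAlgebra ℤ G))
    (a : Fin m → G → ℤ) (v : Fin m → L2 (G ⧸ Λ)) (hv : ∀ i (x : G), v i (x : G ⧸ Λ) = (a i x : ℂ))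
    (w : Fin n → L2 (G ⧸ Λ)) (hw : mact (vth (qreg (1 : Λ →* Circle))) D w = v) :
    ∃ b : Fin n → G → ℝ, (∀ j, b j ∈ RL Λ) ∧
      mact (tr ℝ) D b = fun i => compHom iR (a i) := by
  refine ⟨fun j => compHom reR (UHom (1 : Λ →* Circle) (w j)), fun j => ?_, ?_⟩
  · refine mem_RL_of_bound Λ _ (fun x k => ?_) (v := w j) 1 (fun x => ?_)
    · have h1 : ((x * (k : G) : G) : G ⧸ Λ) = (x : G ⧸ Λ) := by
        rw [QuotientGroup.eq]; simp
      simp only [compHom_apply, UHom_apply, h1]
      simp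
    · simp only [compHom_apply, UHom_apply, reR_apply]
      simpa using Complex.abs_re_le_norm (w j (x : G ⧸ Λ))
  · rw [compHom_mact reR D (fun j => UHom (1 : Λ →* Circle) (w j)), UHom_mact, hw]
    ext i x
    simp only [compHom_apply, UHom_apply, hv]
    simp

omit hΛ h0 h1 h2 in
/-- integer representation -/
theorem exists_int_of_pT {r : ℝ} (h : pT r = 0) : ∃ n : ℤ, (n : ℝ) = r := by
  rw [pT_apply, AddCircle.coe_eq_zero_iff] at h
  obtain ⟨n, hn⟩ := h
  exact ⟨n, by simpa using hn⟩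

omit hΛ h0 h1 h2 in
theorem pT_int (n : ℤ) : pT (n : ℝ) = 0 := by
  rw [pT_apply, AddCircle.coe_eq_zero_iff]
  exact ⟨n, by simp⟩

theorem deg1 (a : Fin (C.rank 1) → G → ℤ) (ha : ∀ i, IL Λ (a i))
    (hd : mact (tr ℤ) (C.d 1) a = 0) :
    ∃ c : Fin (C.rank 0) → G → ℤ, (∀ i, IL Λ (c i)) ∧ mact (tr ℤ) (C.d 0) c = a := by
  haveI := infinite_quot Λ hΛ C h0 h1 h2
  choose v hv using fun i => IL_exists Λ (ha i)
  have hU : ∀ i, UHom (1 : Λ →* Circle) (v i) = compHom (reC.comp iR) (a i) := by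
    intro i
    ext x
    rw [UHom_apply, hv]
    simp
  obtain ⟨w, hw⟩ := (exact_all C h0 h1 h2 (qreg (1 : Λ →* Circle)) (weakCont_qreg _ hΛ)).2.1 v (by
      have h3 := UHom_mact (1 : Λ →* Circle) (C.d 1) v
      ext1 i
      apply UHom_injective (1 : Λ →* Circle)
      rw [← congrFun h3 i, Pi.zero_apply, map_zero]
      simp only [hU]
      rw [compHom_mact, hd]
      simp)
  obtain ⟨b, hbRL, hb⟩ := real_part Λ (C.d 0) a v hv w hw
  have hT : mact (tr UnitAddCircle) (C.d 0) (fun j => compHom pT (b j)) = 0 := by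
    rw [compHom_mact, hb]
    ext i x
    simp only [compHom_apply, iR_apply]
    exact pT_int _
  obtain ⟨κ, hκ⟩ := C.const_of_cocycle _ hT
  have hκ0 : ∀ j, C.aug j • κ = 0 := by
    intro j
    rw [← norm_le_zero_iff]
    refine le_of_forall_pos_le_add fun ε hε => ?_
    obtain ⟨vj, hvj⟩ := (mem_RL Λ (b j)).1 (hbRL j)
    obtain ⟨x, hx⟩ := exists_small Λ vj hε
    rw [← hκ j x, compHom_apply, zero_add]
    refine (QuotientAddGroup.norm_mk_le_norm (m := b j x)).trans ?_
    rw [hvj x, Complex.norm_real] at hx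
    exact hx.le
  have hint : ∀ j x, ∃ n : ℤ, (n : ℝ) = b j x := by
    intro j x
    refine exists_int_of_pT ?_
    have := hκ j x
    rw [compHom_apply, hκ0 j] at this
    exact this
  choose c hc using hint
  refine ⟨c, fun j => IL_of_RL Λ (hbRL j) (hc j), ?_⟩
  have hcb : (fun j => compHom iR (c j)) = b := by
    ext j x
    simp [hc]
  have h5 := compHom_mact iR (C.d 0) c
  rw [hcb, hb] at h5
  ext i x
  have h6 := congrFun (congrFun h5 i) x
  simp only [compHom_apply, iR_apply] at h6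
  exact_mod_cast h6.symm

omit hΛ h0 h1 h2 in
/-- `aug v = 0` vectors pair to functions with a square summable real lift. -/
theorem prim_lift (b : Fin (C.rank 1) → G → ℝ) (hb : ∀ i, b i ∈ RL Λ)
    (w : Fin (C.rank 0) → G → UnitAddCircle)
    (hw : mact (tr UnitAddCircle) (C.d 0) w = fun i => compHom pT (b i))
    (v : Fin (C.rank 0) → MonoidAlgebra ℤ G) (hv : C.augMap v = 0) :
    ∃ β : G → ℝ, β ∈ RL Λ ∧ compHom pT β = fpair w v := by
  obtain ⟨y, rfl⟩ := (C.augMap_eq_zero_iff v).1 hv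
  refine ⟨fpair b y, RL_fpair Λ hb y, ?_⟩
  rw [fpair_vecMul, hw]
  simp only [fpair, map_sum, tr_nat]

theorem deg2 (a : Fin (C.rank 2) → G → ℤ) (ha : ∀ i, IL Λ (a i))
    (hd : mact (tr ℤ) (C.d 2) a = 0) :
    ∃ c : Fin (C.rank 1) → G → ℤ, (∀ i, IL Λ (c i)) ∧ mact (tr ℤ) (C.d 1) c = a := by
  haveI := infinite_quot Λ hΛ C h0 h1 h2
  -- a real square summable primitive
  choose v hv using fun i => IL_exists Λ (ha i)
  have hU : ∀ i, UHom (1 : Λ →* Circle) (v i) = compHom (reC.comp iR) (a i) := by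
    intro i
    ext x
    rw [UHom_apply, hv]
    simp
  obtain ⟨v1, hv1⟩ := (exact_all C h0 h1 h2 (qreg (1 : Λ →* Circle)) (weakCont_qreg _ hΛ)).2.2 v (by
      have h3 := UHom_mact (1 : Λ →* Circle) (C.d 2) v
      ext1 i
      apply UHom_injective (1 : Λ →* Circle)
      rw [← congrFun h3 i, Pi.zero_apply, map_zero]
      simp only [hU]
      rw [compHom_mact, hd]
      simp)
  obtain ⟨b, hbRL, hb⟩ := real_part Λ (C.d 1) a v hv v1 hv1
  -- reduce mod 1 and integrate
  have hT : mact (tr UnitAddCircle) (C.d 1) (fun j => compHom pT (b j)) = 0 := by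
    rw [compHom_mact, hb]
    ext i x
    simp only [compHom_apply, iR_apply]
    exact pT_int _
  obtain ⟨w, hw⟩ := C.exists_primitive _ hT
  obtain ⟨x0, hx0⟩ := C.exists_x
  set u : G → UnitAddCircle := fpair w x0 with hu
  -- translates of `u`
  have hβ : ∀ g : G, ∃ β : G → ℝ, β ∈ RL Λ ∧ ∀ x, pT (β x) = u (g⁻¹ * x) - u x := by
    intro g
    obtain ⟨β, hβ1, hβ2⟩ := prim_lift Λ C b hbRL w hw
      ((fun j => MonoidAlgebra.single g 1 * x0 j) - x0) (by
        rw [map_sub, C.augMap_smul, hx0]; simp [eps])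
    refine ⟨β, hβ1, fun x => ?_⟩
    have h3 := congrFun hβ2 x
    rw [compHom_apply, fpair_sub, fpair_mul, Pi.sub_apply, tr_single, one_smul, ← hu] at h3
    exact h3
  choose β hβRL hβ using hβ
  have hinv : ∀ (x : G) (k : Λ), u (x * k) = u x + (u k - u 1) := by
    intro x k
    have h3 := hβ x⁻¹ (k : G)
    have h4 := hβ x⁻¹ 1
    have h5 := RL_inv Λ (hβRL x⁻¹) 1 k
    rw [one_mul] at h5
    rw [h5, h4, inv_inv, mul_one] at h3
    have h6 : u (x * k) = u x - u 1 + u k := by
      rw [h3]; abel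
    rw [h6]; abel
  let χ : Λ →* Circle :=
    { toFun := fun k => AddCircle.toCircle (u k - u 1)
      map_one' := by simp
      map_mul' := fun k k' => by
        have h3 := hinv (k : G) k'
        rw [← AddCircle.toCircle_add]
        congr 1
        rw [Subgroup.coe_mul, h3]
        abel }
  have hχ : ∀ k, χ k = AddCircle.toCircle (u k - u 1) := fun k => rfl
  let U : G → ℂ := fun x => (AddCircle.toCircle (u x) : ℂ)
  have hUn : ∀ x, ‖U x‖ = 1 := fun x => Circle.norm_coe _
  have hUeq : ∀ (x : G) (k : Λ), U (x * k) = (χ k : ℂ) * U x := by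
    intro x k
    show (AddCircle.toCircle (u (x * k)) : ℂ) = _
    rw [hinv, AddCircle.toCircle_add, Circle.coe_mul, hχ, mul_comm]
  -- differences are square summable
  have hdiff : ∀ g : G, tr ℂ (MonoidAlgebra.single g 1) U - U ∈ (UHom χ).range := by
    intro g
    refine mem_range_of_bound Λ χ _ (fun x k => ?_) (hβRL g) (2 * Real.pi) (fun x => ?_)
    · rw [Pi.sub_apply, Pi.sub_apply, tr_single, tr_single, one_smul, one_smul, ← mul_assoc, hUeq,
        hUeq]
      ring
    · rw [Pi.sub_apply, tr_single, one_smul]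
      have h3 : U (g⁻¹ * x) - U x
          = ((AddCircle.toCircle ((β g x : ℝ) : UnitAddCircle) : ℂ) - 1) * U x := by
        have h4 := hβ g x
        rw [pT_apply] at h4
        rw [h4, sub_mul, one_mul]
        congr 1
        show (AddCircle.toCircle (u (g⁻¹ * x)) : ℂ)
          = (AddCircle.toCircle (u (g⁻¹ * x) - u x) : ℂ) * (AddCircle.toCircle (u x) : ℂ)
        rw [← Circle.coe_mul, ← AddCircle.toCircle_add, sub_add_cancel]
      rw [h3, norm_mul, hUn, mul_one]
      exact circ_le _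
  have hall : ∀ α : MonoidAlgebra ℤ G, tr ℂ α U - eps G α • U ∈ (UHom χ).range := by
    intro α
    induction α using MonoidAlgebra.induction_linear with
    | zero => simp
    | add α α' hα hα' =>
      have h3 : tr ℂ (α + α') U - eps G (α + α') • U
          = (tr ℂ α U - eps G α • U) + (tr ℂ α' U - eps G α' • U) := by
        rw [map_add, map_add, end_add_apply, add_smul]; abel
      rw [h3]
      exact AddSubgroup.add_mem _ hα hα'
    | single g z =>
      have h3 : tr ℂ (MonoidAlgebra.single g z) U - eps G (MonoidAlgebra.single g z) • U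
          = z • (tr ℂ (MonoidAlgebra.single g 1) U - U) := by
        ext x
        simp only [Pi.sub_apply, Pi.smul_apply, tr_single, one_smul]
        simp [eps, smul_sub]
      rw [h3]
      exact AddSubgroup.zsmul_mem _ (hdiff g) z
  -- the linear cocycle
  let Ut : Fin (C.rank 0) → G → ℂ := fun j => C.aug j • U
  have hUt : ∀ i, mact (tr ℂ) (C.d 0) Ut i ∈ (UHom χ).range := by
    intro i
    have h3 : mact (tr ℂ) (C.d 0) Ut i
        = tr ℂ (∑ j, C.aug j • C.d 0 i j) U
          - eps G (∑ j, C.aug j • C.d 0 i j) • U := by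
      have h4 : eps G (∑ j, C.aug j • C.d 0 i j) = 0 := by
        rw [map_sum, ← C.sum_row_zero i]
        refine Finset.sum_congr rfl fun j _ => ?_
        rw [map_zsmul, smul_eq_mul, mul_comm]
      rw [h4, zero_smul, sub_zero, map_sum, end_sum_apply, mact_apply]
      refine Finset.sum_congr rfl fun j _ => ?_
      rw [map_zsmul, map_zsmul, end_zsmul_apply]
    rw [h3]
    exact hall _
  choose vt hvt using hUt
  obtain ⟨hh, hhh⟩ := (exact_all C h0 h1 h2 (qreg χ) (weakCont_qreg _ hΛ)).2.1 vt (by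
      have h3 := UHom_mact χ (C.d 1) vt
      ext1 i
      apply UHom_injective χ
      rw [← congrFun h3 i, Pi.zero_apply, map_zero]
      have h4 : (fun j => UHom χ (vt j)) = mact (tr ℂ) (C.d 0) Ut := by
        ext1 j; exact hvt j
      rw [h4, ← mact_mul, C.d_mul_d, mact_zero]
      rfl)
  obtain ⟨κ, hκ⟩ := C.const_of_cocycle (fun j => Ut j - UHom χ (hh j)) (by
    have h3 : (fun j => Ut j - UHom χ (hh j)) = Ut - fun j => UHom χ (hh j) := rfl
    rw [h3, map_sub, UHom_mact, hhh]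
    ext1 i
    rw [Pi.sub_apply, hvt]
    simp)
  obtain ⟨j0, hj0⟩ := exists_aug_ne C
  have hj0' : (C.aug j0 : ℂ) ≠ 0 := by exact_mod_cast hj0
  have hκ' : ∀ x, U x - κ = (C.aug j0 : ℂ)⁻¹ * UHom χ (hh j0) x := by
    intro x
    have h3 : (C.aug j0 : ℂ) * U x - UHom χ (hh j0) x = (C.aug j0 : ℂ) * κ := by
      have h4 := hκ j0 x
      rw [zsmul_eq_mul] at h4
      rw [← h4, Pi.sub_apply]
      congr 1
      show _ = (C.aug j0 • U) x
      rw [Pi.smul_apply, zsmul_eq_mul]
    rw [eq_inv_mul_iff_mul_eq₀ hj0']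
    linear_combination h3
  have hnU : ∀ x, ‖UHom χ (hh j0) x‖ = ‖hh j0 (x : G ⧸ Λ)‖ := fun x => norm_Ufun χ _ x
  have hκnorm : ‖κ‖ = 1 := by
    have h3 : ∀ ε > 0, |1 - ‖κ‖| ≤ 0 + ε := by
      intro ε hε
      obtain ⟨x, hx⟩ := exists_small Λ (hh j0)
        (show (0 : ℝ) < ‖(C.aug j0 : ℂ)‖ * ε from mul_pos (norm_pos_iff.2 hj0') hε)
      rw [← hUn x]
      refine (abs_norm_sub_norm_le _ _).trans ?_
      rw [hκ', norm_mul, norm_inv, hnU, zero_add, inv_mul_le_iff₀ (norm_pos_iff.2 hj0')]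
      exact hx.le
    have h4 := le_of_forall_pos_le_add h3
    have h5 := abs_nonpos_iff.1 h4
    linarith
  have hκ0 : κ ≠ 0 := by
    intro h; rw [h, norm_zero] at hκnorm; exact zero_ne_one hκnorm
  -- the character is trivial
  have hχ1 : ∀ k : Λ, (χ k : ℂ) = 1 := by
    intro k
    have h3 := hκ' ((1 : G) * k)
    have h4 := hκ' 1
    have h5 : UHom χ (hh j0) ((1 : G) * k) = (χ k : ℂ) * UHom χ (hh j0) 1 := Ufun_mul χ _ _ _
    rw [hUeq, h5] at h3
    have h6 : κ * ((χ k : ℂ) - 1) = 0 := by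
      linear_combination h3 - (χ k : ℂ) * h4
    rcases mul_eq_zero.1 h6 with h7 | h7
    · exact absurd h7 hκ0
    · linear_combination h7
  have huinv : ∀ (x : G) (k : Λ), u (x * k) = u x := by
    intro x k
    have h3 : AddCircle.toCircle (u k - u 1) = 1 := by
      rw [← hχ]; exact Circle.ext (hχ1 k)
    have h4 : u k - u 1 = 0 := by
      apply AddCircle.injective_toCircle (one_ne_zero : (1 : ℝ) ≠ 0)
      rw [h3, AddCircle.toCircle_zero]
    rw [hinv, h4, add_zero]
  -- the constant in the circle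
  obtain ⟨κt, hκt⟩ : ∃ κt : UnitAddCircle, (AddCircle.toCircle κt : ℂ) = κ := by
    let κc : Circle := ⟨κ, by simpa [Submonoid.unitSphere] using hκnorm⟩
    refine ⟨(AddCircle.homeomorphCircle (one_ne_zero : (1 : ℝ) ≠ 0)).symm κc, ?_⟩
    rw [← AddCircle.homeomorphCircle_apply (one_ne_zero : (1 : ℝ) ≠ 0), Homeomorph.apply_symm_apply]
  -- real lift of `u - κt`
  have hr : (fun x => rep (u x - κt)) ∈ RL Λ := by
    refine mem_RL_of_bound Λ _ (fun x k => by rw [huinv]) (v := hh j0)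
      (1 / 4 * ‖(C.aug j0 : ℂ)‖⁻¹) (fun x => ?_)
    refine (rep_le _).trans ?_
    have h3 : ‖(AddCircle.toCircle (u x - κt) : ℂ) - 1‖ = ‖U x - κ‖ := by
      have h4 : U x - κ = ((AddCircle.toCircle (u x - κt) : ℂ) - 1) * κ := by
        rw [sub_mul, one_mul, ← hκt]
        congr 1
        show (AddCircle.toCircle (u x) : ℂ) = _
        rw [← Circle.coe_mul, ← AddCircle.toCircle_add, sub_add_cancel]
      rw [h4, norm_mul, hκnorm, mul_one]
    rw [h3, hκ', norm_mul, norm_inv, hnU, mul_assoc]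
  -- real lifts of `w_j - aug_j κt`
  have hwt : ∀ j, ∃ γ : G → ℝ, γ ∈ RL Λ ∧ ∀ x, pT (γ x) = w j x - C.aug j • κt := by
    intro j
    obtain ⟨β', hβ1, hβ2⟩ := prim_lift Λ C b hbRL w hw (sv j 1 - C.aug j • x0) (by
      rw [map_sub, map_zsmul, hx0, C.augMap_sv]; simp)
    refine ⟨β' + C.aug j • (fun x => rep (u x - κt)), AddSubgroup.add_mem _ hβ1
      (AddSubgroup.zsmul_mem _ hr _), fun x => ?_⟩
    have h3 := congrFun hβ2 x
    rw [compHom_apply, fpair_sub, fpair_zsmul, fpair_sv, ← hu, Pi.sub_apply, Pi.smul_apply] at h3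
    rw [Pi.add_apply, Pi.smul_apply, map_add, map_zsmul, h3, pT_apply, rep_coe, smul_sub]
    abel
  choose γ hγRL hγ using hwt
  -- the integral primitive
  have hγT : mact (tr UnitAddCircle) (C.d 0) (fun j => compHom pT (γ j))
      = fun i => compHom pT (b i) := by
    have h3 : (fun j => compHom pT (γ j)) = w - fun j => fun _ : G => C.aug j • κt := by
      ext j x
      exact hγ j x
    rw [h3, map_sub, hw, mact_const, sub_zero]
  have hγb := compHom_mact pT (C.d 0) γ
  rw [hγT] at hγb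
  let z : Fin (C.rank 1) → G → ℝ := b - mact (tr ℝ) (C.d 0) γ
  have hzRL : ∀ i, z i ∈ RL Λ := fun i => AddSubgroup.sub_mem _ (hbRL i) (RL_mact Λ hγRL _ _)
  have hzint : ∀ i x, ∃ n : ℤ, (n : ℝ) = z i x := by
    intro i x
    refine exists_int_of_pT ?_
    have h3 := congrFun (congrFun hγb i) x
    simp only [compHom_apply] at h3
    show pT (b i x - mact (tr ℝ) (C.d 0) γ i x) = 0
    rw [map_sub, h3, sub_self]
  choose c hc using hzint
  refine ⟨c, fun i => IL_of_RL Λ (hzRL i) (hc i), ?_⟩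
  have hcz : (fun i => compHom iR (c i)) = z := by
    ext i x
    simp [hc]
  have h5 := compHom_mact iR (C.d 1) c
  rw [hcz] at h5
  have h6 : mact (tr ℝ) (C.d 1) z = mact (tr ℝ) (C.d 1) b := by
    show mact (tr ℝ) (C.d 1) (b - mact (tr ℝ) (C.d 0) γ) = _
    rw [map_sub, ← mact_mul, C.d_mul_d, mact_zero, sub_zero]
  rw [h6, hb] at h5
  ext i x
  have h7 := congrFun (congrFun h5 i) x
  simp only [compHom_apply, iR_apply] at h7
  exact_mod_cast h7.symm

end

end Z9f173d
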