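import Pool.Agent.Lib.Z9f173d.Defs

/-!
# Hierarchical `G`-sets: definition
-/

namespace Z9f173d

universe u

/-- `Hier G X` : the `G`-set `X` is hierarchical.  The class of these `G`-sets is the smallest one
which contains

* the `G`-sets with amenable stabilisers;
* every `G`-set `X` which is (by `π`) the set of the connected components of a forest `T` on which
  `G` acts by graph automorphisms (which may invert edges), such that the stabilisers of the oriented
  edges are amenable and such that the set `V` of the vertices of `T` is hierarchical;
* every `G`-set `X` which is the image of a hierarchical `G`-set `V` by a `G`-map `π` with finite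
  fibres.

Let `S` be a subgroup of `G`.  The `G`-set `G/S` is hierarchical if `S` is amenable, or if `S` acts
on a tree with amenable edge stabilisers such that the `G`-set `G/K` is hierarchical for the vertex
stabilisers `K` and their number up to conjugacy is finite, or if `G/K` is hierarchical for a
subgroup `K` of finite index of `S`.  So virtually free groups, surface groups, and the fundamental
groups of graph manifolds are possible stabilisers. -/
inductive Hier (G : Type u) [Group G] : (X : Type u) → [MulAction G X] → Prop
  | amenable (X : Type u) [MulAction G X]
      (stabilisers : ∀ x : X, FoelnerAmenable (MulAction.stabilizer G x)) : Hier G X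
  | forest (X V : Type u) [MulAction G X] [MulAction G V] (T : SimpleGraph V) (π : V → X)
      (acyclic : T.IsAcyclic)
      (T_act : ∀ (g : G) (v w : V), T.Adj v w → T.Adj (g • v) (g • w))
      (π_act : ∀ (g : G) (v : V), π (g • v) = g • π v)
      (π_surjective : ∀ x : X, ∃ v : V, π v = x)
      (components : ∀ v w : V, π v = π w ↔ T.Reachable v w)
      (edges : ∀ v w : V, T.Adj v w →
        FoelnerAmenable ↥(MulAction.stabilizer G v ⊓ MulAction.stabilizer G w))
      (vertices : Hier G V) : Hier G X
  | finite (X V : Type u) [MulAction G X] [MulAction G V] (π : V → X)
      (π_act : ∀ (g : G) (v : V), π (g • v) = g • π v)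
      (π_surjective : ∀ x : X, ∃ v : V, π v = x)
      (fibres : ∀ x : X, {v : V | π v = x}.Finite)
      (above : Hier G V) : Hier G X

end Z9f173d
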