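import Pool.Agent.Lib.Z9f173d.TwoCx
import Pool.Agent.Lib.Z9f173d.HierDefs

/-!
# Hierarchical `G`-sets

If the homology of `C` with coefficients in the reduced `C*`-algebra vanishes in degrees at most
two, then `H^1(G; ℚ[X]) = 0` for every hierarchical `G`-set `X` (`hier_van`).  If `X` is the set of
components of a forest with vertex set `V`, there is an exact sequence
`0 → A → ℚ[V] → ℚ[X] → 0`, where `A` consists of the antisymmetric functions on the set `D` of the
oriented edges; `A` is a direct summand of `ℚ[D]`, so `H^2(G; A) = 0`.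
-/

namespace Z9f173d

universe u

noncomputable section

open scoped Matrix

/-! ### Vanishing and exact sequences -/

section Van
variable {G : Type*} [Group G]

/-- vanishing of the cohomology in degree `j + 1` -/
def Van (C : FinRes G) (j : ℕ) {M : Type*} [AddCommGroup M] (ρ : G →* AddMonoid.End M) : Prop :=
  ∀ f : Fin (C.rank (j + 1)) → M, mact (th ρ) (C.d (j + 1)) f = 0 →
    ∃ c, mact (th ρ) (C.d j) c = f

variable {A B D : Type*} [AddCommGroup A] [AddCommGroup B] [AddCommGroup D]
  {ρA : G →* AddMonoid.End A} {ρB : G →* AddMonoid.End B} {ρD : G →* AddMonoid.End D}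
  {C : FinRes G} {j : ℕ}

theorem Van.retract (i : A →+ B) (r : B →+ A) (ei : ∀ g w, i (ρA g w) = ρB g (i w))
    (er : ∀ g w, r (ρB g w) = ρA g (r w)) (hr : ∀ a, r (i a) = a) (h : Van C j ρB) :
    Van C j ρA := by
  intro f hf
  have h1 : mact (th ρB) (C.d (j + 1)) (fun b => i (f b)) = 0 := by
    rw [← mact_nat' ρA ρB i ei, hf]
    ext1 a
    exact map_zero i
  obtain ⟨c, hc⟩ := h _ h1
  refine ⟨fun b => r (c b), ?_⟩
  rw [← mact_nat' ρB ρA r er, hc]
  ext1 a
  exact hr (f a)

theorem Van.shift (i : A →+ B) (p : B →+ D) (ei : ∀ g w, i (ρA g w) = ρB g (i w))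
    (ep : ∀ g w, p (ρB g w) = ρD g (p w)) (xi : ∀ w, i w = 0 → w = 0)
    (xp : ∀ w, p w = 0 ↔ ∃ u, i u = w) (sp : ∀ w, ∃ u, p u = w)
    (hA : Van C (j + 1) ρA) (hB : Van C j ρB) : Van C j ρD := by
  intro f hf
  choose b hb using fun a => sp (f a)
  have hb' : (fun a => p (b a)) = f := funext hb
  have h2 : ∀ a, ∃ u, i u = mact (th ρB) (C.d (j + 1)) b a := by
    intro a
    rw [← xp]
    have h3 := congrFun (mact_nat' ρB ρD p ep (C.d (j + 1)) b) a
    rw [hb', hf] at h3
    exact h3
  choose s hs using h2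
  have hs' : (fun a => i (s a)) = mact (th ρB) (C.d (j + 1)) b := funext hs
  have h4 : mact (th ρA) (C.d (j + 2)) s = 0 := by
    ext1 a
    apply xi
    have h5 := congrFun (mact_nat' ρA ρB i ei (C.d (j + 2)) s) a
    rw [h5, hs', ← mact_mul, C.d_mul_d, mact_zero]
    rfl
  obtain ⟨t, ht⟩ := hA s h4
  have h6 : mact (th ρB) (C.d (j + 1)) (b - fun a => i (t a)) = 0 := by
    rw [map_sub, ← mact_nat' ρA ρB i ei (C.d (j + 1)) t, ht, hs', sub_self]
  obtain ⟨c, hc⟩ := hB _ h6
  refine ⟨fun a => p (c a), ?_⟩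
  rw [← mact_nat' ρB ρD p ep, hc]
  ext1 a
  show p (b a - i (t a)) = f a
  rw [map_sub, (xp (i (t a))).2 ⟨_, rfl⟩, sub_zero, hb]

end Van

/-! ### Forests -/

section Forest
variable {V : Type*} (T : SimpleGraph V)

/-- the oriented edges -/
def Dt : Type _ := {p : V × V // T.Adj p.1 p.2}

variable {T}

/-- the opposite edge -/
def flipD (d : Dt T) : Dt T := ⟨(d.1.2, d.1.1), d.2.symm⟩

theorem flipD_flipD (d : Dt T) : flipD (flipD d) = d := rfl

theorem flipD_injective : Function.Injective (flipD (T := T)) := fun a b h => by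
  rw [← flipD_flipD a, h, flipD_flipD]

variable (T) in
/-- the boundary map -/
def bdL : (Dt T →₀ ℚ) →ₗ[ℚ] (V →₀ ℚ) :=
  Finsupp.lmapDomain ℚ ℚ (fun d : Dt T => d.1.2) - Finsupp.lmapDomain ℚ ℚ (fun d : Dt T => d.1.1)

theorem bdL_apply (m : Dt T →₀ ℚ) : bdL T m =
    Finsupp.mapDomain (fun d : Dt T => d.1.2) m - Finsupp.mapDomain (fun d : Dt T => d.1.1) m := rfl

variable (T) in
/-- the map induced by the change of the orientation -/
def flL : (Dt T →₀ ℚ) →ₗ[ℚ] (Dt T →₀ ℚ) := Finsupp.lmapDomain ℚ ℚ flipD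

theorem flL_apply (m : Dt T →₀ ℚ) : flL T m = Finsupp.mapDomain flipD m := rfl

theorem flL_flL (m : Dt T →₀ ℚ) : flL T (flL T m) = m := by
  rw [flL_apply, flL_apply, ← Finsupp.mapDomain_comp]
  exact Finsupp.mapDomain_id

open scoped Classical in
theorem flow_zero (hT : T.IsAcyclic) (m : Dt T →₀ ℚ) (hm : flL T m = -m) (hb : bdL T m = 0) :
    m = 0 := by
  ext d0
  let T' := T.deleteEdges {s(d0.1.1, d0.1.2)}
  have hbr : ¬ T'.Reachable d0.1.1 d0.1.2 := SimpleGraph.isBridge_iff.1
    (SimpleGraph.isAcyclic_iff_forall_adj_isBridge.1 hT d0.2)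
  let φ : V → ℚ := fun x => if T'.Reachable d0.1.2 x then 1 else 0
  let ψ : Dt T → ℚ := fun d => φ d.1.2 - φ d.1.1
  have h1 : Finsupp.linearCombination ℚ ψ m = 0 := by
    have h2 : Finsupp.linearCombination ℚ φ (bdL T m) = 0 := by rw [hb, map_zero]
    rw [bdL_apply, map_sub, Finsupp.linearCombination_mapDomain,
      Finsupp.linearCombination_mapDomain] at h2
    rw [Finsupp.linearCombination_apply] at h2 ⊢
    rw [Finsupp.linearCombination_apply] at h2
    unfold Finsupp.sum at h2 ⊢
    rw [← Finset.sum_sub_distrib] at h2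
    rw [← h2]
    refine Finset.sum_congr rfl fun d _ => ?_
    show m d • (φ d.1.2 - φ d.1.1) = m d • φ d.1.2 - m d • φ d.1.1
    rw [smul_sub]
  have hψ : ∀ d, ψ d = (if d = d0 then 1 else 0) - (if d = flipD d0 then 1 else 0) := by
    intro d
    show (if T'.Reachable d0.1.2 d.1.2 then (1 : ℚ) else 0) -
      (if T'.Reachable d0.1.2 d.1.1 then 1 else 0) = _
    by_cases e1 : d = d0
    · subst e1
      have hne : d ≠ flipD d := by
        intro h
        have h3 : d.1.1 = d.1.2 := congrArg (fun x : Dt T => x.1.1) h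
        exact d.2.ne h3
      have h4 : ¬ T'.Reachable d.1.2 d.1.1 := fun h => hbr h.symm
      rw [if_pos (SimpleGraph.Reachable.refl _), if_neg h4, if_pos rfl, if_neg hne]
    · by_cases e2 : d = flipD d0
      · have h4 : d.1.2 = d0.1.1 := by rw [e2]; rfl
        have h5 : d.1.1 = d0.1.2 := by rw [e2]; rfl
        have h6 : ¬ T'.Reachable d0.1.2 d0.1.1 := fun h => hbr h.symm
        rw [h4, h5, if_neg h6, if_pos (SimpleGraph.Reachable.refl _), if_neg e1, if_pos e2]
      · have hadj : T'.Adj d.1.1 d.1.2 := by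
          rw [SimpleGraph.deleteEdges_adj]
          refine ⟨d.2, ?_⟩
          rw [Set.mem_singleton_iff, Sym2.eq_iff]
          rintro (⟨h7, h8⟩ | ⟨h7, h8⟩)
          · exact e1 (Subtype.ext (Prod.ext h7 h8))
          · exact e2 (Subtype.ext (Prod.ext h7 h8))
        have hiff : T'.Reachable d0.1.2 d.1.2 ↔ T'.Reachable d0.1.2 d.1.1 :=
          ⟨fun h => h.trans hadj.symm.reachable, fun h => h.trans hadj.reachable⟩
        rw [if_neg e1, if_neg e2]
        by_cases h9 : T'.Reachable d0.1.2 d.1.1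
        · rw [if_pos (hiff.2 h9), if_pos h9, sub_self, sub_self]
        · rw [if_neg (fun h => h9 (hiff.1 h)), if_neg h9]
  have h3 : Finsupp.linearCombination ℚ ψ m = m d0 - m (flipD d0) := by
    rw [Finsupp.linearCombination_apply]
    unfold Finsupp.sum
    simp only [hψ, smul_eq_mul, mul_sub, mul_ite, mul_one, mul_zero, Finset.sum_sub_distrib,
      Finset.sum_ite_eq', Finsupp.mem_support_iff]
    congr 1
    · split_ifs with h
      · rfl
      · exact (not_not.1 h).symm
    · split_ifs with h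
      · rfl
      · exact (not_not.1 h).symm
  have h4 : m (flipD d0) = - m d0 := by
    have h5 := congrArg (fun y : Dt T →₀ ℚ => y (flipD d0)) hm
    have h6 : (flL T m) (flipD d0) = m d0 := by
      rw [flL_apply, Finsupp.mapDomain_apply flipD_injective]
    have h7 : m d0 = - m (flipD d0) := by
      rw [← h6]
      exact h5
    rw [h7, neg_neg]
  rw [h3, h4] at h1
  rw [Finsupp.zero_apply]
  linarith

theorem flow_exists {v w : V} (h : T.Reachable v w) :
    ∃ m : Dt T →₀ ℚ, flL T m = -m ∧ bdL T m = Finsupp.single w 1 - Finsupp.single v 1 := by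
  obtain ⟨p⟩ := h
  induction p with
  | nil => exact ⟨0, by simp, by simp⟩
  | cons h' p ih =>
    rename_i a b c
    obtain ⟨m, h1, h2⟩ := ih
    let d : Dt T := ⟨(a, b), h'⟩
    refine ⟨m + (1 / 2 : ℚ) • (Finsupp.single d 1 - Finsupp.single (flipD d) 1), ?_, ?_⟩
    · rw [map_add, h1, map_smul, map_sub, flL_apply, flL_apply, Finsupp.mapDomain_single,
        Finsupp.mapDomain_single, flipD_flipD, neg_add, ← smul_neg, neg_sub]
    · rw [map_add, h2, map_smul, map_sub, bdL_apply, bdL_apply, Finsupp.mapDomain_single,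
        Finsupp.mapDomain_single, Finsupp.mapDomain_single, Finsupp.mapDomain_single]
      show _ + (1 / 2 : ℚ) • ((Finsupp.single b 1 - Finsupp.single a 1) -
        (Finsupp.single a 1 - Finsupp.single b 1)) = _
      have h3 : (Finsupp.single b (1 : ℚ) - Finsupp.single a 1) -
          (Finsupp.single a 1 - Finsupp.single b 1) =
          (2 : ℚ) • (Finsupp.single b (1 : ℚ) - Finsupp.single a 1) := by
        rw [two_smul]
        abel
      rw [h3, smul_smul]
      norm_num

theorem flow_exact (r : V → V) (hr : ∀ v, T.Reachable (r v) v) (b : V →₀ ℚ)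
    (hb : Finsupp.mapDomain r b = 0) : ∃ m : Dt T →₀ ℚ, flL T m = -m ∧ bdL T m = b := by
  choose m h1 h2 using fun v => flow_exists (hr v)
  refine ⟨Finsupp.linearCombination ℚ m b, ?_, ?_⟩
  · rw [Finsupp.linearCombination_apply, map_finsuppSum]
    simp only [map_smul, h1, smul_neg]
    exact Finset.sum_neg_distrib _
  · rw [Finsupp.linearCombination_apply, map_finsuppSum]
    simp only [map_smul, h2, smul_sub]
    have h3 : b.sum (fun v c => c • Finsupp.single v (1 : ℚ) - c • Finsupp.single (r v) (1 : ℚ)) =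
        b.sum (fun v c => c • Finsupp.single v (1 : ℚ)) -
          b.sum (fun v c => c • Finsupp.single (r v) (1 : ℚ)) := Finsupp.sum_sub
    rw [h3]
    simp only [Finsupp.smul_single, smul_eq_mul, mul_one]
    rw [Finsupp.sum_single]
    have h4 : b.sum (fun v c => Finsupp.single (r v) c) = Finsupp.mapDomain r b := rfl
    rw [h4, hb, sub_zero]

end Forest

/-! ### The action on the chains of a forest -/

section Act
variable {G : Type u} [Group G]

variable (G) in
/-- the action on the finitely supported functions -/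
def finHom (X : Type*) [MulAction G X] : G →* AddMonoid.End (X →₀ ℚ) where
  toFun g := (Finsupp.lmapDomain ℚ ℚ (fun x : X => g • x)).toAddMonoidHom
  map_one' := by
    ext1 f
    show Finsupp.mapDomain (fun x : X => (1 : G) • x) f = f
    simp only [one_smul]
    exact Finsupp.mapDomain_id
  map_mul' g h := by
    ext1 f
    show Finsupp.mapDomain (fun x : X => (g * h) • x) f =
      Finsupp.mapDomain (fun x : X => g • x) (Finsupp.mapDomain (fun x : X => h • x) f)
    rw [← Finsupp.mapDomain_comp]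
    congr 1
    funext x
    exact mul_smul g h x

theorem finHom_apply {X : Type*} [MulAction G X] (g : G) (f : X →₀ ℚ) :
    finHom G X g f = Finsupp.mapDomain (fun x : X => g • x) f := rfl

theorem coeff_permHom {X : Type*} [MulAction G X] (g : G) (c : MonoidAlgebra ℚ X) :
    (permHom G ℚ X g c).coeff = finHom G X g c.coeff := rfl

theorem van_fin_iff {X : Type*} [MulAction G X] (C : FinRes G) (j : ℕ) :
    Van C j (permHom G ℚ X) ↔ Van C j (finHom G X) := by
  have e1 : ∀ (g : G) (w : MonoidAlgebra ℚ X),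
      (MonoidAlgebra.coeffAddEquiv : MonoidAlgebra ℚ X ≃+ (X →₀ ℚ)) (permHom G ℚ X g w) =
        finHom G X g ((MonoidAlgebra.coeffAddEquiv : MonoidAlgebra ℚ X ≃+ (X →₀ ℚ)) w) :=
    fun g w => coeff_permHom g w
  have e2 : ∀ (g : G) (w : X →₀ ℚ),
      (MonoidAlgebra.coeffAddEquiv : MonoidAlgebra ℚ X ≃+ (X →₀ ℚ)).symm (finHom G X g w) =
        permHom G ℚ X g ((MonoidAlgebra.coeffAddEquiv : MonoidAlgebra ℚ X ≃+ (X →₀ ℚ)).symm w) := by
    intro g w
    rw [AddEquiv.symm_apply_eq, e1, AddEquiv.apply_symm_apply]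
  constructor
  · exact fun h => h.retract
      (MonoidAlgebra.coeffAddEquiv : MonoidAlgebra ℚ X ≃+ (X →₀ ℚ)).symm.toAddMonoidHom
      (MonoidAlgebra.coeffAddEquiv : MonoidAlgebra ℚ X ≃+ (X →₀ ℚ)).toAddMonoidHom
      e2 e1 (fun a => AddEquiv.apply_symm_apply _ a)
  · exact fun h => h.retract
      (MonoidAlgebra.coeffAddEquiv : MonoidAlgebra ℚ X ≃+ (X →₀ ℚ)).toAddMonoidHom
      (MonoidAlgebra.coeffAddEquiv : MonoidAlgebra ℚ X ≃+ (X →₀ ℚ)).symm.toAddMonoidHom
      e1 e2 (fun a => AddEquiv.symm_apply_apply _ a)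

variable {V : Type*} [MulAction G V] {T : SimpleGraph V}

/-- the action on the oriented edges -/
@[reducible] def dartAct (hT : ∀ (g : G) (v w : V), T.Adj v w → T.Adj (g • v) (g • w)) :
    MulAction G (Dt T) where
  smul g d := ⟨(g • d.1.1, g • d.1.2), hT g _ _ d.2⟩
  one_smul d := Subtype.ext (Prod.ext (one_smul G d.1.1) (one_smul G d.1.2))
  mul_smul g h d := Subtype.ext (Prod.ext (mul_smul g h d.1.1) (mul_smul g h d.1.2))

variable (T) in
/-- the antisymmetric functions on the oriented edges -/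
def altM : AddSubgroup (Dt T →₀ ℚ) where
  carrier := {m | flL T m = -m}
  zero_mem' := by
    show flL T 0 = -0
    simp
  add_mem' := by
    intro a b ha hb
    show flL T (a + b) = -(a + b)
    have ha' : flL T a = -a := ha
    have hb' : flL T b = -b := hb
    rw [map_add, ha', hb', neg_add]
  neg_mem' := by
    intro a ha
    show flL T (-a) = - -a
    have ha' : flL T a = -a := ha
    rw [map_neg, ha']

theorem flL_finHom (hT : ∀ (g : G) (v w : V), T.Adj v w → T.Adj (g • v) (g • w)) (g : G)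
    (m : Dt T →₀ ℚ) :
    letI := dartAct hT
    flL T (finHom G (Dt T) g m) = finHom G (Dt T) g (flL T m) := by
  let _ := dartAct hT
  show Finsupp.mapDomain flipD (Finsupp.mapDomain (fun x : Dt T => g • x) m) =
    Finsupp.mapDomain (fun x : Dt T => g • x) (Finsupp.mapDomain flipD m)
  rw [← Finsupp.mapDomain_comp, ← Finsupp.mapDomain_comp]
  rfl

theorem bdL_finHom (hT : ∀ (g : G) (v w : V), T.Adj v w → T.Adj (g • v) (g • w)) (g : G)
    (m : Dt T →₀ ℚ) :
    letI := dartAct hT
    bdL T (finHom G (Dt T) g m) = finHom G V g (bdL T m) := by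
  let _ := dartAct hT
  rw [bdL_apply, bdL_apply, finHom_apply, finHom_apply]
  have h1 : Finsupp.mapDomain (fun x : V => g • x)
      (Finsupp.mapDomain (fun d : Dt T => d.1.2) m - Finsupp.mapDomain (fun d : Dt T => d.1.1) m) =
      Finsupp.mapDomain (fun x : V => g • x) (Finsupp.mapDomain (fun d : Dt T => d.1.2) m) -
      Finsupp.mapDomain (fun x : V => g • x) (Finsupp.mapDomain (fun d : Dt T => d.1.1) m) :=
    map_sub (Finsupp.lmapDomain ℚ ℚ (fun x : V => g • x)) _ _
  rw [h1, ← Finsupp.mapDomain_comp, ← Finsupp.mapDomain_comp, ← Finsupp.mapDomain_comp,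
    ← Finsupp.mapDomain_comp]
  rfl

/-- the action on the antisymmetric functions -/
def altHom (hT : ∀ (g : G) (v w : V), T.Adj v w → T.Adj (g • v) (g • w)) :
    G →* AddMonoid.End (altM T) :=
  letI := dartAct hT
  { toFun := fun g =>
      { toFun := fun m => ⟨finHom G (Dt T) g m.1, by
          show flL T (finHom G (Dt T) g m.1) = - finHom G (Dt T) g m.1
          have h : flL T m.1 = -m.1 := m.2
          rw [flL_finHom hT, h, map_neg]⟩
        map_zero' := Subtype.ext (map_zero _)
        map_add' := fun a b => Subtype.ext (map_add _ a.1 b.1) }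
    map_one' := by
      ext1 m
      refine Subtype.ext ?_
      show finHom G (Dt T) 1 m.1 = m.1
      rw [map_one]
      rfl
    map_mul' := fun g h => by
      ext1 m
      refine Subtype.ext ?_
      show finHom G (Dt T) (g * h) m.1 = finHom G (Dt T) g (finHom G (Dt T) h m.1)
      rw [map_mul]
      rfl }

theorem dart_stabilizer (hT : ∀ (g : G) (v w : V), T.Adj v w → T.Adj (g • v) (g • w)) (d : Dt T) :
    letI := dartAct hT
    MulAction.stabilizer G d = MulAction.stabilizer G d.1.1 ⊓ MulAction.stabilizer G d.1.2 := by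
  let _ := dartAct hT
  ext g
  rw [Subgroup.mem_inf, MulAction.mem_stabilizer_iff, MulAction.mem_stabilizer_iff,
    MulAction.mem_stabilizer_iff]
  constructor
  · intro h
    exact ⟨congrArg (fun x : Dt T => x.1.1) h, congrArg (fun x : Dt T => x.1.2) h⟩
  · rintro ⟨h1, h2⟩
    exact Subtype.ext (Prod.ext h1 h2)

theorem alt_van (hT : ∀ (g : G) (v w : V), T.Adj v w → T.Adj (g • v) (g • w)) (C : FinRes G) (j : ℕ)
    (h : letI := dartAct hT; Van C j (finHom G (Dt T))) : Van C j (altHom hT) := by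
  let _ := dartAct hT
  refine h.retract (ρA := altHom hT) (altM T).subtype
    { toFun := fun m => ⟨(1 / 2 : ℚ) • (m - flL T m), ?_⟩
      map_zero' := ?_
      map_add' := ?_ } ?_ ?_ ?_
  · show flL T ((1 / 2 : ℚ) • (m - flL T m)) = -((1 / 2 : ℚ) • (m - flL T m))
    rw [map_smul, map_sub, flL_flL, ← smul_neg, neg_sub]
  · refine Subtype.ext ?_
    show (1 / 2 : ℚ) • ((0 : Dt T →₀ ℚ) - flL T 0) = 0
    simp
  · intro a b
    refine Subtype.ext ?_
    show (1 / 2 : ℚ) • ((a + b) - flL T (a + b)) =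
      (1 / 2 : ℚ) • (a - flL T a) + (1 / 2 : ℚ) • (b - flL T b)
    rw [map_add, ← smul_add]
    congr 1
    abel
  · intro g m
    rfl
  · intro g m
    refine Subtype.ext ?_
    show (1 / 2 : ℚ) • (finHom G (Dt T) g m - flL T (finHom G (Dt T) g m)) =
      finHom G (Dt T) g ((1 / 2 : ℚ) • (m - flL T m))
    rw [flL_finHom hT, ← map_sub]
    exact (map_smul (Finsupp.lmapDomain ℚ ℚ (fun x : Dt T => g • x)) (1 / 2 : ℚ)
      (m - flL T m)).symm
  · intro m
    refine Subtype.ext ?_
    show (1 / 2 : ℚ) • (m.1 - flL T m.1) = m.1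
    have h : flL T m.1 = -m.1 := m.2
    rw [h, sub_neg_eq_add, ← two_smul ℚ, smul_smul]
    norm_num

theorem fin_van {X : Type*} [MulAction G X]
    (hX : ∀ x : X, FoelnerAmenable (MulAction.stabilizer G x)) (C : FinRes G)
    (h0 : ¬ Nontrivial (C.homology 0)) (h1 : ¬ Nontrivial (C.homology 1))
    (h2 : ¬ Nontrivial (C.homology 2)) (j : ℕ) (hj : j ≤ 1) : Van C j (finHom G X) :=
  (van_fin_iff C j).1 (perm_trivial hX C h0 h1 h2 j hj)

end Act

/-! ### Maps with finite fibres -/

section Fibres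
variable {G : Type u} [Group G] {X V : Type u} [MulAction G X] [MulAction G V] (π : V → X)
  (fib : ∀ x : X, {v : V | π v = x}.Finite)

/-- the average over the fibres -/
def avg : (X →₀ ℚ) →ₗ[ℚ] (V →₀ ℚ) :=
  Finsupp.linearCombination ℚ (fun x => ((fib x).toFinset.card : ℚ)⁻¹ •
    ∑ v ∈ (fib x).toFinset, Finsupp.single v (1 : ℚ))

theorem avg_single (x : X) (c : ℚ) : avg π fib (Finsupp.single x c) =
    c • ((fib x).toFinset.card : ℚ)⁻¹ • ∑ v ∈ (fib x).toFinset, Finsupp.single v (1 : ℚ) :=
  Finsupp.linearCombination_single _ _ _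

theorem avg_section (hs : ∀ x : X, ∃ v : V, π v = x) (f : X →₀ ℚ) :
    Finsupp.lmapDomain ℚ ℚ π (avg π fib f) = f := by
  have h1 : (Finsupp.lmapDomain ℚ ℚ π) ∘ₗ avg π fib = LinearMap.id := by
    refine Finsupp.lhom_ext fun x c => ?_
    rw [LinearMap.comp_apply, avg_single, map_smul, map_smul, map_sum, LinearMap.id_apply]
    have h2 : ∀ v ∈ (fib x).toFinset, Finsupp.lmapDomain ℚ ℚ π (Finsupp.single v (1 : ℚ)) =
        Finsupp.single x (1 : ℚ) := by
      intro v hv
      have h3 : π v = x := (fib x).mem_toFinset.1 hv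
      rw [Finsupp.lmapDomain_apply, Finsupp.mapDomain_single, h3]
    obtain ⟨v, hv⟩ := hs x
    have h4 : v ∈ (fib x).toFinset := (fib x).mem_toFinset.2 hv
    have h5 : ((fib x).toFinset.card : ℚ) ≠ 0 := Nat.cast_ne_zero.2 (Finset.card_ne_zero_of_mem h4)
    rw [Finset.sum_congr rfl h2, Finset.sum_const, ← Nat.cast_smul_eq_nsmul ℚ, smul_smul, smul_smul,
      mul_assoc, inv_mul_cancel₀ h5, mul_one, Finsupp.smul_single, smul_eq_mul, mul_one]
  exact LinearMap.congr_fun h1 f

theorem avg_act (π_act : ∀ (g : G) (v : V), π (g • v) = g • π v) (g : G) (f : X →₀ ℚ) :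
    avg π fib (finHom G X g f) = finHom G V g (avg π fib f) := by
  classical
  have h1 : avg π fib ∘ₗ (Finsupp.lmapDomain ℚ ℚ (fun x : X => g • x)) =
      (Finsupp.lmapDomain ℚ ℚ (fun v : V => g • v)) ∘ₗ avg π fib := by
    refine Finsupp.lhom_ext fun x c => ?_
    rw [LinearMap.comp_apply, LinearMap.comp_apply, avg_single, map_smul, map_smul, map_sum,
      Finsupp.lmapDomain_apply, Finsupp.mapDomain_single, avg_single]
    have h2 : (fib (g • x)).toFinset = (fib x).toFinset.image (fun v => g • v) := by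
      ext v
      rw [Set.Finite.mem_toFinset, Finset.mem_image]
      constructor
      · intro hv
        have hv' : π v = g • x := hv
        refine ⟨g⁻¹ • v, ?_, smul_inv_smul g v⟩
        rw [Set.Finite.mem_toFinset]
        show π (g⁻¹ • v) = x
        rw [π_act, hv', inv_smul_smul]
      · rintro ⟨w, hw, rfl⟩
        rw [Set.Finite.mem_toFinset] at hw
        have hw' : π w = x := hw
        show π (g • w) = g • x
        rw [π_act, hw']
    have h3 : Function.Injective (fun v : V => g • v) := MulAction.injective g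
    rw [h2, Finset.card_image_of_injective _ h3, Finset.sum_image (fun a _ b _ h => h3 h)]
    congr 2
    refine Finset.sum_congr rfl fun v _ => ?_
    rw [Finsupp.lmapDomain_apply, Finsupp.mapDomain_single]
  exact LinearMap.congr_fun h1 f

end Fibres

/-- Vanishing for hierarchical sets. -/
theorem hier_van {G : Type u} [Group G] (C : FinRes G)
    (h0 : ¬ Nontrivial (C.homology 0)) (h1 : ¬ Nontrivial (C.homology 1))
    (h2 : ¬ Nontrivial (C.homology 2)) {X : Type u} [MulAction G X] (hX : Hier G X) :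
    Van C 0 (finHom G X) := by
  induction hX with
  | amenable X h => exact fin_van h C h0 h1 h2 0 (by norm_num)
  | forest X V T π acyclic T_act π_act π_surjective components edges vertices ih =>
    let _ := dartAct T_act
    have hD : Van C 1 (finHom G (Dt T)) := by
      refine fin_van (fun d => ?_) C h0 h1 h2 1 le_rfl
      rw [dart_stabilizer T_act]
      exact edges _ _ d.2
    have hA : Van C 1 (altHom T_act) := alt_van T_act C 1 hD
    choose r hr using π_surjective
    refine Van.shift (ρA := altHom T_act) (ρB := finHom G V) (ρD := finHom G X)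
      ((bdL T).toAddMonoidHom.comp (altM T).subtype)
      (Finsupp.lmapDomain ℚ ℚ π).toAddMonoidHom ?_ ?_ ?_ ?_ ?_ hA ih
    · intro g m
      exact bdL_finHom T_act g m.1
    · intro g b
      show Finsupp.mapDomain π (Finsupp.mapDomain (fun x : V => g • x) b) =
        Finsupp.mapDomain (fun x : X => g • x) (Finsupp.mapDomain π b)
      rw [← Finsupp.mapDomain_comp, ← Finsupp.mapDomain_comp]
      congr 1
      funext v
      exact π_act g v
    · intro m hm
      exact Subtype.ext (flow_zero acyclic m.1 m.2 hm)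
    · intro b
      constructor
      · intro hb
        have hb' : Finsupp.mapDomain π b = 0 := hb
        obtain ⟨m, e1, e2⟩ := flow_exact (T := T) (fun v => r (π v))
          (fun v => (components _ _).1 (hr (π v))) b (by
            have e3 : Finsupp.mapDomain (fun v => r (π v)) b =
                Finsupp.mapDomain r (Finsupp.mapDomain π b) := Finsupp.mapDomain_comp
            rw [e3, hb', Finsupp.mapDomain_zero])
        exact ⟨⟨m, e1⟩, e2⟩
      · rintro ⟨m, rfl⟩
        show Finsupp.lmapDomain ℚ ℚ π (bdL T m.1) = 0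
        rw [bdL_apply, map_sub]
        show Finsupp.mapDomain π (Finsupp.mapDomain _ m.1) -
          Finsupp.mapDomain π (Finsupp.mapDomain _ m.1) = 0
        rw [← Finsupp.mapDomain_comp, ← Finsupp.mapDomain_comp]
        have e4 : (π ∘ fun d : Dt T => d.1.2) = (π ∘ fun d : Dt T => d.1.1) := by
          funext d
          exact (components _ _).2 d.2.symm.reachable
        rw [e4, sub_self]
    · intro x
      refine ⟨Finsupp.mapDomain r x, ?_⟩
      show Finsupp.mapDomain π (Finsupp.mapDomain r x) = x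
      rw [← Finsupp.mapDomain_comp]
      have e5 : π ∘ r = id := funext hr
      rw [e5, Finsupp.mapDomain_id]
  | finite X V π π_act π_surjective fibres above ih =>
    refine ih.retract (avg π fibres).toAddMonoidHom (Finsupp.lmapDomain ℚ ℚ π).toAddMonoidHom
      ?_ ?_ ?_
    · intro g f
      exact avg_act π fibres π_act g f
    · intro g b
      show Finsupp.mapDomain π (Finsupp.mapDomain (fun x : V => g • x) b) =
        Finsupp.mapDomain (fun x : X => g • x) (Finsupp.mapDomain π b)
      rw [← Finsupp.mapDomain_comp, ← Finsupp.mapDomain_comp]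
      congr 1
      funext v
      exact π_act g v
    · intro f
      exact avg_section π fibres π_surjective f

/-- The splitting. -/
theorem RelRes.hsplit {G : Type u} [Group G] (R : RelRes ℚ G) (a1 : Hier G R.X₁)
    (a2 : ∀ x : R.X₂, FoelnerAmenable (MulAction.stabilizer G x)) (C : FinRes G)
    (h0 : ¬ Nontrivial (C.homology 0)) (h1 : ¬ Nontrivial (C.homology 1))
    (h2 : ¬ Nontrivial (C.homology 2)) :
    ∃ n : R.N, (∀ g : G, g • n = n) ∧ R.ε n = 1 :=
  chase (permHom G ℚ R.X₂) (permHom G ℚ R.X₁) (DistribMulAction.toAddMonoidEnd G R.N) C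
    R.d₂ R.d₁ R.ε R.d₂_act R.d₁_act R.ε_act R.injective R.exact₁ R.exactN R.surjective
    (perm_trivial a2 C h0 h1 h2 1 le_rfl) ((van_fin_iff C 0).2 (hier_van C h0 h1 h2 a1))

/-- Actions on trees. -/
theorem tree_false {G : Type u} [Group G] {V : Type u} [MulAction G V] (T : SimpleGraph V)
    (E : SubMulAction G (V × V)) (hT : T.IsTree) (hE : ∀ p, p ∈ E ↔ T.Adj p.1 p.2)
    (hinf : ∀ v : V, (MulAction.orbit G v).Infinite) (hH : Hier G E) (C : FinRes G)
    (h0 : ¬ Nontrivial (C.homology 0)) (h1 : ¬ Nontrivial (C.homology 1))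
    (h2 : ¬ Nontrivial (C.homology 2)) : False := by
  have act : ∀ (g : G) (v w : V), T.Adj v w → T.Adj (g • v) (g • w) := fun g v w h =>
    (hE (g • (v, w))).1 (E.smul_mem g ((hE (v, w)).2 h))
  let _ := dartAct act
  -- the oriented edges
  let q : E → Dt T := fun p => ⟨p.1, (hE _).1 p.2⟩
  let q' : Dt T → E := fun d => ⟨d.1, (hE _).2 d.2⟩
  have hq : ∀ (g : G) (p : E), q (g • p) = g • q p := fun g p => rfl
  have hq' : ∀ (g : G) (d : Dt T), q' (g • d) = g • q' d := fun g p => rfl
  have hD : Van C 0 (finHom G (Dt T)) := by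
    refine (hier_van C h0 h1 h2 hH).retract (ρA := finHom G (Dt T))
      (Finsupp.lmapDomain ℚ ℚ q').toAddMonoidHom (Finsupp.lmapDomain ℚ ℚ q).toAddMonoidHom ?_ ?_ ?_
    · intro g m
      show Finsupp.mapDomain q' (Finsupp.mapDomain (fun x : Dt T => g • x) m) =
        Finsupp.mapDomain (fun x : E => g • x) (Finsupp.mapDomain q' m)
      rw [← Finsupp.mapDomain_comp, ← Finsupp.mapDomain_comp]
      rfl
    · intro g m
      show Finsupp.mapDomain q (Finsupp.mapDomain (fun x : E => g • x) m) =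
        Finsupp.mapDomain (fun x : Dt T => g • x) (Finsupp.mapDomain q m)
      rw [← Finsupp.mapDomain_comp, ← Finsupp.mapDomain_comp]
      rfl
    · intro m
      show Finsupp.mapDomain q (Finsupp.mapDomain q' m) = m
      rw [← Finsupp.mapDomain_comp]
      exact Finsupp.mapDomain_id
  have hA : Van C 0 (altHom act) := alt_van act C 0 hD
  obtain ⟨v0⟩ := hT.connected.nonempty
  let ε : (V →₀ ℚ) →ₗ[ℚ] ℚ := Finsupp.linearCombination ℚ (fun _ : V => (1 : ℚ))
  have hε : ∀ {Y : Type u} (f : Y → V) (m : Y →₀ ℚ), ε (Finsupp.mapDomain f m) =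
      Finsupp.linearCombination ℚ (fun _ : Y => (1 : ℚ)) m := by
    intro Y f m
    show Finsupp.linearCombination ℚ (fun _ : V => (1 : ℚ)) (Finsupp.mapDomain f m) = _
    rw [Finsupp.linearCombination_mapDomain]
    rfl
  obtain ⟨n, hn, hn1⟩ := chase (k := ℚ) (A := PUnit) (B := altM T) (N := V →₀ ℚ)
    (1 : G →* AddMonoid.End PUnit) (altHom act) (finHom G V) C 0
    ((bdL T).toAddMonoidHom.comp (altM T).subtype) ε.toAddMonoidHom
    (fun g w => (map_zero (altHom act g)).symm)
    (fun g m => bdL_finHom act g m.1)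
    (fun g b => by
      show ε (Finsupp.mapDomain (fun x : V => g • x) b) = ε b
      rw [hε])
    (fun w _ => Subsingleton.elim _ _)
    (fun m => by
      constructor
      · intro hm
        exact ⟨PUnit.unit, (Subtype.ext (flow_zero hT.isAcyclic m.1 m.2 hm)).symm⟩
      · rintro ⟨u, rfl⟩
        rw [AddMonoidHom.zero_apply, map_zero])
    (fun b => by
      constructor
      · intro hb
        have hb' : ε b = 0 := hb
        obtain ⟨m, e1, e2⟩ := flow_exact (T := T) (fun _ => v0)
          (fun v => hT.connected.preconnected v0 v) b (by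
            have e3 : Finsupp.mapDomain (fun _ : V => v0) b = Finsupp.single v0 (ε b) := by
              show b.sum (fun _ c => Finsupp.single v0 c) = _
              show _ = Finsupp.single v0 (Finsupp.linearCombination ℚ (fun _ : V => (1 : ℚ)) b)
              rw [Finsupp.linearCombination_apply]
              unfold Finsupp.sum
              rw [Finsupp.single_finsetSum]
              simp
            rw [e3, hb', Finsupp.single_zero])
        exact ⟨⟨m, e1⟩, e2⟩
      · rintro ⟨m, rfl⟩
        show ε (bdL T m.1) = 0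
        rw [bdL_apply, map_sub, hε, hε, sub_self])
    ⟨Finsupp.single v0 1, by
      show Finsupp.linearCombination ℚ (fun _ : V => (1 : ℚ)) (Finsupp.single v0 1) = 1
      simp⟩
    (fun f _ => ⟨0, Subsingleton.elim _ _⟩) hA
  have hz : n = 0 := by
    ext x
    by_contra hx
    have hx' : n x ≠ 0 := hx
    apply hinf x
    refine n.support.finite_toSet.subset ?_
    rintro _ ⟨g, rfl⟩
    have e1 : Finsupp.mapDomain (fun y : V => g • y) n (g • x) = n x :=
      Finsupp.mapDomain_apply (MulAction.injective g) n x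
    have e2 : Finsupp.mapDomain (fun y : V => g • y) n = n := hn g
    rw [e2] at e1
    simp only [Finset.mem_coe, Finsupp.mem_support_iff]
    show n (g • x) ≠ 0
    rw [e1]
    exact hx'
  rw [hz] at hn1
  have hn2 : (ε.toAddMonoidHom : (V →₀ ℚ) →+ ℚ) 0 = 0 := map_zero _
  rw [hn2] at hn1
  exact zero_ne_one hn1

section Codim
variable {G : Type u} [Group G] {X : Type u} [MulAction G X]

open scoped Classical in
/-- the indicator function -/
def ind (B : Set X) (x : X) : ℚ := if x ∈ B then 1 else 0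

theorem ind_finite {B : Set X} (g : G) (hB : {x : X | ¬ (g⁻¹ • x ∈ B ↔ x ∈ B)}.Finite) :
    (Function.support fun x : X => ind B (g⁻¹ • x) - ind B x).Finite := by
  classical
  refine hB.subset fun x hx => ?_
  have hx' : ind B (g⁻¹ • x) - ind B x ≠ 0 := hx
  show ¬ (g⁻¹ • x ∈ B ↔ x ∈ B)
  intro h
  apply hx'
  unfold ind
  by_cases h2 : x ∈ B
  · rw [if_pos (h.2 h2), if_pos h2, sub_self]
  · rw [if_neg (fun h3 => h2 (h.1 h3)), if_neg h2, sub_self]

/-- the cocycle of an almost invariant set -/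
def dlt (B : Set X) (hB : ∀ g : G, {x : X | ¬ (g • x ∈ B ↔ x ∈ B)}.Finite) (g : G) : X →₀ ℚ :=
  Finsupp.ofSupportFinite (fun x : X => ind B (g⁻¹ • x) - ind B x) (ind_finite g (hB g⁻¹))

theorem dlt_apply (B : Set X) (hB : ∀ g : G, {x : X | ¬ (g • x ∈ B ↔ x ∈ B)}.Finite) (g : G) (x : X) :
    dlt B hB g x = ind B (g⁻¹ • x) - ind B x := rfl

theorem finHom_apply_apply (g : G) (f : X →₀ ℚ) (x : X) : finHom G X g f x = f (g⁻¹ • x) := by
  have h := Finsupp.mapDomain_apply (MulAction.injective g) f (g⁻¹ • x)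
  rw [smul_inv_smul] at h
  exact h

theorem dlt_mul (B : Set X) (hB : ∀ g : G, {x : X | ¬ (g • x ∈ B ↔ x ∈ B)}.Finite) (g h : G) :
    dlt B hB (g * h) = finHom G X g (dlt B hB h) + dlt B hB g := by
  ext x
  rw [Finsupp.add_apply, finHom_apply_apply, dlt_apply, dlt_apply, dlt_apply, mul_inv_rev,
    mul_smul]
  ring

/-- the extension given by an almost invariant set -/
def extHom (B : Set X) (hB : ∀ g : G, {x : X | ¬ (g • x ∈ B ↔ x ∈ B)}.Finite) :
    G →* AddMonoid.End (ℚ × (X →₀ ℚ)) where
  toFun g :=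
    { toFun := fun n => (n.1, finHom G X g n.2 + n.1 • dlt B hB g)
      map_zero' := by
        show ((0 : ℚ), finHom G X g 0 + (0 : ℚ) • dlt B hB g) = 0
        rw [map_zero, zero_smul, add_zero]
        rfl
      map_add' := fun a b => by
        show (a.1 + b.1, finHom G X g (a.2 + b.2) + (a.1 + b.1) • dlt B hB g) =
          (a.1 + b.1, (finHom G X g a.2 + a.1 • dlt B hB g) + (finHom G X g b.2 + b.1 • dlt B hB g))
        rw [map_add, add_smul]
        congr 1
        abel }
  map_one' := by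
    ext1 n
    show (n.1, finHom G X 1 n.2 + n.1 • dlt B hB 1) = n
    have h1 : dlt B hB 1 = 0 := by
      ext x
      rw [dlt_apply, inv_one, one_smul, sub_self]
      rfl
    rw [h1, smul_zero, add_zero, map_one]
    rfl
  map_mul' g h := by
    ext1 n
    show (n.1, finHom G X (g * h) n.2 + n.1 • dlt B hB (g * h)) =
      (n.1, finHom G X g (finHom G X h n.2 + n.1 • dlt B hB h) + n.1 • dlt B hB g)
    have h1 : finHom G X g (n.1 • dlt B hB h) = n.1 • finHom G X g (dlt B hB h) :=
      map_smul (Finsupp.lmapDomain ℚ ℚ (fun x : X => g • x)) n.1 (dlt B hB h)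
    rw [dlt_mul, map_add, h1, smul_add, map_mul, add_assoc]
    rfl

theorem extHom_apply (B : Set X) (hB : ∀ g : G, {x : X | ¬ (g • x ∈ B ↔ x ∈ B)}.Finite) (g : G)
    (n : ℚ × (X →₀ ℚ)) :
    extHom B hB g n = (n.1, finHom G X g n.2 + n.1 • dlt B hB g) := rfl

/-- An almost invariant subset of a hierarchical set is an invariant function up to a finitely
supported function. -/
theorem codim_fixed (hX : Hier G X) (B : Set X) (hB : ∀ g : G, {x : X | ¬ (g • x ∈ B ↔ x ∈ B)}.Finite)
    (C : FinRes G) (h0 : ¬ Nontrivial (C.homology 0)) (h1 : ¬ Nontrivial (C.homology 1))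
    (h2 : ¬ Nontrivial (C.homology 2)) :
    ∃ f : X →₀ ℚ, ∀ (g : G) (x : X), ind B (g • x) + f (g • x) = ind B x + f x := by
  obtain ⟨n, hn, hn1⟩ := chase (k := ℚ) (A := PUnit) (B := X →₀ ℚ) (N := ℚ × (X →₀ ℚ))
    (1 : G →* AddMonoid.End PUnit) (finHom G X) (extHom B hB) C 0
    (AddMonoidHom.inr ℚ (X →₀ ℚ)) (AddMonoidHom.fst ℚ (X →₀ ℚ))
    (fun g w => (map_zero (finHom G X g)).symm)
    (fun g f => by
      show ((0 : ℚ), finHom G X g f) = ((0 : ℚ), finHom G X g f + (0 : ℚ) • dlt B hB g)
      rw [zero_smul, add_zero])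
    (fun g n => rfl)
    (fun w _ => Subsingleton.elim _ _)
    (fun f => by
      constructor
      · intro hf
        exact ⟨PUnit.unit, (congrArg Prod.snd hf).symm⟩
      · rintro ⟨u, rfl⟩
        exact map_zero _)
    (fun n => by
      constructor
      · intro hf
        have hf' : n.1 = 0 := hf
        exact ⟨n.2, Prod.ext hf'.symm rfl⟩
      · rintro ⟨u, rfl⟩
        rfl)
    ⟨(1, 0), rfl⟩
    (fun f _ => ⟨0, Subsingleton.elim _ _⟩) (hier_van C h0 h1 h2 hX)
  refine ⟨n.2, fun g x => ?_⟩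
  have e1 : n.1 = 1 := hn1
  have e2 := congrArg (fun y : ℚ × (X →₀ ℚ) => y.2 (g • x)) (hn g)
  have e3 : (finHom G X g n.2 + n.1 • dlt B hB g) (g • x) = n.2 (g • x) := e2
  rw [Finsupp.add_apply, finHom_apply_apply, inv_smul_smul, e1, one_smul, dlt_apply,
    inv_smul_smul] at e3
  linarith

end Codim

/-- Codimension one subgroups. -/
theorem codim_false {G : Type u} [Group G] (S : Subgroup G) (hS : Hier G (G ⧸ S)) (B : Set (G ⧸ S))
    (hB : ∀ g : G, {x : G ⧸ S | ¬ (g • x ∈ B ↔ x ∈ B)}.Finite) (hi : B.Infinite) (hc : Bᶜ.Infinite) (C : FinRes G)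
    (h0 : ¬ Nontrivial (C.homology 0)) (h1 : ¬ Nontrivial (C.homology 1))
    (h2 : ¬ Nontrivial (C.homology 2)) : False := by
  classical
  obtain ⟨f, hf⟩ := codim_fixed hS B hB C h0 h1 h2
  have hconst : ∀ x y : G ⧸ S, ind B x + f x = ind B y + f y := by
    intro x y
    obtain ⟨g, rfl⟩ := MulAction.exists_smul_eq G x y
    exact (hf g x).symm
  obtain ⟨x, hx, hx'⟩ := hi.exists_notMem_finset f.support
  obtain ⟨y, hy, hy'⟩ := hc.exists_notMem_finset f.support
  have h3 := hconst x y
  rw [Finsupp.notMem_support_iff.1 hx', Finsupp.notMem_support_iff.1 hy'] at h3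
  have h4 : ind B x = 1 := if_pos hx
  have h5 : ind B y = 0 := if_neg hy
  rw [h4, h5] at h3
  norm_num at h3

/-- The final statement. -/
theorem final6 {G : Type u} [Group G] (C : FinRes G)
    (h : (∀ i, 2 < i → C.rank i = 0) ∨
      (∃ Λ : Subgroup G, FoelnerAmenable Λ ∧ ∃ j ≤ 2, Nontrivial (C.cohomology (G ⧸ Λ) j)) ∨
      ((∃ g : G, ¬ IsOfFinOrder g) ∧ Nonempty (C.cohomology G 3 ≃+ ℤ)) ∨
      (∃ (S : Subgroup G) (B : Set (G ⧸ S)), Hier G (G ⧸ S) ∧
        (∀ g : G, {x : G ⧸ S | ¬ (g • x ∈ B ↔ x ∈ B)}.Finite) ∧ B.Infinite ∧ Bᶜ.Infinite) ∨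
      (∃ (k : Type) (_ : CommRing k) (_ : Module.IsTorsionFree ℤ k) (R : RelRes k G),
        (∀ x : R.X₁, FoelnerAmenable (MulAction.stabilizer G x)) ∧
        (∀ x : R.X₂, FoelnerAmenable (MulAction.stabilizer G x)) ∧
        ∀ n : R.N, (∀ g : G, g • n = n) → R.ε n ≠ 1) ∨
      (∃ R : RelRes ℚ G, Hier G R.X₁ ∧
        (∀ x : R.X₂, FoelnerAmenable (MulAction.stabilizer G x)) ∧
        ∀ n : R.N, (∀ g : G, g • n = n) → R.ε n ≠ 1)) :
    ∃ i ≤ 2, Nontrivial (C.homology i) := by
  rcases h with h | h | h | ⟨S, B, hS, hB, hi, hc⟩ | h | ⟨R, a1, a2, hR⟩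
  · exact final C (Or.inl h)
  · exact final C (Or.inr (Or.inl h))
  · exact final C (Or.inr (Or.inr h))
  · by_contra hcon
    simp only [not_exists, not_and] at hcon
    exact codim_false S hS B hB hi hc C (hcon 0 (by norm_num)) (hcon 1 (by norm_num))
      (hcon 2 le_rfl)
  · exact final4 C (Or.inr (Or.inr (Or.inr h)))
  · by_contra hcon
    simp only [not_exists, not_and] at hcon
    obtain ⟨n, hn, hn1⟩ := R.hsplit a1 a2 C (hcon 0 (by norm_num)) (hcon 1 (by norm_num))
      (hcon 2 le_rfl)
    exact hR n hn hn1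

end

end Z9f173d
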