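import Pool.Agent.Lib.Z9f173d.Rep

/-!
# Twisted quasi-regular representations
-/

namespace Z9f173d

noncomputable section

open scoped Matrix ComplexConjugate

variable {G : Type*} [Group G] (Λ : Subgroup G)

/-- `h = out (hΛ) * tau h`. -/
def tau (h : G) : Λ := ⟨(Quotient.out (h : G ⧸ Λ))⁻¹ * h, QuotientGroup.eq.1 (QuotientGroup.out_eq' _)⟩

theorem out_mul_tau (h : G) : Quotient.out (h : G ⧸ Λ) * (tau Λ h : G) = h := by
  simp [tau]

theorem tau_mul (h : G) (k : Λ) : tau Λ (h * k) = tau Λ h * k := by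
  have : ((h * k : G) : G ⧸ Λ) = (h : G ⧸ Λ) := by
    rw [QuotientGroup.eq]
    simp
  ext
  simp [tau, this, mul_assoc]

theorem tau_out (c : G ⧸ Λ) : tau Λ (Quotient.out c) = 1 := by
  ext
  simp [tau, QuotientGroup.out_eq']

variable {Λ} (χ : Λ →* Circle)

/-- the function on `G` associated with `φ : G/Λ → ℂ` -/
def Ufun (φ : G ⧸ Λ → ℂ) (h : G) : ℂ := (χ (tau Λ h) : ℂ) * φ (h : G ⧸ Λ)

theorem Ufun_mul (φ : G ⧸ Λ → ℂ) (h : G) (k : Λ) : Ufun χ φ (h * k) = (χ k : ℂ) * Ufun χ φ h := by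
  have : ((h * k : G) : G ⧸ Λ) = (h : G ⧸ Λ) := by
    rw [QuotientGroup.eq]
    simp
  rw [Ufun, Ufun, tau_mul, this, map_mul, Circle.coe_mul]
  ring

theorem norm_Ufun (φ : G ⧸ Λ → ℂ) (h : G) : ‖Ufun χ φ h‖ = ‖φ (h : G ⧸ Λ)‖ := by
  rw [Ufun, norm_mul, Circle.norm_coe, one_mul]

theorem Ufun_out (φ : G ⧸ Λ → ℂ) (c : G ⧸ Λ) : Ufun χ φ (Quotient.out c) = φ c := by
  rw [Ufun, tau_out, map_one, Circle.coe_one, one_mul, QuotientGroup.out_eq']

/-- every `χ`-equivariant function is of the form `Ufun` -/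
theorem Ufun_surj (F : G → ℂ) (hF : ∀ h (k : Λ), F (h * k) = (χ k : ℂ) * F h) :
    Ufun χ (fun c => F (Quotient.out c)) = F := by
  ext h
  rw [Ufun, ← hF, out_mul_tau]

theorem mk_inv_mul_out (g : G) (c : G ⧸ Λ) : ((g⁻¹ * Quotient.out c : G) : G ⧸ Λ) = g⁻¹ • c := by
  conv_rhs => rw [← QuotientGroup.out_eq' c]
  rfl

theorem memlp_qreg (g : G) (φ : L2 (G ⧸ Λ)) :
    Memℓp (E := fun _ : G ⧸ Λ => ℂ) (fun c => Ufun χ φ (g⁻¹ * Quotient.out c)) 2 := by
  have h := φ.2.summable (by norm_num)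
  refine memℓp_gen ?_
  simp only [norm_Ufun, mk_inv_mul_out]
  exact (MulAction.toPerm g⁻¹).summable_iff.mpr h

/-- the linear maps of the twisted quasi-regular representation -/
def qregLin (g : G) : L2 (G ⧸ Λ) →ₗ[ℂ] L2 (G ⧸ Λ) where
  toFun φ := ⟨fun c => Ufun χ φ (g⁻¹ * Quotient.out c), memlp_qreg χ g φ⟩
  map_add' φ ψ := by
    ext c
    show Ufun χ (φ + ψ : L2 (G ⧸ Λ)) _ = Ufun χ φ _ + Ufun χ ψ _
    simp [Ufun, mul_add]
  map_smul' a φ := by
    ext c
    show Ufun χ (a • φ : L2 (G ⧸ Λ)) _ = a * Ufun χ φ _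
    simp [Ufun]
    ring

theorem qregLin_apply (g : G) (φ : L2 (G ⧸ Λ)) (c : G ⧸ Λ) :
    qregLin χ g φ c = Ufun χ φ (g⁻¹ * Quotient.out c) := rfl

theorem norm_qregLin (g : G) (φ : L2 (G ⧸ Λ)) : ‖qregLin χ g φ‖ = ‖φ‖ := by
  have h2 : (0 : ℝ) < (2 : ENNReal).toReal := by norm_num
  rw [lp.norm_eq_tsum_rpow h2, lp.norm_eq_tsum_rpow h2]
  congr 1
  simp only [qregLin_apply, norm_Ufun, mk_inv_mul_out]
  exact (MulAction.toPerm g⁻¹).tsum_eq (fun x => ‖φ x‖ ^ (2 : ENNReal).toReal)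

theorem Ufun_qregLin (g : G) (φ : L2 (G ⧸ Λ)) (h : G) :
    Ufun χ (qregLin χ g φ) h = Ufun χ φ (g⁻¹ * h) := by
  have h1 : Ufun χ (qregLin χ g φ) h = Ufun χ (qregLin χ g φ)
      (Quotient.out (h : G ⧸ Λ) * (tau Λ h : G)) := by rw [out_mul_tau]
  rw [h1, Ufun_mul, Ufun_out, qregLin_apply, ← Ufun_mul, mul_assoc, out_mul_tau]

theorem Ufun_injective {φ ψ : L2 (G ⧸ Λ)} (h : ∀ x, Ufun χ φ x = Ufun χ ψ x) : φ = ψ := by
  ext c
  rw [← Ufun_out χ φ c, ← Ufun_out χ ψ c, h]

/-- the twisted quasi-regular representation -/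
def qreg : G →* (L2 (G ⧸ Λ) →L[ℂ] L2 (G ⧸ Λ)) where
  toFun g := (qregLin χ g).mkContinuous 1 (fun φ => by rw [norm_qregLin, one_mul])
  map_one' := by
    ext1 φ
    refine Ufun_injective χ fun x => ?_
    show Ufun χ (qregLin χ 1 φ) x = _
    rw [Ufun_qregLin]
    simp
  map_mul' g h := by
    ext1 φ
    refine Ufun_injective χ fun x => ?_
    show Ufun χ (qregLin χ (g * h) φ) x = Ufun χ (qregLin χ g (qregLin χ h φ)) x
    rw [Ufun_qregLin, Ufun_qregLin, Ufun_qregLin]
    simp [mul_assoc]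

theorem qreg_apply (g : G) (φ : L2 (G ⧸ Λ)) (c : G ⧸ Λ) :
    qreg χ g φ c = Ufun χ φ (g⁻¹ * Quotient.out c) := rfl

theorem Ufun_qreg (g : G) (φ : L2 (G ⧸ Λ)) (h : G) :
    Ufun χ (qreg χ g φ) h = Ufun χ φ (g⁻¹ * h) := Ufun_qregLin χ g φ h

/-! ### Weak containment -/

/-- basis vectors -/
def del {X : Type*} (x : X) : L2 X := by
  classical
  exact lp.single 2 x (1 : ℂ)

theorem del_apply {X : Type*} [DecidableEq X] (x y : X) :
    del x y = if y = x then (1 : ℂ) else 0 := by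
  unfold del
  by_cases h : y = x
  · subst h
    simp
  · simp [h]

theorem inner_del {X : Type*} (x : X) (f : L2 X) : inner ℂ (del x) f = f x := by
  classical
  unfold del
  rw [lp.inner_single_left]
  simp

theorem inner_del_right {X : Type*} (x : X) (f : L2 X) : inner ℂ f (del x) = conj (f x) := by
  rw [← inner_conj_symm, inner_del]

theorem orthonormal_del {X : Type*} : Orthonormal ℂ (del : X → L2 X) := by
  classical
  rw [orthonormal_iff_ite]
  intro i j
  rw [inner_del, del_apply]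

theorem lreg_del (g x : G) : lreg g (del x) = del (g * x) := by
  classical
  ext y
  rw [lreg_apply, del_apply, del_apply]
  congr 1
  rw [eq_iff_iff]
  constructor
  · intro h; rw [← h]; simp
  · intro h; rw [h]; simp

/-- the approximating vectors -/
def eK (K : Finset Λ) (c : G ⧸ Λ) : L2 G :=
  (((Real.sqrt K.card)⁻¹ : ℝ) : ℂ) • ∑ k ∈ K, (χ k : ℂ) • del (Quotient.out c * (k : G))

theorem inner_comb {ι : Type*} [DecidableEq G] (K K' : Finset ι) (p r : ι → G) (a b : ι → ℂ) :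
    inner ℂ (∑ k ∈ K, a k • del (p k)) (∑ k' ∈ K', b k' • del (r k'))
      = ∑ k ∈ K, ∑ k' ∈ K', conj (a k) * b k' * (if p k = r k' then 1 else 0) := by
  rw [sum_inner]
  refine Finset.sum_congr rfl fun k _ => ?_
  rw [inner_smul_left, inner_sum, Finset.mul_sum]
  refine Finset.sum_congr rfl fun k' _ => ?_
  rw [inner_smul_right, inner_del, del_apply]
  ring

theorem circle_conj_mul (z : Circle) : conj (z : ℂ) * (z : ℂ) = 1 := by
  rw [← Circle.coe_inv_eq_conj, ← Circle.coe_mul]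
  simp

theorem inner_eK (K : Finset Λ) (hK : K.Nonempty) (c c' : G ⧸ Λ) [DecidableEq (G ⧸ Λ)] :
    inner ℂ (eK χ K c) (eK χ K c') = if c = c' then 1 else 0 := by
  classical
  have hcard : (0 : ℝ) < K.card := by exact_mod_cast hK.card_pos
  rw [eK, eK, inner_smul_left, inner_smul_right, inner_comb]
  have hkey : ∀ k k' : Λ, (Quotient.out c * (k : G) = Quotient.out c' * (k' : G))
      ↔ (c = c' ∧ k = k') := by
    intro k k'
    constructor
    · intro h
      have h1 : c = c' := by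
        have h2 : ((Quotient.out c * (k : G) : G) : G ⧸ Λ) = c := by
          conv_rhs => rw [← QuotientGroup.out_eq' c]
          rw [QuotientGroup.eq]; simp
        have h3 : ((Quotient.out c' * (k' : G) : G) : G ⧸ Λ) = c' := by
          conv_rhs => rw [← QuotientGroup.out_eq' c']
          rw [QuotientGroup.eq]; simp
        rw [← h2, ← h3, h]
      subst h1
      exact ⟨rfl, Subtype.ext (mul_left_cancel h)⟩
    · rintro ⟨rfl, rfl⟩; rfl
  by_cases hc : c = c'
  · subst hc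
    have hs : ∑ k ∈ K, ∑ k' ∈ K, conj (χ k : ℂ) * (χ k' : ℂ) *
        (if Quotient.out c * (k : G) = Quotient.out c * (k' : G) then (1 : ℂ) else 0)
        = K.card := by
      have : ∀ k ∈ K, ∑ k' ∈ K, conj (χ k : ℂ) * (χ k' : ℂ) *
        (if Quotient.out c * (k : G) = Quotient.out c * (k' : G) then (1 : ℂ) else 0) = 1 := by
        intro k hk
        rw [Finset.sum_eq_single k]
        · simp [circle_conj_mul]
        · intro b _ hb
          rw [if_neg, mul_zero]
          intro h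
          exact hb ((hkey k b).1 h).2.symm
        · intro h; exact absurd hk h
      rw [Finset.sum_congr rfl this]
      simp
    rw [hs, if_pos rfl, Complex.conj_ofReal, ← mul_assoc, ← Complex.ofReal_mul,
      ← Complex.ofReal_natCast, ← Complex.ofReal_mul]
    have : (Real.sqrt K.card)⁻¹ * (Real.sqrt K.card)⁻¹ * (K.card : ℝ) = 1 := by
      rw [← mul_inv, Real.mul_self_sqrt hcard.le, inv_mul_cancel₀ hcard.ne']
    rw [this]; simp
  · have hs : ∑ k ∈ K, ∑ k' ∈ K, conj (χ k : ℂ) * (χ k' : ℂ) *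
        (if Quotient.out c * (k : G) = Quotient.out c' * (k' : G) then (1 : ℂ) else 0) = 0 := by
      refine Finset.sum_eq_zero fun k _ => Finset.sum_eq_zero fun k' _ => ?_
      rw [if_neg, mul_zero]
      intro h
      exact hc ((hkey k k').1 h).1
    rw [hs, if_neg hc]
    simp

theorem orthonormal_eK (K : Finset Λ) (hK : K.Nonempty) : Orthonormal ℂ (eK χ K) := by
  classical
  rw [orthonormal_iff_ite]
  intro c c'
  exact inner_eK χ K hK c c'

/-- the cocycle -/
def sig (g : G) (c : G ⧸ Λ) : Λ := tau Λ (g * Quotient.out c)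

theorem mk_mul_out (g : G) (c : G ⧸ Λ) : ((g * Quotient.out c : G) : G ⧸ Λ) = g • c := by
  conv_rhs => rw [← QuotientGroup.out_eq' c]
  rfl

theorem mul_out (g : G) (c : G ⧸ Λ) :
    g * Quotient.out c = Quotient.out (g • c) * (sig g c : G) := by
  rw [sig, ← mk_mul_out, out_mul_tau]

theorem qreg_del (g : G) (c : G ⧸ Λ) :
    qreg χ g (del c) = (χ (sig g c)⁻¹ : ℂ) • del (g • c) := by
  classical
  ext c'
  rw [qreg_apply, Ufun, mk_inv_mul_out, del_apply]
  show _ = _ * del (g • c) c'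
  rw [del_apply]
  by_cases h : c' = g • c
  · subst h
    rw [if_pos (by simp), if_pos rfl]
    congr 3
    have h1 : g⁻¹ * Quotient.out (g • c) = Quotient.out c * ((sig g c)⁻¹ : Λ) := by
      have := mul_out g c
      rw [Subgroup.coe_inv, eq_mul_inv_iff_mul_eq, mul_assoc, ← this]
      simp
    rw [h1, tau_mul, tau_out, one_mul]
  · rw [if_neg, if_neg h]
    · simp
    · intro h1
      exact h (by rw [← h1]; simp)

theorem inner_key (K : Finset Λ) (hK : K.Nonempty) (g : G) (c : G ⧸ Λ) :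
    inner ℂ ((χ (sig g c)⁻¹ : ℂ) • eK χ K (g • c)) (lreg g (eK χ K c))
      = ((1 - (Nat.card {k : Λ // k ∈ K ∧ sig g c * k ∉ K} : ℝ) / K.card : ℝ) : ℂ) := by
  classical
  have hcard : (0 : ℝ) < K.card := by exact_mod_cast hK.card_pos
  set σ := sig g c with hσ
  have h1 : lreg g (eK χ K c) = (((Real.sqrt K.card)⁻¹ : ℝ) : ℂ) •
      ∑ k ∈ K, (χ k : ℂ) • del (Quotient.out (g • c) * ((σ * k : Λ) : G)) := by
    rw [eK, map_smul, map_sum]
    congr 1
    refine Finset.sum_congr rfl fun k _ => ?_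
    rw [map_smul, lreg_del, ← mul_assoc, mul_out, mul_assoc, Subgroup.coe_mul]
  have h2 : (χ σ⁻¹ : ℂ) • eK χ K (g • c) = (((Real.sqrt K.card)⁻¹ : ℝ) : ℂ) •
      ∑ k ∈ K, (χ (σ⁻¹ * k) : ℂ) • del (Quotient.out (g • c) * ((k : Λ) : G)) := by
    rw [eK, smul_comm, Finset.smul_sum]
    congr 1
    refine Finset.sum_congr rfl fun k _ => ?_
    rw [smul_smul, map_mul, Circle.coe_mul]
  rw [h1, h2, inner_smul_left, inner_smul_right, inner_comb]
  have hs : ∑ k ∈ K, ∑ k' ∈ K, conj (χ (σ⁻¹ * k) : ℂ) * (χ k' : ℂ) *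
      (if Quotient.out (g • c) * (k : G) = Quotient.out (g • c) * ((σ * k' : Λ) : G)
        then (1 : ℂ) else 0) = ((K.filter fun k' => σ * k' ∈ K).card : ℂ) := by
    rw [Finset.sum_comm]
    have : ∀ k' ∈ K, ∑ k ∈ K, conj (χ (σ⁻¹ * k) : ℂ) * (χ k' : ℂ) *
      (if Quotient.out (g • c) * (k : G) = Quotient.out (g • c) * ((σ * k' : Λ) : G)
        then (1 : ℂ) else 0) = if σ * k' ∈ K then 1 else 0 := by
      intro k' _
      by_cases hk : σ * k' ∈ K
      · rw [if_pos hk, Finset.sum_eq_single (σ * k')]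
        · rw [if_pos rfl, inv_mul_cancel_left, circle_conj_mul, mul_one]
        · intro b _ hb
          rw [if_neg, mul_zero]
          intro h
          exact hb (Subtype.ext (mul_left_cancel h))
        · intro h; exact absurd hk h
      · rw [if_neg hk]
        refine Finset.sum_eq_zero fun k hkK => ?_
        rw [if_neg, mul_zero]
        intro h
        apply hk
        have := Subtype.ext (mul_left_cancel h)
        rwa [← this]
    rw [Finset.sum_congr rfl this, Finset.sum_ite]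
    simp
  rw [hs]
  have hcard2 : (Nat.card {k : Λ // k ∈ K ∧ σ * k ∉ K} : ℝ)
      = K.card - (K.filter fun k' => σ * k' ∈ K).card := by
    have h3 : Nat.card {k : Λ // k ∈ K ∧ σ * k ∉ K} = (K.filter fun k' => ¬ σ * k' ∈ K).card := by
      rw [← Nat.card_eq_finsetCard]
      refine Nat.card_congr (Equiv.subtypeEquivRight fun k => ?_)
      simp
    have h4 := Finset.card_filter_add_card_filter_not (s := K) (fun k' => σ * k' ∈ K)
    rw [h3, ← h4]
    push_cast
    ring
  rw [hcard2, Complex.conj_ofReal, ← mul_assoc, ← Complex.ofReal_mul, ← Complex.ofReal_natCast,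
    ← Complex.ofReal_mul]
  congr 1
  rw [← mul_inv, Real.mul_self_sqrt hcard.le]
  field_simp
  ring

end

end Z9f173d
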