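import Pool.Agent.Lib.Z9f173d.Defs

/-!
# Another description of the reduced `C*`-algebra
-/

namespace Z9f173d

noncomputable section

section
variable {G : Type*} [Group G]

/-- The left translation operator on `ℓ²(G)`, as a linear map. -/
def lregLin (g : G) : L2 G →ₗ[ℂ] L2 G where
  toFun ξ := ⟨fun x => ξ (g⁻¹ * x), memlp_translate g ξ⟩
  map_add' ξ η := by ext x; rfl
  map_smul' c ξ := by ext x; rfl

theorem lregLin_apply (g : G) (ξ : L2 G) (x : G) : lregLin g ξ x = ξ (g⁻¹ * x) := rfl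

theorem norm_lregLin (g : G) (ξ : L2 G) : ‖lregLin g ξ‖ = ‖ξ‖ := norm_lamFun g ξ

/-- The left regular representation `λ : G → B(ℓ²(G))`, `(λ(g) ξ)(x) = ξ(g⁻¹ x)`. -/
def lreg : G →* (L2 G →L[ℂ] L2 G) where
  toFun g := (lregLin g).mkContinuous 1 (fun ξ => by rw [norm_lregLin, one_mul])
  map_one' := by
    ext ξ x
    simp [lregLin_apply]
  map_mul' g h := by
    ext ξ x
    simp [lregLin_apply, mul_assoc]

@[simp] theorem lreg_apply (g : G) (ξ : L2 G) (x : G) : lreg g ξ x = ξ (g⁻¹ * x) := rfl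

end

/-- The reduced `C*`-algebra `C_r^*(G)` as an algebra: the norm closure in `B(ℓ²(G))` of the complex
span `ℂ[G]` of the operators `λ(g)`. -/
def RedCStar (G : Type*) [Group G] : Subalgebra ℂ (L2 G →L[ℂ] L2 G) :=
  (Algebra.adjoin ℂ (Set.range (lreg : G →* (L2 G →L[ℂ] L2 G)))).topologicalClosure

/-- The group homomorphism `G → C_r^*(G)`. -/
def grpHom (G : Type*) [Group G] : G →* RedCStar G where
  toFun g := ⟨lreg g, Subalgebra.le_topologicalClosure _ (Algebra.subset_adjoin ⟨g, rfl⟩)⟩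
  map_one' := by ext1; exact map_one lreg
  map_mul' g h := by ext1; exact map_mul lreg g h

/-- The ring homomorphism `ℤ[G] → C_r^*(G)`. -/
def ringHom (G : Type*) [Group G] : MonoidAlgebra ℤ G →+* RedCStar G :=
  (MonoidAlgebra.lift ℤ (RedCStar G) G (grpHom G)).toRingHom

variable {G : Type*} [Group G]

theorem scLam_eq (c : ℂ) (g : G) : scLam c g = (c • lreg g : L2 G →L[ℂ] L2 G) := rfl

theorem redAlg_le (T : Ops G) (hT : T ∈ redAlg G) : (T : L2 G →L[ℂ] L2 G) ∈ RedCStar G := by
  have hle : Subring.closure {T : Ops G | ∃ (c : ℂ) (g : G), T = scLam c g}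
      ≤ ((Algebra.adjoin ℂ (Set.range (lreg : G →* (L2 G →L[ℂ] L2 G)))).toSubring :
          Subring (L2 G →L[ℂ] L2 G)) := by
    refine Subring.closure_le.2 ?_
    rintro _ ⟨c, g, rfl⟩
    rw [scLam_eq]
    have h0 : (lreg g : L2 G →L[ℂ] L2 G) ∈
        Algebra.adjoin ℂ (Set.range (lreg : G →* (L2 G →L[ℂ] L2 G))) :=
      Algebra.subset_adjoin ⟨g, rfl⟩
    exact Subalgebra.smul_mem _ h0 c
  have h1 : (T : L2 G →L[ℂ] L2 G) ∈ closure ((Subring.closure
      {T : Ops G | ∃ (c : ℂ) (g : G), T = scLam c g} : Subring (Ops G)) : Set (Ops G)) := hT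
  have h2 := closure_mono (show ((Subring.closure
      {T : Ops G | ∃ (c : ℂ) (g : G), T = scLam c g} : Subring (Ops G)) : Set (Ops G)) ⊆
      ((Algebra.adjoin ℂ (Set.range (lreg : G →* (L2 G →L[ℂ] L2 G)))
        : Subalgebra ℂ (L2 G →L[ℂ] L2 G)) : Set (L2 G →L[ℂ] L2 G)) from fun x hx => hle hx) h1
  exact h2

/-- the comparison homomorphism -/
def toOld (G : Type*) [Group G] : CRed G →+* RedCStar G where
  toFun T := ⟨T.1, redAlg_le T.1 T.2⟩
  map_one' := rfl
  map_mul' _ _ := rfl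
  map_zero' := rfl
  map_add' _ _ := rfl

theorem toOld_lamC (g : G) : toOld G (lamC G g) = grpHom G g := by
  apply Subtype.ext
  show (scLam 1 g : L2 G →L[ℂ] L2 G) = lreg g
  rw [scLam_eq, one_smul]

theorem toOld_toCRed (a : MonoidAlgebra ℤ G) : toOld G (toCRed G a) = ringHom G a := by
  induction a using MonoidAlgebra.induction_linear with
  | zero => simp
  | add a b ha hb => simp only [map_add, ← ha, ← hb]
  | single g z =>
    have h1 : ringHom G (MonoidAlgebra.single g z) = z • grpHom G g := by simp [ringHom]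
    have h2 : toCRed G (MonoidAlgebra.single g z) = z • lamC G g := by simp [toCRed]
    rw [h1, h2, map_zsmul, toOld_lamC]

end

end Z9f173d
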