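import Pool.Agent.Lib.Z9f173d.Defs

/-!
# Relative resolutions of length two by permutation modules: definition
-/

namespace Z9f173d

universe u

noncomputable section

/-- An exact sequence `0 → k[X₂] → k[X₁] → N → k → 0` of `G`-modules, where `X₁`, `X₂` are `G`-sets,
`k[X]` is the permutation module of a `G`-set `X`, and `G` acts trivially on `k`.

Example: the chains `0 → k[X₂] → k[X₁] → k[X₀] → k → 0` of a two-dimensional complex which is acyclic
over `k` and on which `G` acts, with sets of cells `X₀`, `X₁`, `X₂` (see `RelRes.ofComplex`). -/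
structure RelRes (k : Type) [CommRing k] (G : Type u) [Group G] where
  /-- the first `G`-set -/
  X₁ : Type u
  /-- the second `G`-set -/
  X₂ : Type u
  /-- the module -/
  N : Type u
  [act₁ : MulAction G X₁]
  [act₂ : MulAction G X₂]
  [grp : AddCommGroup N]
  [actN : DistribMulAction G N]
  /-- the map `k[X₂] → k[X₁]` -/
  d₂ : MonoidAlgebra k X₂ →+ MonoidAlgebra k X₁
  /-- the map `k[X₁] → N` -/
  d₁ : MonoidAlgebra k X₁ →+ N
  /-- the map `N → k` -/
  ε : N →+ k
  d₂_act : ∀ (g : G) (c : MonoidAlgebra k X₂),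
    d₂ (Representation.ofMulAction k G X₂ g c) = Representation.ofMulAction k G X₁ g (d₂ c)
  d₁_act : ∀ (g : G) (c : MonoidAlgebra k X₁),
    d₁ (Representation.ofMulAction k G X₁ g c) = g • d₁ c
  ε_act : ∀ (g : G) (n : N), ε (g • n) = ε n
  injective : ∀ c, d₂ c = 0 → c = 0
  exact₁ : ∀ c, d₁ c = 0 ↔ ∃ b, d₂ b = c
  exactN : ∀ n, ε n = 0 ↔ ∃ c, d₁ c = n
  surjective : ∃ n, ε n = 1

attribute [instance] RelRes.act₁ RelRes.act₂ RelRes.grp RelRes.actN

end

end Z9f173d
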