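import Pool.Agent.Lib.Z9f173d.Contr
import Pool.Agent.Lib.Z9f173d.Reg

/-!
# Representations weakly contained in the regular representation
-/

namespace Z9f173d

noncomputable section

open scoped Matrix

variable {G : Type*} [Group G]

/-- `ℤ[G] → ℂ[G]` -/
def cmap (G : Type*) [Group G] : MonoidAlgebra ℤ G →+* MonoidAlgebra ℂ G :=
  MonoidAlgebra.mapRingHom G (algebraMap ℤ ℂ)

section
variable {V : Type*} [NormedAddCommGroup V] [NormedSpace ℂ V] (ρ : G →* (V →L[ℂ] V))

/-- the extension of a representation to `ℂ[G]` -/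
def repAlg : MonoidAlgebra ℂ G →ₐ[ℂ] (V →L[ℂ] V) := MonoidAlgebra.lift ℂ _ G ρ

theorem repAlg_single (g : G) (c : ℂ) (v : V) :
    repAlg ρ (MonoidAlgebra.single g c) v = c • ρ g v := by
  simp [repAlg]

/-- forgetting continuity -/
def toEnd (V : Type*) [NormedAddCommGroup V] [NormedSpace ℂ V] : (V →L[ℂ] V) →+* AddMonoid.End V where
  toFun T := (T : V →ₗ[ℂ] V).toAddMonoidHom
  map_one' := rfl
  map_mul' _ _ := rfl
  map_zero' := rfl
  map_add' _ _ := rfl

@[simp] theorem toEnd_apply (T : V →L[ℂ] V) (v : V) : toEnd V T v = T v := rfl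

/-- the action of `ℤ[G]` on `V` -/
def vth : MonoidAlgebra ℤ G →+* AddMonoid.End V := th ((toEnd V : _ →* _).comp ρ)

/-- the action of `ℂ[G]` on `V` -/
def cth : MonoidAlgebra ℂ G →+* AddMonoid.End V := (toEnd V).comp (repAlg ρ).toRingHom

theorem cth_apply (a : MonoidAlgebra ℂ G) (v : V) : cth ρ a v = repAlg ρ a v := rfl

theorem cth_cmap (a : MonoidAlgebra ℤ G) : cth ρ (cmap G a) = vth ρ a := by
  have h : (cth ρ).comp (cmap G) = vth ρ := by
    refine th_unique _ _ fun g v => ?_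
    show repAlg ρ (cmap G (MonoidAlgebra.single g 1)) v = ρ g v
    simp [cmap, repAlg_single]
  exact RingHom.congr_fun h a

theorem vth_single (g : G) (z : ℤ) (v : V) :
    vth ρ (MonoidAlgebra.single g z) v = z • ρ g v := th_single _ _ _ _

theorem mact_cmap {m n : ℕ} (M : Matrix (Fin m) (Fin n) (MonoidAlgebra ℤ G)) (f : Fin n → V) :
    mact (cth ρ) (M.map (cmap G)) f = mact (vth ρ) M f := by
  ext i
  simp [mact_apply, cth_cmap]

/-- weak containment in the left regular representation -/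
def WeakCont : Prop := ∀ e : MonoidAlgebra ℂ G, ‖repAlg ρ e‖ ≤ ‖repAlg (lreg (G := G)) e‖

/-- the continuous version of `mact` -/
def mactL {m n : ℕ} (M : Matrix (Fin m) (Fin n) (MonoidAlgebra ℂ G)) :
    (Fin n → V) →L[ℂ] (Fin m → V) :=
  ContinuousLinearMap.pi fun i => ∑ j, (repAlg ρ (M i j)).comp (ContinuousLinearMap.proj j)

theorem mactL_apply {m n : ℕ} (M : Matrix (Fin m) (Fin n) (MonoidAlgebra ℂ G)) (f : Fin n → V) :
    mactL ρ M f = mact (cth ρ) M f := by
  ext i
  simp [mactL, mact_apply, cth_apply]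

theorem norm_mactL_le {n : ℕ} (M : Matrix (Fin n) (Fin n) (MonoidAlgebra ℂ G)) (δ : ℝ)
    (hδ : 0 ≤ δ) (h : ∀ i j, ‖repAlg ρ (M i j)‖ ≤ δ) : ‖mactL ρ M‖ ≤ n * δ := by
  refine ContinuousLinearMap.opNorm_le_bound _ (by positivity) fun f => ?_
  rw [pi_norm_le_iff_of_nonneg (by positivity)]
  intro i
  rw [mactL_apply, mact_apply]
  refine (norm_sum_le _ _).trans ?_
  calc ∑ j, ‖cth ρ (M i j) (f j)‖ ≤ ∑ _j : Fin n, δ * ‖f‖ := by
        refine Finset.sum_le_sum fun j _ => ?_
        rw [cth_apply]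
        refine (ContinuousLinearMap.le_opNorm _ _).trans ?_
        exact mul_le_mul (h i j) (norm_le_pi_norm f j) (norm_nonneg _) hδ
    _ = n * δ * ‖f‖ := by simp [mul_assoc]

end

/-- elements of `C_r^*(G)` are approximated by elements of `ℂ[G]` -/
theorem exists_approx (T : RedCStar G) {δ : ℝ} (hδ : 0 < δ) :
    ∃ e : MonoidAlgebra ℂ G, ‖(T : L2 G →L[ℂ] L2 G) - repAlg (lreg (G := G)) e‖ < δ := by
  have hT : (T : L2 G →L[ℂ] L2 G) ∈
      closure ((Algebra.adjoin ℂ (Set.range (lreg : G →* (L2 G →L[ℂ] L2 G)))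
        : Subalgebra ℂ (L2 G →L[ℂ] L2 G)) : Set (L2 G →L[ℂ] L2 G)) := T.2
  obtain ⟨e', he', hd⟩ := Metric.mem_closure_iff.1 hT δ hδ
  have hle : Algebra.adjoin ℂ (Set.range (lreg : G →* (L2 G →L[ℂ] L2 G)))
      ≤ (repAlg (lreg (G := G))).range := by
    refine Algebra.adjoin_le ?_
    rintro _ ⟨g, rfl⟩
    refine ⟨MonoidAlgebra.single g 1, ?_⟩
    ext1 ξ
    show repAlg lreg (MonoidAlgebra.single g 1) ξ = _
    rw [repAlg_single, one_smul]
  obtain ⟨e, rfl⟩ := hle he'
  exact ⟨e, by rwa [← dist_eq_norm]⟩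

theorem ringHom_coe (a : MonoidAlgebra ℤ G) :
    ((ringHom G a : RedCStar G) : L2 G →L[ℂ] L2 G) = repAlg (lreg (G := G)) (cmap G a) := by
  induction a using MonoidAlgebra.induction_linear with
  | zero => simp
  | add a b ha hb => simp only [map_add, ← ha, ← hb]; rfl
  | single g z =>
    have h1 : ringHom G (MonoidAlgebra.single g z) = z • grpHom G g := by simp [ringHom]
    have h2 : cmap G (MonoidAlgebra.single g z) = MonoidAlgebra.single g (z : ℂ) := by
      simp [cmap]
    rw [h1, h2]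
    ext1 ξ
    rw [repAlg_single]
    show ((z • grpHom G g : RedCStar G) : L2 G →L[ℂ] L2 G) ξ = _
    have h3 : ((z • grpHom G g : RedCStar G) : L2 G →L[ℂ] L2 G) = z • lreg g := rfl
    rw [h3]
    show z • (lreg g ξ) = (z : ℂ) • (lreg g ξ)
    rw [Int.cast_smul_eq_zsmul]

/-- the error matrix -/
def errM {l m p : ℕ} (D : Matrix (Fin m) (Fin l) (MonoidAlgebra ℤ G))
    (D' : Matrix (Fin p) (Fin m) (MonoidAlgebra ℤ G))
    (s : Matrix (Fin l) (Fin m) (MonoidAlgebra ℂ G))
    (s' : Matrix (Fin m) (Fin p) (MonoidAlgebra ℂ G)) :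
    Matrix (Fin m) (Fin m) (MonoidAlgebra ℂ G) :=
  D.map (cmap G) * s + s' * D'.map (cmap G) - 1

/-- approximate contraction over `ℂ[G]` -/
theorem exists_approx_contraction {l m p : ℕ} (D : Matrix (Fin m) (Fin l) (MonoidAlgebra ℤ G))
    (D' : Matrix (Fin p) (Fin m) (MonoidAlgebra ℤ G))
    (S : Matrix (Fin l) (Fin m) (RedCStar G))
    (S' : Matrix (Fin m) (Fin p) (RedCStar G))
    (h : D.map (ringHom G) * S + S' * D'.map (ringHom G) = 1)
    (δ : ℝ) (hδ : 0 < δ) :
    ∃ (s : Matrix (Fin l) (Fin m) (MonoidAlgebra ℂ G))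
      (s' : Matrix (Fin m) (Fin p) (MonoidAlgebra ℂ G)),
      ∀ a b, ‖repAlg (lreg (G := G)) (errM D D' s s' a b)‖ ≤ δ := by
  classical
  -- sequences of approximations
  have happ : ∀ T : RedCStar G, ∃ u : ℕ → MonoidAlgebra ℂ G,
      Filter.Tendsto (fun k => repAlg (lreg (G := G)) (u k)) Filter.atTop
        (nhds (T : L2 G →L[ℂ] L2 G)) := by
    intro T
    choose u hu using fun k : ℕ => exists_approx T (δ := 1 / ((k : ℝ) + 1)) (by positivity)
    refine ⟨u, ?_⟩
    rw [tendsto_iff_norm_sub_tendsto_zero]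
    refine squeeze_zero (fun _ => norm_nonneg _) (fun k => ?_)
      tendsto_one_div_add_atTop_nhds_zero_nat
    rw [norm_sub_rev]
    exact (hu k).le
  choose u hu using fun a b => happ (S a b)
  choose u' hu' using fun a b => happ (S' a b)
  have hlim : ∀ a b, Filter.Tendsto (fun k => repAlg (lreg (G := G))
      (errM D D' (Matrix.of fun a b => u a b k) (Matrix.of fun a b => u' a b k) a b))
      Filter.atTop (nhds 0) := by
    intro a b
    have hval : (0 : L2 G →L[ℂ] L2 G) =
        (∑ c, repAlg (lreg (G := G)) (cmap G (D a c)) * (S c b : L2 G →L[ℂ] L2 G))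
        + (∑ c, (S' a c : L2 G →L[ℂ] L2 G) * repAlg (lreg (G := G)) (cmap G (D' c b)))
        - repAlg (lreg (G := G)) ((1 : Matrix (Fin m) (Fin m) (MonoidAlgebra ℂ G)) a b) := by
      have h1 := congrFun (congrFun h a) b
      have h2 := congrArg (fun T : RedCStar G => (T : L2 G →L[ℂ] L2 G)) h1
      simp only [Matrix.add_apply, Matrix.mul_apply, Matrix.map_apply] at h2
      have h3 : ((1 : Matrix (Fin m) (Fin m) (RedCStar G)) a b
          : L2 G →L[ℂ] L2 G)
          = repAlg (lreg (G := G)) ((1 : Matrix (Fin m) (Fin m) (MonoidAlgebra ℂ G)) a b) := by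
        by_cases hab : a = b
        · subst hab; simp
        · simp [Matrix.one_apply_ne hab]
      rw [← h3, ← h2]
      simp only [← ringHom_coe]
      push_cast
      abel
    rw [hval]
    simp only [errM, Matrix.sub_apply, Matrix.add_apply, Matrix.mul_apply, map_sub, map_add,
      map_sum, map_mul, Matrix.map_apply, Matrix.of_apply]
    refine Filter.Tendsto.sub (Filter.Tendsto.add ?_ ?_) tendsto_const_nhds
    · refine tendsto_finset_sum _ fun c _ => ?_
      exact tendsto_const_nhds.mul (hu c b)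
    · refine tendsto_finset_sum _ fun c _ => ?_
      exact (hu' a c).mul tendsto_const_nhds
  have hev : ∀ᶠ k in Filter.atTop, ∀ a b, ‖repAlg (lreg (G := G))
      (errM D D' (Matrix.of fun a b => u a b k) (Matrix.of fun a b => u' a b k) a b)‖ ≤ δ := by
    rw [Filter.eventually_all]
    intro a
    rw [Filter.eventually_all]
    intro b
    have h1 := (hlim a b).norm
    rw [norm_zero] at h1
    exact h1.eventually (ge_mem_nhds hδ)
  obtain ⟨k, hk⟩ := hev.exists
  exact ⟨_, _, hk⟩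

/-- Exactness for representations weakly contained in the regular representation. -/
theorem exact_of_contraction {l m p : ℕ} (D₀ : Matrix (Fin m) (Fin l) (MonoidAlgebra ℤ G))
    (D₀' : Matrix (Fin p) (Fin m) (MonoidAlgebra ℤ G)) (hDD : D₀' * D₀ = 0)
    (S : Matrix (Fin l) (Fin m) (RedCStar G))
    (S' : Matrix (Fin m) (Fin p) (RedCStar G))
    (h : D₀.map (ringHom G) * S + S' * D₀'.map (ringHom G) = 1)
    {V : Type*} [NormedAddCommGroup V] [NormedSpace ℂ V] [CompleteSpace V]
    (ρ : G →* (V →L[ℂ] V)) (hρ : WeakCont ρ) (f : Fin m → V)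
    (hf : mact (vth ρ) D₀' f = 0) :
    ∃ w : Fin l → V, mact (vth ρ) D₀ w = f := by
  obtain ⟨s, s', hs⟩ := exists_approx_contraction D₀ D₀' S S' h
    (1 / (2 * ((m : ℝ) + 1))) (by positivity)
  set D := D₀.map (cmap G) with hD
  set D' := D₀'.map (cmap G) with hD'
  set E := errM D₀ D₀' s s' with hE0
  have hE : E = D * s + s' * D' - 1 := rfl
  have hEn : ‖mactL ρ E‖ ≤ 1 / 2 := by
    refine (norm_mactL_le ρ E (1 / (2 * ((m : ℝ) + 1))) (by positivity)
      (fun a b => (hρ _).trans (hs a b))).trans ?_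
    rw [mul_one_div, div_le_div_iff₀ (by positivity) (by norm_num)]
    nlinarith
  set T := -(mactL ρ E) with hT
  have hTn : ‖T‖ < 1 := by rw [hT, norm_neg]; linarith
  have hDE : ∀ x : Fin m → V, mact (cth ρ) D' x = 0 → mact (cth ρ) D' (T x) = 0 := by
    intro x hx
    have h1 : T x = -(mact (cth ρ) E x) := by rw [hT, ContinuousLinearMap.neg_apply, mactL_apply]
    have h2 : D' * D = 0 := by
      rw [hD, hD', ← Matrix.map_mul, hDD]
      ext a b
      simp
    rw [h1, map_neg, hE, mact_sub, mact_add, mact_mul, mact_mul, hx, mact_one, map_zero, add_zero,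
      map_sub, ← mact_mul, h2, mact_zero, hx]
    simp
  have hfc : mact (cth ρ) D' f = 0 := by rw [hD', mact_cmap]; exact hf
  have hk : ∀ k : ℕ, mact (cth ρ) D' ((T ^ k) f) = 0 := by
    intro k
    induction k with
    | zero => simpa using hfc
    | succ k ih =>
      rw [pow_succ', ContinuousLinearMap.mul_apply]
      exact hDE _ ih
  have hsum : Summable (fun k : ℕ => T ^ k) := summable_geometric_of_norm_lt_one hTn
  set g := (∑' k : ℕ, T ^ k) f with hg
  have hg1 : (1 - T) g = f := by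
    have h1 : (1 - T) * (∑' k : ℕ, T ^ k) = 1 := mul_neg_geom_series T hTn
    have h2 := congrArg (fun L : (Fin m → V) →L[ℂ] (Fin m → V) => L f) h1
    simpa using h2
  have hg2 : mact (cth ρ) D' g = 0 := by
    rw [← mactL_apply, hg]
    have h3 : (∑' k : ℕ, T ^ k) f = ∑' k : ℕ, (T ^ k) f := by
      exact (ContinuousLinearMap.apply ℂ (Fin m → V) f).map_tsum hsum
    have hsum2 : Summable (fun k : ℕ => (T ^ k) f) :=
      (ContinuousLinearMap.apply ℂ (Fin m → V) f).summable hsum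
    rw [h3, (mactL ρ D').map_tsum hsum2]
    have h4 : ∀ k : ℕ, mactL ρ D' ((T ^ k) f) = 0 := fun k => by rw [mactL_apply]; exact hk k
    simp only [h4, tsum_zero]
  refine ⟨mact (cth ρ) s g, ?_⟩
  rw [← mact_cmap, ← hD, ← mact_mul]
  have h5 : D * s = E + 1 - s' * D' := by rw [hE]; abel
  rw [h5, mact_sub, mact_add, mact_one, mact_mul, hg2, map_zero, sub_zero]
  have h6 : (1 - T) g = mact (cth ρ) E g + g := by
    rw [ContinuousLinearMap.sub_apply, hT, ContinuousLinearMap.neg_apply, mactL_apply,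
      ContinuousLinearMap.one_apply, sub_neg_eq_add]
    exact add_comm _ _
  rw [← h6, hg1]

theorem map_one_of_mul {A B : Type*} [Ring A] [Ring B] (t : A →+* B) {l m : ℕ}
    (D : Matrix (Fin m) (Fin l) A) (S : Matrix (Fin l) (Fin m) A) (h : D * S = 1) :
    D.map t * S.map t = 1 := by
  rw [← Matrix.map_mul, h, Matrix.map_one _ (map_zero _) (map_one _)]

theorem map_one_of_mul_add {A B : Type*} [Ring A] [Ring B] (t : A →+* B) {l m p : ℕ}
    (D : Matrix (Fin m) (Fin l) A) (S : Matrix (Fin l) (Fin m) A)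
    (S' : Matrix (Fin m) (Fin p) A) (D' : Matrix (Fin p) (Fin m) A) (h : D * S + S' * D' = 1) :
    D.map t * S.map t + S'.map t * D'.map t = 1 := by
  rw [← Matrix.map_mul, ← Matrix.map_mul, ← Matrix.map_add _ (map_add _), h,
    Matrix.map_one _ (map_zero _) (map_one _)]

/-- the three exactness statements for cochains with values in a representation weakly contained
in the regular one. -/
theorem exact_all (C : FinRes G) (h0 : ¬ Nontrivial (C.homology 0))
    (h1 : ¬ Nontrivial (C.homology 1)) (h2 : ¬ Nontrivial (C.homology 2))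
    {V : Type*} [NormedAddCommGroup V] [NormedSpace ℂ V] [CompleteSpace V]
    (ρ : G →* (V →L[ℂ] V)) (hρ : WeakCont ρ) :
    (∀ f : Fin (C.rank 0) → V, mact (vth ρ) (C.d 0) f = 0 → f = 0) ∧
    (∀ f : Fin (C.rank 1) → V, mact (vth ρ) (C.d 1) f = 0 →
      ∃ w : Fin (C.rank 0) → V, mact (vth ρ) (C.d 0) w = f) ∧
    (∀ f : Fin (C.rank 2) → V, mact (vth ρ) (C.d 2) f = 0 →
      ∃ w : Fin (C.rank 1) → V, mact (vth ρ) (C.d 1) w = f) := by
  obtain ⟨S0, S1, S2, e0, e1, e2⟩ : ∃ (S0 : Matrix (Fin (C.rank 0)) (Fin (C.rank 1)) (RedCStar G))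
      (S1 : Matrix (Fin (C.rank 1)) (Fin (C.rank 2)) (RedCStar G))
      (S2 : Matrix (Fin (C.rank 2)) (Fin (C.rank 3)) (RedCStar G)),
      S0 * (C.d 0).map (ringHom G) = 1 ∧
      (C.d 0).map (ringHom G) * S0 + S1 * (C.d 1).map (ringHom G) = 1 ∧
      (C.d 1).map (ringHom G) * S1 + S2 * (C.d 2).map (ringHom G) = 1 := by
    obtain ⟨S0, S1, S2, e0, e1, e2⟩ := C.exists_contraction (CRed G) (toCRed G) h0 h1 h2
    have hd : ∀ i, (C.dA (CRed G) (toCRed G) i).map (toOld G) = (C.d i).map (ringHom G) := by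
      intro i
      ext1 a b
      exact toOld_toCRed _
    refine ⟨S0.map (toOld G), S1.map (toOld G), S2.map (toOld G), ?_, ?_, ?_⟩
    · rw [← hd]
      exact map_one_of_mul (toOld G) _ _ e0
    · rw [← hd, ← hd]
      exact map_one_of_mul_add (toOld G) _ _ _ _ e1
    · rw [← hd, ← hd]
      exact map_one_of_mul_add (toOld G) _ _ _ _ e2
  refine ⟨fun f hf => ?_, fun f hf => ?_, fun f hf => ?_⟩
  · obtain ⟨w, hw⟩ := exact_of_contraction (l := 0) (0 : Matrix (Fin (C.rank 0)) (Fin 0) _)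
      (C.d 0) (by simp) 0 S0 (by
        rw [Matrix.mul_zero, zero_add]; exact e0) ρ hρ f hf
    rw [← hw, mact_zero]
  · exact exact_of_contraction (C.d 0) (C.d 1) (C.d_mul_d 0) S0 S1 e1 ρ hρ f hf
  · exact exact_of_contraction (C.d 1) (C.d 2) (C.d_mul_d 1) S1 S2 e2 ρ hρ f hf

end

end Z9f173d
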