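import Pool.Agent.Lib.Z9f173d.Defs

/-!
# Z9f173d.Star: the involution of the reduced group algebra

For a homomorphism `w : G → {1,-1}` the involution `g ↦ w(g) g⁻¹` of `ℤ[G]` (`bar w`) extends to an
additive involution `stC w` of `C_r^*(G)` which reverses products: `T ↦ W T^* W`, where `W` is the
multiplication by `w` on `ℓ²(G)`.
-/

set_option autoImplicit false

namespace Z9f173d

open scoped Matrix

section bar

variable {G : Type*} [Group G] (w : G →* ℤˣ)

/-- `g ↦ w(g) g⁻¹` as a homomorphism to the opposite ring -/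
noncomputable def barHom : G →* (MonoidAlgebra ℤ G)ᵐᵒᵖ where
  toFun g := MulOpposite.op (MonoidAlgebra.single g⁻¹ ((w g : ℤˣ) : ℤ))
  map_one' := by
    rw [inv_one, map_one, Units.val_one]
    rfl
  map_mul' g h := by
    rw [← MulOpposite.op_mul, MonoidAlgebra.single_mul_single, mul_inv_rev, map_mul, Units.val_mul,
      mul_comm ((w h : ℤˣ) : ℤ)]

/-- the involution of `ℤ[G]` with `g ↦ w(g) g⁻¹` -/
noncomputable def bar (a : MonoidAlgebra ℤ G) : MonoidAlgebra ℤ G :=
  MulOpposite.unop (MonoidAlgebra.lift ℤ (MonoidAlgebra ℤ G)ᵐᵒᵖ G (barHom w) a)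

theorem bar_single (g : G) (z : ℤ) :
    bar w (MonoidAlgebra.single g z) = MonoidAlgebra.single g⁻¹ (((w g : ℤˣ) : ℤ) * z) := by
  unfold bar
  rw [MonoidAlgebra.lift_single]
  show z • MonoidAlgebra.single g⁻¹ ((w g : ℤˣ) : ℤ) = _
  rw [MonoidAlgebra.smul_single, smul_eq_mul, mul_comm]

theorem bar_zero : bar w 0 = 0 := by
  unfold bar
  rw [map_zero]
  rfl

theorem bar_add (a b : MonoidAlgebra ℤ G) : bar w (a + b) = bar w a + bar w b := by
  unfold bar
  rw [map_add]
  rfl

theorem bar_neg (a : MonoidAlgebra ℤ G) : bar w (-a) = -bar w a := by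
  unfold bar
  rw [map_neg]
  rfl

theorem bar_one : bar w 1 = 1 := by
  unfold bar
  rw [map_one]
  rfl

theorem bar_mul (a b : MonoidAlgebra ℤ G) : bar w (a * b) = bar w b * bar w a := by
  unfold bar
  rw [map_mul]
  rfl

theorem bar_bar (a : MonoidAlgebra ℤ G) : bar w (bar w a) = a := by
  induction a using MonoidAlgebra.induction_linear with
  | zero => rw [bar_zero, bar_zero]
  | add f g hf hg => rw [bar_add, bar_add, hf, hg]
  | single g z =>
    rw [bar_single, bar_single, inv_inv]
    congr 1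
    rw [← mul_assoc, ← Units.val_mul, ← map_mul, inv_mul_cancel, map_one, Units.val_one, one_mul]

end bar

namespace StarAux

/-- an element of `Ops` as a continuous linear map -/
def op {H : Type*} (T : Ops H) : L2 H →L[ℂ] L2 H := T

variable {G : Type*} [Group G] (w : G →* ℤˣ)

/-- the values of `w` as complex numbers -/
def wc (x : G) : ℂ := (((w x : ℤˣ) : ℤ) : ℂ)

theorem wc_cases (x : G) : wc w x = 1 ∨ wc w x = -1 := by
  unfold wc
  rcases Int.units_eq_one_or (w x) with h | h
  · left; rw [h]; simp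
  · right; rw [h]; simp

theorem wc_mul (x y : G) : wc w (x * y) = wc w x * wc w y := by
  unfold wc
  rw [map_mul, Units.val_mul, Int.cast_mul]

theorem wc_inv (x : G) : wc w x⁻¹ = wc w x := by
  have h : wc w x⁻¹ * wc w x = 1 := by
    rw [← wc_mul, inv_mul_cancel]
    unfold wc
    rw [map_one]; simp
  rcases wc_cases w x with h1 | h1
  · rw [h1, mul_one] at h; rw [h, h1]
  · rw [h1] at h ⊢
    linear_combination -h

theorem wc_sq (x : G) : wc w x * wc w x = 1 := by
  rcases wc_cases w x with h1 | h1 <;> rw [h1] <;> norm_num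

theorem wc_conj (x : G) : (starRingEnd ℂ) (wc w x) = wc w x := by
  rcases wc_cases w x with h1 | h1 <;> rw [h1] <;> simp

theorem norm_wc (x : G) (z : ℂ) : ‖wc w x * z‖ = ‖z‖ := by
  rcases wc_cases w x with h1 | h1 <;> rw [h1] <;> simp

theorem memlp_w (ξ : L2 G) : Memℓp (E := fun _ : G => ℂ) (fun x => wc w x * ξ x) 2 := by
  have h := ξ.2.summable (by norm_num)
  refine memℓp_gen ?_
  simp only [norm_wc]
  exact h

/-- multiplication by `w` -/
def wFun (ξ : L2 G) : L2 G := ⟨fun x => wc w x * ξ x, memlp_w w ξ⟩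

theorem wFun_apply (ξ : L2 G) (x : G) : wFun w ξ x = wc w x * ξ x := rfl

theorem norm_wFun (ξ : L2 G) : ‖wFun w ξ‖ = ‖ξ‖ := by
  have h2 : (0 : ℝ) < (2 : ENNReal).toReal := by norm_num
  rw [lp.norm_eq_tsum_rpow h2, lp.norm_eq_tsum_rpow h2]
  congr 1
  refine tsum_congr fun x => ?_
  rw [wFun_apply, norm_wc]

/-- multiplication by `w` as an operator -/
noncomputable def wOp : L2 G →L[ℂ] L2 G :=
  LinearMap.mkContinuous
    { toFun := wFun w
      map_add' := fun ξ η => by
        ext x
        show wc w x * (ξ x + η x) = wc w x * ξ x + wc w x * η x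
        rw [mul_add]
      map_smul' := fun c ξ => by
        ext x
        show wc w x * (c * ξ x) = c * (wc w x * ξ x)
        ring } 1 (fun ξ => by rw [one_mul]; exact (norm_wFun w ξ).le)

theorem wOp_apply (ξ : L2 G) (x : G) : wOp w ξ x = wc w x * ξ x := rfl

theorem wOp_wOp (ξ : L2 G) : wOp w (wOp w ξ) = ξ := by
  ext x
  rw [wOp_apply, wOp_apply, ← mul_assoc, wc_sq, one_mul]

theorem wOp_comp : (wOp w).comp (wOp w) = ContinuousLinearMap.id ℂ (L2 G) :=
  ContinuousLinearMap.ext fun ξ => wOp_wOp w ξ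

theorem adj_wOp : ContinuousLinearMap.adjoint (wOp w) = wOp w := by
  symm
  rw [ContinuousLinearMap.eq_adjoint_iff]
  intro ξ η
  rw [lp.inner_eq_tsum, lp.inner_eq_tsum]
  refine tsum_congr fun x => ?_
  rw [wOp_apply, wOp_apply]
  simp only [RCLike.inner_apply, map_mul, wc_conj]
  ring

theorem adj_scLam (c : ℂ) (g : G) : ContinuousLinearMap.adjoint (op (scLam c g)) =
    op (scLam ((starRingEnd ℂ) c) g⁻¹) := by
  symm
  rw [ContinuousLinearMap.eq_adjoint_iff]
  intro ξ η
  rw [lp.inner_eq_tsum, lp.inner_eq_tsum]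
  rw [← (Equiv.mulLeft g⁻¹).tsum_eq]
  refine tsum_congr fun x => ?_
  have h1 : op (scLam ((starRingEnd ℂ) c) g⁻¹) ξ ((Equiv.mulLeft g⁻¹) x) =
      (starRingEnd ℂ) c * ξ x := by
    show (starRingEnd ℂ) c * ξ ((g⁻¹)⁻¹ * (g⁻¹ * x)) = _
    rw [inv_inv, mul_inv_cancel_left]
  have h2 : op (scLam c g) η x = c * η ((Equiv.mulLeft g⁻¹) x) := rfl
  rw [h1, h2]
  simp only [RCLike.inner_apply, map_mul, Complex.conj_conj]
  ring

/-- the involution on operators -/
noncomputable def st (T : Ops G) : Ops G :=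
  ((wOp w).comp ((ContinuousLinearMap.adjoint (op T)).comp (wOp w)) : L2 G →L[ℂ] L2 G)

theorem op_st (T : Ops G) :
    op (st w T) = (wOp w).comp ((ContinuousLinearMap.adjoint (op T)).comp (wOp w)) := rfl

theorem st_add (S T : Ops G) : st w (S + T) = st w S + st w T := by
  have h : op (st w (S + T)) = op (st w S) + op (st w T) := by
    have h1 : op (S + T) = op S + op T := rfl
    rw [op_st, op_st, op_st, h1, map_add, ContinuousLinearMap.add_comp,
      ContinuousLinearMap.comp_add]
  exact h

theorem st_zero : st w (0 : Ops G) = 0 := by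
  have h : op (st w (0 : Ops G)) = 0 := by
    have h1 : op (0 : Ops G) = 0 := rfl
    rw [op_st, h1, map_zero, ContinuousLinearMap.zero_comp, ContinuousLinearMap.comp_zero]
  exact h

theorem st_neg (T : Ops G) : st w (-T) = -st w T := by
  rw [eq_neg_iff_add_eq_zero, ← st_add, neg_add_cancel, st_zero]

theorem st_mul (S T : Ops G) : st w (S * T) = st w T * st w S := by
  have h1 : op (S * T) = (op S).comp (op T) := rfl
  have h : op (st w (S * T)) = (op (st w T)).comp (op (st w S)) := by
    rw [op_st, op_st, op_st, h1, ContinuousLinearMap.adjoint_comp]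
    refine ContinuousLinearMap.ext fun ξ => ?_
    simp only [ContinuousLinearMap.comp_apply, wOp_wOp]
  exact h

theorem st_st (T : Ops G) : st w (st w T) = T := by
  have h : op (st w (st w T)) = op T := by
    rw [op_st, op_st, ContinuousLinearMap.adjoint_comp, ContinuousLinearMap.adjoint_comp,
      ContinuousLinearMap.adjoint_adjoint, adj_wOp]
    refine ContinuousLinearMap.ext fun ξ => ?_
    simp only [ContinuousLinearMap.comp_apply, wOp_wOp]
  exact h

theorem st_scLam (c : ℂ) (g : G) :
    st w (scLam c g) = scLam (wc w g * (starRingEnd ℂ) c) g⁻¹ := by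
  have h : op (st w (scLam c g)) = op (scLam (wc w g * (starRingEnd ℂ) c) g⁻¹) := by
    rw [op_st, adj_scLam]
    refine ContinuousLinearMap.ext fun ξ => ?_
    ext x
    show wc w x * ((starRingEnd ℂ) c * (wc w ((g⁻¹)⁻¹ * x) * ξ ((g⁻¹)⁻¹ * x))) =
      (wc w g * (starRingEnd ℂ) c) * ξ ((g⁻¹)⁻¹ * x)
    rw [inv_inv, wc_mul]
    have := wc_sq w x
    linear_combination ((starRingEnd ℂ) c * wc w g * ξ (g * x)) * this
  exact h

theorem continuous_st : Continuous (st w : Ops G → Ops G) := by
  have : Continuous fun T : L2 G →L[ℂ] L2 G =>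
      (wOp w).comp ((ContinuousLinearMap.adjoint T).comp (wOp w)) := by
    refine continuous_const.clm_comp (Continuous.clm_comp ?_ continuous_const)
    exact LinearIsometryEquiv.continuous _
  exact this

theorem st_mem (T : Ops G) (hT : T ∈ redAlg G) : st w T ∈ redAlg G := by
  have hcl : IsClosed {T : Ops G | st w T ∈ redAlg G} := by
    have h1 : IsClosed ((redAlg G : Subring (Ops G)) : Set (Ops G)) :=
      Subring.isClosed_topologicalClosure _
    exact h1.preimage (continuous_st w)
  have hT' : T ∈ closure ((Subring.closure {T : Ops G | ∃ (c : ℂ) (g : G), T = scLam c g} :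
      Subring (Ops G)) : Set (Ops G)) := hT
  refine closure_minimal ?_ hcl hT'
  intro S hS
  rw [SetLike.mem_coe] at hS
  show st w S ∈ redAlg G
  induction hS using Subring.closure_induction with
  | mem x hx =>
    obtain ⟨c, g, rfl⟩ := hx
    rw [st_scLam]
    exact scLam_mem _ _
  | zero => rw [st_zero]; exact Subring.zero_mem _
  | one =>
    rw [← scLam_one_one, st_scLam]
    exact scLam_mem _ _
  | add x y _ _ hx hy => rw [st_add]; exact Subring.add_mem _ hx hy
  | neg x _ hx => rw [st_neg]; exact Subring.neg_mem _ hx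
  | mul x y _ _ hx hy => rw [st_mul]; exact Subring.mul_mem _ hy hx

end StarAux

open StarAux

variable {G : Type*} [Group G] (w : G →* ℤˣ)

/-- the involution of `C_r^*(G)` extending `g ↦ w(g) g⁻¹` -/
noncomputable def stC : CRed G →+ CRed G where
  toFun T := ⟨st w T.1, st_mem w T.1 T.2⟩
  map_zero' := Subtype.ext (st_zero w)
  map_add' S T := Subtype.ext (st_add w S.1 T.1)

theorem stC_mul (S T : CRed G) : stC w (S * T) = stC w T * stC w S :=
  Subtype.ext (st_mul w S.1 T.1)

theorem stC_stC (T : CRed G) : stC w (stC w T) = T := Subtype.ext (st_st w T.1)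

theorem scLam_neg_one (g : G) : scLam (-1) g = -scLam 1 g := by
  have h : op (scLam (-1) g) = -op (scLam 1 g) := by
    refine ContinuousLinearMap.ext fun ξ => ?_
    ext x
    show (-1 : ℂ) * ξ (g⁻¹ * x) = -((1 : ℂ) * ξ (g⁻¹ * x))
    ring
  exact h

theorem stC_lam (g : G) : stC w (lamC G g) = ((w g : ℤˣ) : ℤ) • lamC G g⁻¹ := by
  have h1 : st w (scLam 1 g) = scLam (wc w g) g⁻¹ := by
    rw [st_scLam, map_one, mul_one]
  rcases Int.units_eq_one_or (w g) with h | h
  · rw [h, Units.val_one, one_smul]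
    refine Subtype.ext ?_
    show st w (scLam 1 g) = scLam 1 g⁻¹
    have h2 : wc w g = 1 := by unfold wc; rw [h]; simp
    rw [h1, h2]
  · rw [h, Units.val_neg, Units.val_one, neg_smul, one_smul]
    refine Subtype.ext ?_
    show st w (scLam 1 g) = -scLam 1 g⁻¹
    have h2 : wc w g = -1 := by unfold wc; rw [h]; simp
    rw [h1, h2, scLam_neg_one]

theorem stC_one : stC w (1 : CRed G) = 1 := by
  have h := stC_lam w (1 : G)
  have h2 : lamC G (1 : G) = 1 := (lamC G).map_one
  have h3 : w (1 : G) = 1 := w.map_one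
  rw [inv_one, h2, h3, Units.val_one, one_smul] at h
  exact h

theorem stC_toCRed (a : MonoidAlgebra ℤ G) : stC w (toCRed G a) = toCRed G (bar w a) := by
  induction a using MonoidAlgebra.induction_linear with
  | zero => rw [bar_zero, map_zero, map_zero]
  | add f g hf hg => rw [map_add, map_add, hf, hg, bar_add, map_add]
  | single g z =>
    rw [bar_single]
    show stC w ((MonoidAlgebra.lift ℤ (CRed G) G (lamC G)) (MonoidAlgebra.single g z)) =
      (MonoidAlgebra.lift ℤ (CRed G) G (lamC G)) (MonoidAlgebra.single g⁻¹ _)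
    rw [MonoidAlgebra.lift_single, MonoidAlgebra.lift_single, map_zsmul, stC_lam, smul_smul,
      mul_comm]

end Z9f173d
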