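import Pool.Agent.Lib.Z9f173d.Defs

/-!
# Z9f173d.Tf: a group with a finite free resolution is torsion-free

`torsion_free`: if `C : FinRes G` and `C.rank n = 0` for some `n`, every element of finite order of
`G` is `1`. Proof: for `k` of order `p`, `D = k - 1` and `N = 1 + k + .. + k^(p-1)` the kernel of
each on `ℤ[G]` is the image of the other; dimension shifting along the resolution produces a cycle
in every degree which is killed by one of them and not in the image of the cycles under the other.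
-/

set_option autoImplicit false

namespace Z9f173d

open scoped Matrix

namespace TfAux

section
variable {G : Type*} [Group G]

/-- restriction of the support to `T` -/
noncomputable def proj (T : G → Prop) [DecidablePred T] : MonoidAlgebra ℤ G →+ MonoidAlgebra ℤ G :=
  (MonoidAlgebra.coeffAddEquiv.symm.toAddMonoidHom).comp
    ((Finsupp.filterAddHom T).comp MonoidAlgebra.coeffAddEquiv.toAddMonoidHom)

theorem proj_single (T : G → Prop) [DecidablePred T] (g : G) (z : ℤ) :
    proj T (MonoidAlgebra.single g z) = if T g then MonoidAlgebra.single g z else 0 := by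
  apply MonoidAlgebra.coeff_injective
  show Finsupp.filter T (Finsupp.single g z) = _
  split_ifs with h
  · exact Finsupp.filter_single_of_pos _ h
  · exact Finsupp.filter_single_of_neg _ h

/-- a set of representatives of the cosets `⟨k⟩ g` -/
theorem exists_reps (k : G) (hk : IsOfFinOrder k) : ∃ T : G → Prop,
    (∀ g, ∃ i, i < orderOf k ∧ T ((k ^ i)⁻¹ * g)) ∧
      ∀ g i j, i < orderOf k → j < orderOf k → T ((k ^ i)⁻¹ * g) → T ((k ^ j)⁻¹ * g) → i = j := by
  classical
  let r : Setoid G := MulAction.orbitRel (Subgroup.zpowers k) G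
  refine ⟨fun g => g = (Quotient.mk r g).out, fun g => ?_, fun g i j hi hj h1 h2 => ?_⟩
  · have h1 : r (Quotient.mk r g).out g := Quotient.mk_out (s := r) g
    obtain ⟨⟨m, hm⟩, hm2⟩ := (MulAction.orbitRel_apply.1 h1 : _)
    have hm3 : m * g = (Quotient.mk r g).out := hm2
    have hm4 : m⁻¹ ∈ Subgroup.zpowers k := Subgroup.inv_mem _ hm
    rw [hk.mem_zpowers_iff_mem_range_orderOf] at hm4
    obtain ⟨i, hi, hi2⟩ := Finset.mem_image.1 hm4
    refine ⟨i, Finset.mem_range.1 hi, ?_⟩
    have e1 : (k ^ i)⁻¹ * g = (Quotient.mk r g).out := by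
      rw [hi2, inv_inv, hm3]
    show (k ^ i)⁻¹ * g = (Quotient.mk r ((k ^ i)⁻¹ * g)).out
    rw [e1]
    congr 1
    refine Quotient.sound (s := r) ?_
    exact r.symm' h1
  · have e : Quotient.mk r ((k ^ i)⁻¹ * g) = Quotient.mk r ((k ^ j)⁻¹ * g) := by
      refine Quotient.sound (s := r) ?_
      refine MulAction.orbitRel_apply.2 ⟨⟨(k ^ i)⁻¹ * k ^ j, ?_⟩, ?_⟩
      · exact Subgroup.mul_mem _ (Subgroup.inv_mem _ (Subgroup.npow_mem_zpowers k i))
          (Subgroup.npow_mem_zpowers k j)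
      · show ((k ^ i)⁻¹ * k ^ j) * ((k ^ j)⁻¹ * g) = _
        group
    have e2 : (k ^ i)⁻¹ * g = (k ^ j)⁻¹ * g := by
      rw [h1, h2, e]
    have e3 : k ^ i = k ^ j := by
      have := mul_right_cancel e2
      exact inv_injective this
    exact pow_injOn_Iio_orderOf hi hj e3

variable (k : G)

/-- the group element in the group ring -/
noncomputable def kap (k : G) : MonoidAlgebra ℤ G := MonoidAlgebra.single k 1

theorem kap_pow (k : G) (i : ℕ) : kap k ^ i = MonoidAlgebra.single (k ^ i) 1 := by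
  unfold kap
  rw [MonoidAlgebra.single_pow, one_pow]

/-- the norm element -/
noncomputable def nrm (k : G) : MonoidAlgebra ℤ G := ∑ i ∈ Finset.range (orderOf k), kap k ^ i

theorem D_mul_N (k : G) : (kap k - 1) * nrm k = 0 := by
  unfold nrm
  rw [mul_geom_sum, kap_pow, pow_orderOf_eq_one]
  exact sub_self _

theorem N_mul_D (k : G) : nrm k * (kap k - 1) = 0 := by
  unfold nrm
  rw [geom_sum_mul, kap_pow, pow_orderOf_eq_one]
  exact sub_self _

theorem N_mul_kap_pow (k : G) (i : ℕ) : nrm k * kap k ^ i = nrm k := by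
  induction i with
  | zero => rw [pow_zero, mul_one]
  | succ i ih =>
    have h := N_mul_D k
    rw [mul_sub, mul_one, sub_eq_zero] at h
    rw [pow_succ', ← mul_assoc, h, ih]

/-- decomposition along the representatives, and its uniqueness -/
theorem exists_proj (k : G) (hk : IsOfFinOrder k) :
    ∃ P : MonoidAlgebra ℤ G →+ MonoidAlgebra ℤ G,
      (∀ x, x = ∑ i ∈ Finset.range (orderOf k),
        kap k ^ i * P (MonoidAlgebra.single (k ^ i)⁻¹ 1 * x)) ∧
      ∀ x, P (nrm k * P x) = P x := by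
  classical
  obtain ⟨T, h1, h2⟩ := exists_reps k hk
  have hpos : 0 < orderOf k := hk.orderOf_pos
  refine ⟨proj T, fun x => ?_, fun x => ?_⟩
  · induction x using MonoidAlgebra.induction_linear with
    | zero => simp
    | add f g hf hg =>
      conv_lhs => rw [hf, hg]
      rw [← Finset.sum_add_distrib]
      refine Finset.sum_congr rfl fun i _ => ?_
      rw [mul_add, map_add, mul_add]
    | single g z =>
      obtain ⟨i, hi, hi2⟩ := h1 g
      rw [Finset.sum_eq_single i]
      · rw [MonoidAlgebra.single_mul_single, one_mul, proj_single, if_pos hi2, kap_pow,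
          MonoidAlgebra.single_mul_single, one_mul, mul_inv_cancel_left]
      · intro j hj hji
        rw [MonoidAlgebra.single_mul_single, one_mul, proj_single, if_neg, mul_zero]
        intro hT
        exact hji (h2 g j i (Finset.mem_range.1 hj) hi hT hi2)
      · intro hi3
        exact absurd (Finset.mem_range.2 hi) hi3
  · induction x using MonoidAlgebra.induction_linear with
    | zero => simp
    | add f g hf hg => rw [map_add, mul_add, map_add, hf, hg]
    | single g z =>
      rw [proj_single]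
      by_cases hT : T g
      · rw [if_pos hT, nrm, Finset.sum_mul, map_sum, Finset.sum_eq_single 0]
        · rw [pow_zero, one_mul, proj_single, if_pos hT]
        · intro i hi hi0
          rw [kap_pow, MonoidAlgebra.single_mul_single, one_mul, proj_single, if_neg]
          intro hT2
          have h3 : T ((k ^ i)⁻¹ * (k ^ i * g)) := by rwa [inv_mul_cancel_left]
          have h4 : T ((k ^ 0)⁻¹ * (k ^ i * g)) := by rwa [pow_zero, inv_one, one_mul]
          exact hi0 (h2 _ i 0 (Finset.mem_range.1 hi) hpos h3 h4)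
        · intro h0
          exact absurd (Finset.mem_range.2 hpos) h0
      · rw [if_neg hT, mul_zero, map_zero]

theorem ker_D (k : G) (hk : IsOfFinOrder k) (x : MonoidAlgebra ℤ G) (hx : (kap k - 1) * x = 0) :
    ∃ w, x = nrm k * w := by
  obtain ⟨P, h1, _⟩ := exists_proj k hk
  rw [sub_mul, one_mul, sub_eq_zero] at hx
  have h3 : ∀ i : ℕ, kap k ^ i * x = x := by
    intro i
    induction i with
    | zero => rw [pow_zero, one_mul]
    | succ i ih => rw [pow_succ, mul_assoc, hx, ih]
  have h4 : ∀ i : ℕ, MonoidAlgebra.single (k ^ i)⁻¹ 1 * x = x := by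
    intro i
    conv_lhs => rw [← h3 i]
    rw [kap_pow, ← mul_assoc, MonoidAlgebra.single_mul_single, inv_mul_cancel, one_mul,
      ← MonoidAlgebra.one_def, one_mul]
  refine ⟨P x, ?_⟩
  rw [nrm, Finset.sum_mul]
  conv_lhs => rw [h1 x]
  exact Finset.sum_congr rfl fun i _ => by rw [h4 i]

theorem ker_N (k : G) (hk : IsOfFinOrder k) (x : MonoidAlgebra ℤ G) (hx : nrm k * x = 0) :
    ∃ w, x = (kap k - 1) * w := by
  obtain ⟨P, h1, h2⟩ := exists_proj k hk
  set w : ℕ → MonoidAlgebra ℤ G := fun i => P (MonoidAlgebra.single (k ^ i)⁻¹ 1 * x) with hw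
  have h3 : ∑ i ∈ Finset.range (orderOf k), w i =
      P (∑ i ∈ Finset.range (orderOf k), MonoidAlgebra.single (k ^ i)⁻¹ 1 * x) := by
    rw [map_sum]
  have h4 : nrm k * ∑ i ∈ Finset.range (orderOf k), w i = 0 := by
    have h5 : nrm k * x = nrm k * ∑ i ∈ Finset.range (orderOf k), w i := by
      conv_lhs => rw [h1 x]
      rw [Finset.mul_sum, Finset.mul_sum]
      refine Finset.sum_congr rfl fun i _ => ?_
      rw [← mul_assoc, N_mul_kap_pow]
    rw [← h5, hx]
  have h6 : ∑ i ∈ Finset.range (orderOf k), w i = 0 := by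
    rw [h3] at h4 ⊢
    rw [← h2, h4, map_zero]
  refine ⟨∑ i ∈ Finset.range (orderOf k), (∑ j ∈ Finset.range i, kap k ^ j) * w i, ?_⟩
  rw [Finset.mul_sum]
  have h7 : ∀ i, (kap k - 1) * ((∑ j ∈ Finset.range i, kap k ^ j) * w i) =
      kap k ^ i * w i - w i := by
    intro i
    rw [← mul_assoc, mul_geom_sum, sub_mul, one_mul]
  rw [Finset.sum_congr rfl fun i _ => h7 i, Finset.sum_sub_distrib, h6, sub_zero]
  exact h1 x

end

section
variable {G : Type*} [Group G] (C : FinRes G)

/-- the cycles of the resolution -/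
def Cyc : (i : ℕ) → (Fin (C.rank i) → MonoidAlgebra ℤ G) → Prop
  | 0, v => ∑ j, eps G (v j) * C.aug j = 0
  | (i + 1), v => v ᵥ* C.d i = 0

theorem cyc_iff (i : ℕ) (v : Fin (C.rank i) → MonoidAlgebra ℤ G) :
    Cyc C i v ↔ ∃ w, w ᵥ* C.d i = v := by
  cases i with
  | zero => exact C.exact_zero v
  | succ i => exact C.exact_succ i v

theorem step (i : ℕ) (a b : MonoidAlgebra ℤ G) (hba : b * a = 0)
    (hker : ∀ x, a * x = 0 → ∃ w, x = b * w) (x : Fin (C.rank i) → MonoidAlgebra ℤ G)
    (hx : Cyc C i x) (hax : a • x = 0) (hno : ¬ ∃ z, Cyc C i z ∧ x = b • z) :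
    ∃ x', Cyc C (i + 1) x' ∧ b • x' = 0 ∧ ¬ ∃ z, Cyc C (i + 1) z ∧ x' = a • z := by
  obtain ⟨y, hy⟩ := (cyc_iff C i x).1 hx
  refine ⟨a • y, ?_, ?_, ?_⟩
  · show (a • y) ᵥ* C.d i = 0
    rw [Matrix.smul_vecMul, hy, hax]
  · rw [smul_smul, hba, zero_smul]
  · rintro ⟨z, hz, hyz⟩
    have h1 : a • (y - z) = 0 := by rw [smul_sub, hyz, sub_self]
    have h2 : ∀ j, ∃ w, (y - z) j = b * w := fun j => hker _ (congrFun h1 j)
    choose w hw using h2
    have h3 : y - z = b • w := funext hw
    refine hno ⟨w ᵥ* C.d i, (cyc_iff C i _).2 ⟨w, rfl⟩, ?_⟩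
    rw [← Matrix.smul_vecMul, ← h3, Matrix.sub_vecMul, hy, show z ᵥ* C.d i = 0 from hz, sub_zero]

theorem base (a b : MonoidAlgebra ℤ G) (hba : b * a = 0) (ha : eps G a = 0)
    (hb : ∀ t : ℤ, eps G b * t ≠ 1)
    (hker : ∀ x, a * x = 0 → ∃ w, x = b * w) :
    ∃ x', Cyc C 0 x' ∧ b • x' = 0 ∧ ¬ ∃ z, Cyc C 0 z ∧ x' = a • z := by
  obtain ⟨y, hy⟩ := C.aug_surj
  refine ⟨a • y, ?_, ?_, ?_⟩
  · show ∑ j, eps G (a * y j) * C.aug j = 0
    simp [map_mul, ha]
  · rw [smul_smul, hba, zero_smul]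
  · rintro ⟨z, hz, hyz⟩
    have h1 : a • (y - z) = 0 := by rw [smul_sub, hyz, sub_self]
    have h2 : ∀ j, ∃ w, (y - z) j = b * w := fun j => hker _ (congrFun h1 j)
    choose w hw using h2
    have hz' : ∑ j, eps G (z j) * C.aug j = 0 := hz
    have h4 : ∑ j, eps G ((y - z) j) * C.aug j = 1 := by
      have : ∀ j, eps G ((y - z) j) * C.aug j = eps G (y j) * C.aug j - eps G (z j) * C.aug j := by
        intro j
        rw [Pi.sub_apply, map_sub, sub_mul]
      rw [Finset.sum_congr rfl fun j _ => this j, Finset.sum_sub_distrib, hy, hz', sub_zero]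
    have h5 : ∑ j, eps G ((y - z) j) * C.aug j = eps G b * ∑ j, eps G (w j) * C.aug j := by
      rw [Finset.mul_sum]
      refine Finset.sum_congr rfl fun j _ => ?_
      rw [hw j, map_mul, mul_assoc]
    exact hb _ (h5 ▸ h4)

end

end TfAux

open TfAux in
/-- A group with a finite free resolution of `ℤ` is torsion-free. -/
theorem FinRes.torsion_free {G : Type*} [Group G] (C : FinRes G) (n : ℕ) (hn : C.rank n = 0)
    (k : G) (hk : IsOfFinOrder k) : k = 1 := by
  by_contra hk1
  have hp : orderOf k ≠ 1 := fun h => hk1 (orderOf_eq_one_iff.1 h)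
  have hea : ∀ g : G, eps G (MonoidAlgebra.single g 1) = 1 := by
    intro g
    simp [eps]
  have hD : eps G (kap k - 1) = 0 := by
    rw [map_sub, map_one, kap, hea, sub_self]
  have hN : eps G (nrm k) = orderOf k := by
    unfold nrm
    rw [map_sum]
    simp [kap_pow, hea]
  have hb : ∀ t : ℤ, eps G (nrm k) * t ≠ 1 := by
    intro t ht
    rw [hN] at ht
    have h1 : (orderOf k : ℤ) ∣ 1 := ⟨t, ht.symm⟩
    have h2 : orderOf k ∣ 1 := by exact_mod_cast h1
    exact hp (Nat.dvd_one.1 h2)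
  have key : ∀ i : ℕ, ∃ x, Cyc C i x ∧
      ((nrm k • x = 0 ∧ ¬ ∃ z, Cyc C i z ∧ x = (kap k - 1) • z) ∨
        ((kap k - 1) • x = 0 ∧ ¬ ∃ z, Cyc C i z ∧ x = nrm k • z)) := by
    intro i
    induction i with
    | zero =>
      obtain ⟨x, hx, h1, h2⟩ := base C (kap k - 1) (nrm k) (N_mul_D k) hD hb (ker_D k hk)
      exact ⟨x, hx, Or.inl ⟨h1, h2⟩⟩
    | succ i ih =>
      obtain ⟨x, hx, ⟨h1, h2⟩ | ⟨h1, h2⟩⟩ := ih
      · obtain ⟨x', hx', h3, h4⟩ := step C i (nrm k) (kap k - 1) (D_mul_N k) (ker_N k hk) x hx h1 h2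
        exact ⟨x', hx', Or.inr ⟨h3, h4⟩⟩
      · obtain ⟨x', hx', h3, h4⟩ := step C i (kap k - 1) (nrm k) (N_mul_D k) (ker_D k hk) x hx h1 h2
        exact ⟨x', hx', Or.inl ⟨h3, h4⟩⟩
  obtain ⟨x, hx, h⟩ := key n
  have hx0 : x = 0 := by
    ext j
    exact absurd j.2 (by omega)
  rcases h with ⟨_, h2⟩ | ⟨_, h2⟩
  · exact h2 ⟨x, hx, by rw [hx0, smul_zero]⟩
  · exact h2 ⟨x, hx, by rw [hx0, smul_zero]⟩

end Z9f173d
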