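import Pool.Agent.Lib.Z9f173d.Final2
import Pool.Agent.Lib.Z9f173d.RelDefs

/-!
# Groups acting on acyclic complexes of dimension two

Let `k` be a commutative ring which is torsion-free as an abelian group (for instance `ℤ` or `ℚ`), and
let `0 → k[X₂] → k[X₁] → N → k → 0` be an exact sequence of `G`-modules such that the stabilisers on
the `G`-sets `X₁`, `X₂` are amenable.  If the homology of `C` with coefficients in the reduced
`C*`-algebra vanishes in degrees at most two, then `H^1(G; k[X₁]) = 0` and `H^2(G; k[X₂]) = 0`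
(`perm_trivial`), and a diagram chase gives a `G`-fixed element of `N` which is mapped to `1`
(`chase`).
-/

namespace Z9f173d

universe u

noncomputable section

open scoped Matrix

variable {G : Type*} [Group G]

/-! ### Extension of the coefficients -/

section Coef
variable {k : Type*} [AddCommGroup k]

/-- functions on `G` with values in `k`, right `Λ`-invariant and finitely supported modulo `Λ` -/
def ILk (Λ : Subgroup G) (n : G → k) : Prop :=
  (∀ (x : G) (l : Λ), n (x * l) = n x) ∧ {c : G ⧸ Λ | n (Quotient.out c) ≠ 0}.Finite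

theorem ILk_out {Λ : Subgroup G} {n : G → k} (hn : ILk Λ n) (g : G) :
    n (Quotient.out (g : G ⧸ Λ)) = n g := by
  have h := hn.1 (Quotient.out (g : G ⧸ Λ)) (tau Λ g)
  rw [out_mul_tau] at h
  exact h.symm

theorem ILk_range {Λ : Subgroup G} {n : G → k} (hn : ILk Λ n) : (Set.range n).Finite := by
  refine ((hn.2.image (fun c => n (Quotient.out c))).union (Set.finite_singleton (0 : k))).subset ?_
  rintro _ ⟨g, rfl⟩
  by_cases h : n g = 0
  · exact Or.inr h
  · refine Or.inl ⟨(g : G ⧸ Λ), ?_, ILk_out hn g⟩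
    show n (Quotient.out (g : G ⧸ Λ)) ≠ 0
    rw [ILk_out hn]
    exact h

theorem ILk_comp {k' : Type*} [AddCommGroup k'] {Λ : Subgroup G} {n : G → k} (hn : ILk Λ n)
    (ψ : k →+ k') : ILk Λ (compHom ψ n) := by
  refine ⟨fun x l => ?_, hn.2.subset fun c hc h0 => hc ?_⟩
  · rw [compHom_apply, compHom_apply, hn.1]
  · rw [compHom_apply, h0, map_zero]

theorem ILk_sum {ι : Type*} (s : Finset ι) {Λ : Subgroup G} {n : ι → G → k}
    (hn : ∀ t, ILk Λ (n t)) : ILk Λ (∑ t ∈ s, n t) := by
  refine ⟨fun x l => ?_, ?_⟩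
  · rw [Finset.sum_apply, Finset.sum_apply]
    exact Finset.sum_congr rfl fun t _ => (hn t).1 x l
  · refine (s.finite_toSet.biUnion fun t _ => (hn t).2).subset fun c hc => ?_
    by_contra hcon
    apply hc
    rw [Finset.sum_apply]
    refine Finset.sum_eq_zero fun t ht => ?_
    by_contra h
    apply hcon
    simp only [Set.mem_iUnion]
    exact ⟨t, ht, h⟩

theorem mact_comp {k' : Type*} [AddCommGroup k'] (ψ : k →+ k') {m n : ℕ}
    (M : Matrix (Fin m) (Fin n) (MonoidAlgebra ℤ G)) (f : Fin n → G → k) :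
    mact (tr k') M (fun j => compHom ψ (f j)) = fun i => compHom ψ (mact (tr k) M f i) :=
  mact_nat (tr k) (tr k') (compHom ψ) (fun r w => tr_nat ψ r w) M f

/-- Solvability for integral functions implies solvability for functions with values in a
torsion-free group. -/
theorem ext_scalars [Module.IsTorsionFree ℤ k] (Λ : Subgroup G) (C : FinRes G) (i : ℕ)
    (hyp : ∀ a : Fin (C.rank (i + 1)) → G → ℤ, (∀ b, IL Λ (a b)) → mact (tr ℤ) (C.d (i + 1)) a = 0 →
      ∃ c : Fin (C.rank i) → G → ℤ, (∀ b, IL Λ (c b)) ∧ mact (tr ℤ) (C.d i) c = a)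
    (a : Fin (C.rank (i + 1)) → G → k) (ha : ∀ b, ILk Λ (a b))
    (hd : mact (tr k) (C.d (i + 1)) a = 0) :
    ∃ c : Fin (C.rank i) → G → k, (∀ b, ILk Λ (c b)) ∧ mact (tr k) (C.d i) c = a := by
  classical
  have hV : (⋃ b, Set.range (a b)).Finite := Set.finite_iUnion fun b => ILk_range (ha b)
  let S : Submodule ℤ k := Submodule.span ℤ (⋃ b, Set.range (a b))
  have : Module.Finite ℤ S := Module.Finite.span_of_finite ℤ hV
  have : Module.IsTorsionFree ℤ S := inferInstance
  have : Module.Free ℤ S := Module.free_of_finite_type_torsion_free'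
  let e := Module.Free.chooseBasis ℤ S
  have hmem : ∀ b g, a b g ∈ S := fun b g =>
    Submodule.subset_span (Set.mem_iUnion.2 ⟨b, g, rfl⟩)
  let a' : Fin (C.rank (i + 1)) → G → S := fun b g => ⟨a b g, hmem b g⟩
  let inc : S →+ k := S.subtype.toAddMonoidHom
  have hinc : ∀ x, inc x = (x : k) := fun x => rfl
  have ha' : (fun b => compHom inc (a' b)) = a := rfl
  have hd' : mact (tr S) (C.d (i + 1)) a' = 0 := by
    have h := mact_comp inc (C.d (i + 1)) a'
    rw [ha', hd] at h
    ext1 b
    ext1 g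
    have h1 := congrFun (congrFun h b) g
    rw [compHom_apply, hinc] at h1
    exact Subtype.ext h1.symm
  let φ : Module.Free.ChooseBasisIndex ℤ S → (S →+ ℤ) := fun t => (e.coord t).toAddMonoidHom
  have hφ : ∀ t x, φ t x = e.repr x t := fun t x => rfl
  have hsol : ∀ t, ∃ c : Fin (C.rank i) → G → ℤ, (∀ b, IL Λ (c b)) ∧
      mact (tr ℤ) (C.d i) c = fun b => compHom (φ t) (a' b) := by
    intro t
    apply hyp
    · intro b
      refine ⟨fun x l => ?_, (ha b).2.subset fun c hc h0 => hc ?_⟩
      · have h1 : a' b (x * l) = a' b x := Subtype.ext ((ha b).1 x l)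
        rw [compHom_apply, compHom_apply, h1]
      · have h1 : a' b (Quotient.out c) = 0 := Subtype.ext h0
        rw [compHom_apply, h1, map_zero]
    · rw [mact_comp, hd']
      ext1 b
      exact map_zero _
  choose c hc1 hc2 using hsol
  let ψ : Module.Free.ChooseBasisIndex ℤ S → (ℤ →+ k) := fun t => zmultiplesHom k ((e t : S) : k)
  have hψ : ∀ t z, ψ t z = z • ((e t : S) : k) := fun t z => rfl
  refine ⟨fun b => ∑ t, compHom (ψ t) (c t b), fun b => ?_, ?_⟩
  · exact ILk_sum _ fun t => ILk_comp (hc1 t b) (ψ t)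
  · have h1 : (fun b => ∑ t, compHom (ψ t) (c t b)) = ∑ t, fun b => compHom (ψ t) (c t b) := by
      ext1 b
      rw [Finset.sum_apply]
    rw [h1, map_sum]
    simp only [mact_comp, hc2]
    ext b g
    rw [Finset.sum_apply, Finset.sum_apply]
    simp only [compHom_apply, hφ, hψ]
    have h2 := e.sum_repr (a' b g)
    have h3 := congrArg (fun y : S => (y : k)) h2
    simp only [Submodule.coe_sum, Submodule.coe_smul] at h3
    exact h3

end Coef

/-! ### Permutation modules -/

section Perm
variable {k : Type*} [CommRing k] {X : Type*} [MulAction G X]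

/-- the function `g ↦ f (g x)` on `G` given by an element `f` of `k[X]` and a point `x` of `X` -/
def Px (x : X) : MonoidAlgebra k X →+ (G → k) where
  toFun f := fun g => f.coeff (g • x)
  map_zero' := by ext; simp
  map_add' f g := by ext; simp

theorem Px_apply (x : X) (f : MonoidAlgebra k X) (g : G) : Px (G := G) x f g = f.coeff (g • x) := rfl

variable (G k X) in
/-- the action on `k[X]` by additive endomorphisms -/
def permHom : G →* AddMonoid.End (MonoidAlgebra k X) where
  toFun g := (Representation.ofMulAction k G X g).toAddMonoidHom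
  map_one' := by
    rw [map_one]
    rfl
  map_mul' g h := by
    rw [map_mul]
    rfl

theorem permHom_apply (g : G) (f : MonoidAlgebra k X) :
    permHom G k X g f = Representation.ofMulAction k G X g f := rfl

theorem Px_act (x : X) (a : MonoidAlgebra ℤ G) (f : MonoidAlgebra k X) :
    Px x (th (permHom G k X) a f) = tr k a (Px x f) := by
  apply th_nat
  intro g w
  ext h
  show (permHom G k X g w).coeff (h • x) = w.coeff ((g⁻¹ * h) • x)
  rw [permHom_apply, Representation.coeff_ofMulAction, smul_smul]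

theorem Px_IL (x : X) (f : MonoidAlgebra k X) : ILk (MulAction.stabilizer G x) (Px x f) := by
  refine ⟨fun g l => ?_, ?_⟩
  · rw [Px_apply, Px_apply, mul_smul]
    rw [MulAction.mem_stabilizer_iff.1 l.2]
  · have hinj : Function.Injective
        (fun c : G ⧸ MulAction.stabilizer G x => (Quotient.out c : G) • x) := by
      intro c c' h
      have h1 : (Quotient.out c : G) • x = (Quotient.out c' : G) • x := h
      have h2 : (Quotient.out c : G)⁻¹ * (Quotient.out c' : G) ∈ MulAction.stabilizer G x := by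
        rw [MulAction.mem_stabilizer_iff, mul_smul, ← h1, inv_smul_smul]
      have h3 : ((Quotient.out c : G) : G ⧸ MulAction.stabilizer G x) =
          ((Quotient.out c' : G) : G ⧸ MulAction.stabilizer G x) := QuotientGroup.eq.2 h2
      rwa [QuotientGroup.out_eq', QuotientGroup.out_eq'] at h3
    exact (f.coeff.support.finite_toSet.preimage hinj.injOn).subset (fun c hc => by
      have hc' : f.coeff ((Quotient.out c : G) • x) ≠ 0 := hc
      simpa using hc')

theorem Px_mact {m n : ℕ} (M : Matrix (Fin m) (Fin n) (MonoidAlgebra ℤ G)) (x : X)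
    (f : Fin n → MonoidAlgebra k X) :
    mact (tr k) M (fun b => Px x (f b)) = fun a => Px (G := G) x (mact (th (permHom G k X)) M f a) :=
  mact_nat (th (permHom G k X)) (tr k) (Px x) (fun r w => Px_act x r w) M f

/-- Solutions on the orbits give a solution. -/
theorem glue (C : FinRes G) (i : ℕ) (f : Fin (C.rank (i + 1)) → MonoidAlgebra k X)
    (h : ∀ x : X, ∃ c : Fin (C.rank i) → G → k, (∀ b, ILk (MulAction.stabilizer G x) (c b)) ∧
      mact (tr k) (C.d i) c = fun a => Px x (f a)) :
    ∃ c, mact (th (permHom G k X)) (C.d i) c = f := by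
  classical
  -- representatives of the orbits
  let rep : MulAction.orbitRel.Quotient G X → X := Quotient.out
  let cl : X → MulAction.orbitRel.Quotient G X := fun y => Quotient.mk _ y
  have hrep : ∀ ω, cl (rep ω) = ω := fun ω => Quotient.out_eq ω
  have hcl : ∀ (g : G) (y : X), cl (g • y) = cl y := by
    intro g y
    apply Quotient.sound
    exact ⟨g, rfl⟩
  have hγ : ∀ y : X, ∃ g : G, g • rep (cl y) = y := by
    intro y
    have h1 : cl (rep (cl y)) = cl y := hrep _
    have h2 := Quotient.exact h1.symm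
    obtain ⟨g, hg⟩ := h2
    exact ⟨g, hg⟩
  choose γ hγ using hγ
  have hex : ∀ ω, ∃ c : Fin (C.rank i) → G → k,
      (∀ b, ILk (MulAction.stabilizer G (rep ω)) (c b)) ∧
      (mact (tr k) (C.d i) c = fun a => Px (rep ω) (f a)) ∧
      ((∀ a, Px (G := G) (rep ω) (f a) = 0) → c = 0) := by
    intro ω
    by_cases hz : ∀ a, Px (G := G) (rep ω) (f a) = 0
    · refine ⟨0, fun b => ⟨fun x l => rfl, ?_⟩, ?_, fun _ => rfl⟩
      · simp
      · rw [map_zero]
        ext1 a
        rw [hz a]
        rfl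
    · obtain ⟨c, hc1, hc2⟩ := h (rep ω)
      exact ⟨c, hc1, hc2, fun hz' => absurd hz' hz⟩
  choose c hc1 hc2 hc3 using hex
  -- the finite set of the orbits which meet the supports
  have hS : {ω | ¬ ∀ a, Px (G := G) (rep ω) (f a) = 0}.Finite := by
    have hfin : (⋃ a : Fin (C.rank (i + 1)), cl '' (((f a).coeff.support : Finset X) : Set X)).Finite :=
      Set.finite_iUnion fun a => (f a).coeff.support.finite_toSet.image cl
    refine hfin.subset ?_
    intro ω hω
    have hω' : ∃ a, Px (G := G) (rep ω) (f a) ≠ 0 := not_forall.1 hω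
    obtain ⟨a, ha⟩ := hω'
    have : ∃ g, Px (G := G) (rep ω) (f a) g ≠ 0 := by
      by_contra hcon
      apply ha
      ext g
      by_contra hg
      exact hcon ⟨g, hg⟩
    obtain ⟨g, hg⟩ := this
    rw [Set.mem_iUnion]
    have hg' : (f a).coeff (g • rep ω) ≠ 0 := hg
    refine ⟨a, g • rep ω, ?_, ?_⟩
    · simpa using hg'
    · rw [hcl, hrep]
  let F : Fin (C.rank i) → X → k := fun b y => c (cl y) b (γ y)
  have hF : ∀ b ω (g : G), F b (g • rep ω) = c ω b g := by
    intro b ω g
    have hω : cl (g • rep ω) = ω := by rw [hcl, hrep]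
    have h1 := hγ (g • rep ω)
    show c (cl (g • rep ω)) b (γ (g • rep ω)) = c ω b g
    generalize γ (g • rep ω) = l at h1
    rw [hω] at h1 ⊢
    have h2 : g⁻¹ * l ∈ MulAction.stabilizer G (rep ω) := by
      rw [MulAction.mem_stabilizer_iff, mul_smul, h1, inv_smul_smul]
    have h3 := (hc1 ω b).1 g ⟨g⁻¹ * l, h2⟩
    rw [← h3]
    show c ω b l = c ω b (g * (g⁻¹ * l))
    rw [mul_inv_cancel_left]
  have hsupp : ∀ b, (Function.support (F b)).Finite := by
    intro b
    have hfin : (⋃ ω ∈ {ω | ¬ ∀ a, Px (G := G) (rep ω) (f a) = 0},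
        (fun κ : G ⧸ MulAction.stabilizer G (rep ω) => (Quotient.out κ : G) • rep ω) ''
          {κ | c ω b (Quotient.out κ) ≠ 0}).Finite :=
      hS.biUnion fun ω _ => (hc1 ω b).2.image _
    refine hfin.subset ?_
    intro y hy
    have hy' : c (cl y) b (γ y) ≠ 0 := hy
    simp only [Set.mem_iUnion]
    refine ⟨cl y, ?_, ?_⟩
    · intro hz
      apply hy'
      rw [hc3 (cl y) hz]
      rfl
    · refine ⟨((γ y : G) : G ⧸ MulAction.stabilizer G (rep (cl y))), ?_, ?_⟩
      · show c (cl y) b (Quotient.out ((γ y : G) : G ⧸ MulAction.stabilizer G (rep (cl y)))) ≠ 0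
        rw [ILk_out (hc1 (cl y) b)]
        exact hy'
      · show (Quotient.out ((γ y : G) : G ⧸ MulAction.stabilizer G (rep (cl y))) : G) • rep (cl y) = y
        have h4 := out_mul_tau (MulAction.stabilizer G (rep (cl y))) (γ y)
        have h5 : (Quotient.out ((γ y : G) : G ⧸ MulAction.stabilizer G (rep (cl y))) : G) •
            rep (cl y) = (γ y) • rep (cl y) := by
          conv_rhs => rw [← h4, mul_smul]
          rw [MulAction.mem_stabilizer_iff.1 (tau (MulAction.stabilizer G (rep (cl y))) (γ y)).2]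
        rw [h5, hγ]
  let c' : Fin (C.rank i) → MonoidAlgebra k X := fun b =>
    .ofCoeff (Finsupp.ofSupportFinite (F b) (hsupp b))
  have hc' : ∀ ω b, Px (G := G) (rep ω) (c' b) = c ω b := by
    intro ω b
    ext g
    exact hF b ω g
  refine ⟨c', ?_⟩
  ext a y
  have h1 := congrFun (Px_mact (C.d i) (rep (cl y)) c') a
  simp only [hc'] at h1
  rw [hc2] at h1
  have h2 : (f a).coeff (γ y • rep (cl y)) =
      (mact (th (permHom G k X)) (C.d i) c' a).coeff (γ y • rep (cl y)) :=
    congrFun h1 (γ y)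
  rw [hγ] at h2
  exact h2.symm

/-- Vanishing for permutation modules with amenable stabilisers and coefficients in a torsion-free
ring. -/
theorem perm_trivial [Module.IsTorsionFree ℤ k]
    (hX : ∀ x : X, FoelnerAmenable (MulAction.stabilizer G x)) (C : FinRes G)
    (h0 : ¬ Nontrivial (C.homology 0)) (h1 : ¬ Nontrivial (C.homology 1))
    (h2 : ¬ Nontrivial (C.homology 2)) (i : ℕ) (hi : i ≤ 1)
    (f : Fin (C.rank (i + 1)) → MonoidAlgebra k X)
    (hf : mact (th (permHom G k X)) (C.d (i + 1)) f = 0) :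
    ∃ c, mact (th (permHom G k X)) (C.d i) c = f := by
  apply glue
  intro x
  apply ext_scalars
  · interval_cases i
    · exact fun a ha hd => deg1 _ (hX x) C h0 h1 h2 a ha hd
    · exact fun a ha hd => deg2 _ (hX x) C h0 h1 h2 a ha hd
  · exact fun b => Px_IL x _
  · rw [Px_mact, hf]
    ext1 a
    simp

end Perm

/-! ### Diagram chase -/

section Chase
variable {k A B N : Type*} [CommRing k] [AddCommGroup A] [AddCommGroup B] [AddCommGroup N]
  (ρA : G →* AddMonoid.End A) (ρB : G →* AddMonoid.End B) (ρN : G →* AddMonoid.End N)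

theorem eps_th (ε : N →+ k) (h : ∀ g n, ε (ρN g n) = ε n) (a : MonoidAlgebra ℤ G) (n : N) :
    ε (th ρN a n) = (eps G a : k) * ε n := by
  induction a using MonoidAlgebra.induction_linear with
  | zero => simp
  | add a b ha hb => rw [map_add, end_add_apply, map_add, ha, hb, map_add, Int.cast_add, add_mul]
  | single g z =>
    rw [th_single, map_zsmul, h]
    simp [eps]

theorem mact_nat' (ψ : A →+ B) (h : ∀ g w, ψ (ρA g w) = ρB g (ψ w)) {m n : ℕ}
    (M : Matrix (Fin m) (Fin n) (MonoidAlgebra ℤ G)) (f : Fin n → A) :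
    (fun i => ψ (mact (th ρA) M f i)) = mact (th ρB) M (fun j => ψ (f j)) := by
  ext1 i
  rw [mact_apply, mact_apply, map_sum]
  exact Finset.sum_congr rfl fun j _ => th_nat ρA ρB ψ h _ _

theorem chase (C : FinRes G) (d2 : A →+ B) (d1 : B →+ N) (ε : N →+ k)
    (e2 : ∀ g w, d2 (ρA g w) = ρB g (d2 w)) (e1 : ∀ g w, d1 (ρB g w) = ρN g (d1 w))
    (e0 : ∀ g w, ε (ρN g w) = ε w)
    (x2 : ∀ w, d2 w = 0 → w = 0) (x1 : ∀ w, d1 w = 0 ↔ ∃ u, d2 u = w)
    (x0 : ∀ w, ε w = 0 ↔ ∃ u, d1 u = w) (hs : ∃ w, ε w = 1)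
    (vA : ∀ f, mact (th ρA) (C.d 2) f = 0 → ∃ c, mact (th ρA) (C.d 1) c = f)
    (vB : ∀ f, mact (th ρB) (C.d 1) f = 0 → ∃ c, mact (th ρB) (C.d 0) c = f) :
    ∃ m : N, (∀ g, ρN g m = m) ∧ ε m = 1 := by
  obtain ⟨n1, hn1⟩ := hs
  -- the chain map
  let f0 : Fin (C.rank 0) → N := fun b => C.aug b • n1
  have hf0 : ∀ b, ε (f0 b) = (C.aug b : k) := by
    intro b
    show ε (C.aug b • n1) = _
    rw [map_zsmul, hn1]
    simp
  have h1 : ∀ a, ∃ u, d1 u = mact (th ρN) (C.d 0) f0 a := by
    intro a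
    have hr := congrArg (fun z : ℤ => (z : k)) (C.sum_row_zero a)
    simp only [Int.cast_sum, Int.cast_mul, Int.cast_zero] at hr
    rw [← x0, mact_apply, map_sum, ← hr]
    refine Finset.sum_congr rfl fun b _ => ?_
    rw [eps_th ρN ε e0, hf0]
  choose f1 hf1 using h1
  have hf1' : (fun a => d1 (f1 a)) = mact (th ρN) (C.d 0) f0 := funext hf1
  have h2 : ∀ a, ∃ u, d2 u = mact (th ρB) (C.d 1) f1 a := by
    intro a
    rw [← x1]
    have := congrFun (mact_nat' ρB ρN d1 e1 (C.d 1) f1) a
    rw [this, hf1', ← mact_mul, C.d_mul_d, mact_zero]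
    rfl
  choose f2 hf2 using h2
  have hf2' : (fun a => d2 (f2 a)) = mact (th ρB) (C.d 1) f1 := funext hf2
  have hz2 : mact (th ρA) (C.d 2) f2 = 0 := by
    ext1 a
    apply x2
    have := congrFun (mact_nat' ρA ρB d2 e2 (C.d 2) f2) a
    rw [this, hf2', ← mact_mul, C.d_mul_d, mact_zero]
    rfl
  obtain ⟨s1, hs1⟩ := vA f2 hz2
  have hz1 : mact (th ρB) (C.d 1) (f1 - fun a => d2 (s1 a)) = 0 := by
    rw [map_sub, ← mact_nat' ρA ρB d2 e2 (C.d 1) s1, hs1, hf2', sub_self]
  obtain ⟨s0, hs0⟩ := vB _ hz1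
  let f0' : Fin (C.rank 0) → N := f0 - fun b => d1 (s0 b)
  have hz0 : mact (th ρN) (C.d 0) f0' = 0 := by
    show mact (th ρN) (C.d 0) (f0 - fun b => d1 (s0 b)) = 0
    rw [map_sub, ← mact_nat' ρB ρN d1 e1 (C.d 0) s0, hs0, ← hf1']
    ext1 a
    show d1 (f1 a) - d1 (f1 a - d2 (s1 a)) = 0
    rw [map_sub, (x1 (d2 (s1 a))).2 ⟨_, rfl⟩]
    simp
  have hε : ∀ b, ε (f0' b) = (C.aug b : k) := by
    intro b
    show ε (f0 b - d1 (s0 b)) = _
    rw [map_sub, (x0 (d1 (s0 b))).2 ⟨_, rfl⟩, hf0, sub_zero]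
  obtain ⟨v, hv⟩ := C.exists_x
  refine ⟨∑ b, th ρN (v b) (f0' b), ?_, ?_⟩
  · intro g
    have hv' : C.augMap (fun j => (MonoidAlgebra.single g 1 - 1) * v j) = 0 := by
      rw [C.augMap_smul, map_sub, map_one]
      have : eps G (MonoidAlgebra.single g 1) = 1 := by simp [eps]
      rw [this]
      simp
    obtain ⟨w, hw⟩ := (C.augMap_eq_zero_iff _).1 hv'
    have h3 : ∑ b, th ρN ((MonoidAlgebra.single g 1 - 1) * v b) (f0' b) = 0 := by
      have h4 : ∀ b, (MonoidAlgebra.single g 1 - 1) * v b = (w ᵥ* C.d 0) b := by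
        intro b
        rw [hw]
      simp only [h4, Matrix.vecMul, dotProduct, map_sum, map_mul]
      simp only [end_sum_apply, end_mul_apply]
      rw [Finset.sum_comm]
      have h5 : ∀ a, ∑ b, th ρN (w a) (th ρN (C.d 0 a b) (f0' b)) = 0 := by
        intro a
        rw [← map_sum]
        have h6 := congrFun hz0 a
        rw [mact_apply] at h6
        rw [h6]
        simp
      exact Finset.sum_eq_zero fun a _ => h5 a
    have h7 : ∀ b, th ρN ((MonoidAlgebra.single g 1 - 1) * v b) (f0' b) =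
        ρN g (th ρN (v b) (f0' b)) - th ρN (v b) (f0' b) := by
      intro b
      rw [map_mul, end_mul_apply, map_sub, end_sub_apply, th_one_single, map_one, end_one_apply]
    simp only [h7, Finset.sum_sub_distrib] at h3
    rw [← map_sum] at h3
    exact sub_eq_zero.1 h3
  · have hr := congrArg (fun z : ℤ => (z : k)) hv
    simp only [C.augMap_apply, Int.cast_sum, Int.cast_mul, Int.cast_one] at hr
    rw [map_sum, ← hr]
    refine Finset.sum_congr rfl fun b _ => ?_
    rw [eps_th ρN ε e0, hε]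

end Chase

/-! ### Relative resolutions -/

/-- The splitting. -/
theorem RelRes.split {G : Type u} [Group G] {k : Type} [CommRing k] [Module.IsTorsionFree ℤ k]
    (R : RelRes k G) (a1 : ∀ x : R.X₁, FoelnerAmenable (MulAction.stabilizer G x))
    (a2 : ∀ x : R.X₂, FoelnerAmenable (MulAction.stabilizer G x)) (C : FinRes G)
    (h0 : ¬ Nontrivial (C.homology 0)) (h1 : ¬ Nontrivial (C.homology 1))
    (h2 : ¬ Nontrivial (C.homology 2)) :
    ∃ n : R.N, (∀ g : G, g • n = n) ∧ R.ε n = 1 :=
  chase (permHom G k R.X₂) (permHom G k R.X₁) (DistribMulAction.toAddMonoidEnd G R.N) C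
    R.d₂ R.d₁ R.ε R.d₂_act R.d₁_act R.ε_act R.injective R.exact₁ R.exactN R.surjective
    (perm_trivial a2 C h0 h1 h2 1 le_rfl) (perm_trivial a1 C h0 h1 h2 0 (by norm_num))

/-- A fixed element of `k[X]` is zero if the orbits of `X` are infinite. -/
theorem fixed_eq_zero {G : Type*} [Group G] {k X : Type*} [CommRing k] [MulAction G X]
    (hX : ∀ x : X, (MulAction.orbit G x).Infinite) (f : MonoidAlgebra k X)
    (hf : ∀ g : G, Representation.ofMulAction k G X g f = f) : f = 0 := by
  ext x
  by_contra h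
  have h' : f.coeff x ≠ 0 := h
  apply hX x
  refine f.coeff.support.finite_toSet.subset ?_
  rintro _ ⟨g, rfl⟩
  have h1 : f.coeff (g⁻¹ • (g • x)) = f.coeff (g • x) := by
    rw [← Representation.coeff_ofMulAction, hf g]
  rw [inv_smul_smul] at h1
  simp only [Finset.mem_coe, Finsupp.mem_support_iff]
  show f.coeff (g • x) ≠ 0
  rw [← h1]
  exact h'

/-- The action on the permutation module. -/
@[reducible] def permAct (G : Type u) [Group G] (k : Type) [CommRing k] (X : Type u) [MulAction G X] :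
    DistribMulAction G (MonoidAlgebra k X) where
  smul g f := Representation.ofMulAction k G X g f
  one_smul f := by
    show Representation.ofMulAction k G X 1 f = f
    rw [map_one]
    rfl
  mul_smul g h f := by
    show Representation.ofMulAction k G X (g * h) f = _
    rw [map_mul]
    rfl
  smul_zero g := map_zero (Representation.ofMulAction k G X g)
  smul_add g a b := map_add (Representation.ofMulAction k G X g) a b

/-- The chains of an acyclic complex of dimension two. -/
def RelRes.ofComplex (G : Type u) [Group G] (k : Type) [CommRing k] (X₀ X₁ X₂ : Type u)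
    [MulAction G X₀] [MulAction G X₁] [MulAction G X₂]
    (d₂ : MonoidAlgebra k X₂ →+ MonoidAlgebra k X₁) (d₁ : MonoidAlgebra k X₁ →+ MonoidAlgebra k X₀)
    (ε : MonoidAlgebra k X₀ →+ k)
    (e2 : ∀ (g : G) c, d₂ (Representation.ofMulAction k G X₂ g c) =
      Representation.ofMulAction k G X₁ g (d₂ c))
    (e1 : ∀ (g : G) c, d₁ (Representation.ofMulAction k G X₁ g c) =
      Representation.ofMulAction k G X₀ g (d₁ c))
    (e0 : ∀ (g : G) n, ε (Representation.ofMulAction k G X₀ g n) = ε n)
    (x2 : ∀ c, d₂ c = 0 → c = 0) (x1 : ∀ c, d₁ c = 0 ↔ ∃ b, d₂ b = c)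
    (x0 : ∀ n, ε n = 0 ↔ ∃ c, d₁ c = n) (hs : ∃ n, ε n = 1) : RelRes k G where
  X₁ := X₁
  X₂ := X₂
  N := MonoidAlgebra k X₀
  actN := permAct G k X₀
  d₂ := d₂
  d₁ := d₁
  ε := ε
  d₂_act := e2
  d₁_act := e1
  ε_act := e0
  injective := x2
  exact₁ := x1
  exactN := x0
  surjective := hs

/-- The final statement. -/
theorem final4 {G : Type u} [Group G] (C : FinRes G)
    (h : (∀ i, 2 < i → C.rank i = 0) ∨
      (∃ Λ : Subgroup G, FoelnerAmenable Λ ∧ ∃ j ≤ 2, Nontrivial (C.cohomology (G ⧸ Λ) j)) ∨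
      ((∃ g : G, ¬ IsOfFinOrder g) ∧ Nonempty (C.cohomology G 3 ≃+ ℤ)) ∨
      (∃ (k : Type) (_ : CommRing k) (_ : Module.IsTorsionFree ℤ k) (R : RelRes k G),
        (∀ x : R.X₁, FoelnerAmenable (MulAction.stabilizer G x)) ∧
        (∀ x : R.X₂, FoelnerAmenable (MulAction.stabilizer G x)) ∧
        ∀ n : R.N, (∀ g : G, g • n = n) → R.ε n ≠ 1)) :
    ∃ i ≤ 2, Nontrivial (C.homology i) := by
  rcases h with h | h | h | ⟨k, _, _, R, a1, a2, hR⟩
  · exact final C (Or.inl h)
  · exact final C (Or.inr (Or.inl h))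
  · exact final C (Or.inr (Or.inr h))
  · by_contra hcon
    simp only [not_exists, not_and] at hcon
    obtain ⟨n, hn, hn1⟩ := R.split a1 a2 C (hcon 0 (by norm_num)) (hcon 1 (by norm_num))
      (hcon 2 le_rfl)
    exact hR n hn hn1

end

end Z9f173d
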