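import Pool.Agent.Lib.Z9f173d.Quasi

/-!
# Weak containment of twisted quasi-regular representations of amenable subgroups
-/

namespace Z9f173d

noncomputable section

open scoped Matrix ComplexConjugate

variable {G : Type*} [Group G] {Λ : Subgroup G} (χ : Λ →* Circle)

theorem repAlg_apply {V : Type*} [NormedAddCommGroup V] [NormedSpace ℂ V]
    (ρ : G →* (V →L[ℂ] V)) (e : MonoidAlgebra ℂ G) (v : V) :
    repAlg ρ e v = ∑ g ∈ e.coeff.support, e.coeff g • ρ g v := by
  rw [repAlg, MonoidAlgebra.lift_apply, Finsupp.sum, ContinuousLinearMap.sum_apply]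
  rfl

theorem del_eq_single {X : Type*} [DecidableEq X] (x : X) : del x = lp.single 2 x (1 : ℂ) := by
  ext y
  rw [del_apply]
  by_cases h : y = x
  · subst h
    simp
  · simp [h]

theorem norm_lc_eq {ι E F : Type*} [NormedAddCommGroup E] [InnerProductSpace ℂ E]
    [NormedAddCommGroup F] [InnerProductSpace ℂ F] {a : ι → E} {b : ι → F}
    (ha : Orthonormal ℂ a) (hb : Orthonormal ℂ b) (v : ι →₀ ℂ) :
    ‖Finsupp.linearCombination ℂ a v‖ = ‖Finsupp.linearCombination ℂ b v‖ := by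
  have h : inner ℂ (Finsupp.linearCombination ℂ a v) (Finsupp.linearCombination ℂ a v)
      = inner ℂ (Finsupp.linearCombination ℂ b v) (Finsupp.linearCombination ℂ b v) := by
    rw [ha.inner_finsupp_eq_sum_left, hb.inner_finsupp_eq_sum_left]
  rw [@norm_eq_sqrt_re_inner ℂ, @norm_eq_sqrt_re_inner ℂ, h]

theorem norm_diff_le (K : Finset Λ) (hK : K.Nonempty) (g : G) (c : G ⧸ Λ) (ε : ℝ)
    (hε : (Nat.card {k : Λ // k ∈ K ∧ sig g c * k ∉ K} : ℝ) ≤ ε * K.card) :
    ‖(χ (sig g c)⁻¹ : ℂ) • eK χ K (g • c) - lreg g (eK χ K c)‖ ^ 2 ≤ 2 * ε := by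
  have hcard : (0 : ℝ) < K.card := by exact_mod_cast hK.card_pos
  have hon := orthonormal_eK χ K hK
  have h1 : ‖(χ (sig g c)⁻¹ : ℂ) • eK χ K (g • c)‖ = 1 := by
    rw [norm_smul, hon.1, mul_one]
    exact Circle.norm_coe _
  have h2 : ‖lreg g (eK χ K c)‖ = 1 := by
    rw [← hon.1 c]
    exact norm_lregLin g _
  rw [@norm_sub_sq ℂ, h1, h2, inner_key χ K hK]
  have h3 : (Nat.card {k : Λ // k ∈ K ∧ sig g c * k ∉ K} : ℝ) / K.card ≤ ε := by
    rw [div_le_iff₀ hcard]; exact hε
  have h4 : RCLike.re (((1 - (Nat.card {k : Λ // k ∈ K ∧ sig g c * k ∉ K} : ℝ) / K.card : ℝ) : ℂ))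
      = 1 - (Nat.card {k : Λ // k ∈ K ∧ sig g c * k ∉ K} : ℝ) / K.card := Complex.ofReal_re _
  rw [h4]
  linarith

theorem repAlg_qreg_del (e : MonoidAlgebra ℂ G) (v : (G ⧸ Λ) →₀ ℂ) :
    repAlg (qreg χ) e (Finsupp.linearCombination ℂ del v)
      = Finsupp.linearCombination ℂ del (∑ g ∈ e.coeff.support, ∑ c ∈ v.support,
          Finsupp.single (g • c) (e.coeff g * v c * (χ (sig g c)⁻¹ : ℂ))) := by
  rw [repAlg_apply, map_sum]
  refine Finset.sum_congr rfl fun g _ => ?_
  rw [map_sum, Finsupp.linearCombination_apply, Finsupp.sum, map_sum, Finset.smul_sum]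
  refine Finset.sum_congr rfl fun c _ => ?_
  rw [map_smul, qreg_del, Finsupp.linearCombination_single, smul_smul, smul_smul, mul_assoc]

theorem weak_finsupp (hΛ : FoelnerAmenable Λ) (e : MonoidAlgebra ℂ G) (v : (G ⧸ Λ) →₀ ℂ) :
    ‖repAlg (qreg χ) e (Finsupp.linearCombination ℂ del v)‖
      ≤ ‖repAlg (lreg (G := G)) e‖ * ‖Finsupp.linearCombination ℂ del v‖ := by
  classical
  refine le_of_forall_pos_le_add fun η hη => ?_
  set M : ℝ := ∑ g ∈ e.coeff.support, ∑ c ∈ v.support, ‖e.coeff g‖ * ‖v c‖ with hM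
  have hM0 : 0 ≤ M := by positivity
  set ε : ℝ := (η / (M + 1)) ^ 2 / 2 with hε
  have hεpos : 0 < ε := by positivity
  obtain ⟨K, hK, hKS⟩ := hΛ
    ((e.coeff.support ×ˢ v.support).image fun p => sig p.1 p.2) ε hεpos
  set w := ∑ g ∈ e.coeff.support, ∑ c ∈ v.support,
          Finsupp.single (g • c) (e.coeff g * v c * (χ (sig g c)⁻¹ : ℂ)) with hw
  have hon := orthonormal_eK χ K hK
  rw [repAlg_qreg_del, ← hw, norm_lc_eq orthonormal_del hon w, norm_lc_eq orthonormal_del hon v]
  set J := Finsupp.linearCombination ℂ (eK χ K) with hJ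
  have hdiff : ‖J w - repAlg (lreg (G := G)) e (J v)‖ ≤ η := by
    have h1 : J w - repAlg (lreg (G := G)) e (J v) = ∑ g ∈ e.coeff.support, ∑ c ∈ v.support,
        (e.coeff g * v c) • ((χ (sig g c)⁻¹ : ℂ) • eK χ K (g • c) - lreg g (eK χ K c)) := by
      rw [repAlg_apply, hw, map_sum, ← Finset.sum_sub_distrib]
      refine Finset.sum_congr rfl fun g _ => ?_
      rw [map_sum, hJ, Finsupp.linearCombination_apply ℂ v, Finsupp.sum, map_sum, Finset.smul_sum,
        ← Finset.sum_sub_distrib]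
      refine Finset.sum_congr rfl fun c _ => ?_
      rw [map_smul, Finsupp.linearCombination_single, smul_smul, smul_sub, smul_smul]
    rw [h1]
    calc ‖∑ g ∈ e.coeff.support, ∑ c ∈ v.support,
        (e.coeff g * v c) • ((χ (sig g c)⁻¹ : ℂ) • eK χ K (g • c) - lreg g (eK χ K c))‖
        ≤ ∑ g ∈ e.coeff.support, ∑ c ∈ v.support, (‖e.coeff g‖ * ‖v c‖) * (η / (M + 1)) := by
          refine (norm_sum_le _ _).trans (Finset.sum_le_sum fun g hg => ?_)
          refine (norm_sum_le _ _).trans (Finset.sum_le_sum fun c hc => ?_)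
          rw [norm_smul, norm_mul]
          refine mul_le_mul_of_nonneg_left ?_ (by positivity)
          have h2 := norm_diff_le χ K hK g c ε (by
            have := hKS (sig g c) (Finset.mem_image.2 ⟨(g, c), Finset.mem_product.2 ⟨hg, hc⟩, rfl⟩)
            rwa [Nat.card_eq_finsetCard] at this)
          have h3 : 2 * ε = (η / (M + 1)) ^ 2 := by rw [hε]; ring
          rw [h3] at h2
          exact (pow_le_pow_iff_left₀ (norm_nonneg _) (by positivity) two_ne_zero).1 h2
      _ = M * (η / (M + 1)) := by rw [hM, Finset.sum_mul]; simp only [Finset.sum_mul]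
      _ ≤ η := by
          rw [mul_div_assoc', div_le_iff₀ (by positivity)]
          nlinarith
  calc ‖J w‖ = ‖repAlg (lreg (G := G)) e (J v) + (J w - repAlg (lreg (G := G)) e (J v))‖ := by
        congr 1; abel
    _ ≤ ‖repAlg (lreg (G := G)) e (J v)‖ + ‖J w - repAlg (lreg (G := G)) e (J v)‖ := norm_add_le _ _
    _ ≤ ‖repAlg (lreg (G := G)) e‖ * ‖J v‖ + η :=
        add_le_add (ContinuousLinearMap.le_opNorm _ _) hdiff

/-- **Weak containment**: for an amenable subgroup `Λ` and a unitary character `χ` of `Λ`, the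
induced representation is weakly contained in the regular representation. -/
theorem weakCont_qreg (hΛ : FoelnerAmenable Λ) : WeakCont (qreg χ) := by
  classical
  intro e
  refine ContinuousLinearMap.opNorm_le_bound _ (norm_nonneg _) fun φ => ?_
  have hsum := lp.hasSum_single (by norm_num : (2 : ENNReal) ≠ ⊤) φ
  have hclosed : IsClosed {φ : L2 (G ⧸ Λ) |
      ‖repAlg (qreg χ) e φ‖ ≤ ‖repAlg (lreg (G := G)) e‖ * ‖φ‖} :=
    isClosed_le ((repAlg (qreg χ) e).continuous.norm) (continuous_const.mul continuous_norm)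
  refine hclosed.mem_of_tendsto hsum (Filter.Eventually.of_forall fun s => ?_)
  have h1 : ∑ c ∈ s, lp.single 2 c (φ c) = Finsupp.linearCombination ℂ (del (X := G ⧸ Λ))
      (∑ c ∈ s, Finsupp.single c (φ c)) := by
    rw [map_sum]
    refine Finset.sum_congr rfl fun c _ => ?_
    rw [Finsupp.linearCombination_single]
    rw [del_eq_single, ← lp.single_smul]
    simp
  show ‖repAlg (qreg χ) e (∑ c ∈ s, lp.single 2 c (φ c))‖ ≤ _
  rw [h1]
  exact weak_finsupp χ hΛ e _

end

end Z9f173d
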